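import Mathlib

/-!
# A recurrence for a terminating hypergeometric sum at `-1/8`
-/

set_option autoImplicit false

namespace Pool.Agent.Q278.VX

open Finset

/-- numerators for `₂F₁(-2n, 1/3 - 2n; 1/2 - 3n; -1/8)` -/
def nT (n i : ℤ) : ℤ := -((i - 2 * n) * (3 * i + 1 - 6 * n))

/-- denominators -/
def dT (n i : ℤ) : ℤ := 12 * ((2 * i + 1 - 6 * n) * (i + 1))

/-- the terms -/
def tT (n k : ℕ) : ℚ := ∏ i ∈ range k, (((nT n i : ℤ) : ℚ) / ((dT n i : ℤ) : ℚ))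

/-- the common factor of the terms -/
def bT (n k : ℕ) : ℚ := ∏ i ∈ range k, (((nT (n + 2) i : ℤ) : ℚ) / ((dT n i : ℤ) : ℚ))

theorem odd_ne (a b c : ℤ) (h : c % 2 = 1) : (2 * (a : ℚ) + c - 6 * b) ≠ 0 := by
  intro h1
  have h2 : 2 * a + c - 6 * b = 0 := by exact_mod_cast h1
  omega

theorem dT_ne (n i : ℕ) : ((dT n i : ℤ) : ℚ) ≠ 0 := by
  have h1 := odd_ne (i : ℤ) (n : ℤ) 1 (by norm_num)
  have h2 : ((i : ℚ) + 1) ≠ 0 := by positivity
  unfold dT
  push_cast at h1 ⊢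
  exact mul_ne_zero (by norm_num) (mul_ne_zero h1 h2)

theorem tT_succ (n k : ℕ) : tT n (k + 1) * (12 * ((2 * k + 1 - 6 * n) * (k + 1))) =
    tT n k * -((k - 2 * n) * (3 * k + 1 - 6 * n)) := by
  have h := dT_ne n k
  have h1 : tT n (k + 1) = tT n k * (((nT n k : ℤ) : ℚ) / ((dT n k : ℤ) : ℚ)) := by
    unfold tT
    rw [prod_range_succ]
  have h2 : ((dT n k : ℤ) : ℚ) = 12 * ((2 * k + 1 - 6 * n) * (k + 1)) := by
    unfold dT; push_cast; ring
  have h3 : ((nT n k : ℤ) : ℚ) = -((k - 2 * n) * (3 * k + 1 - 6 * n)) := by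
    unfold nT; push_cast; ring
  rw [← h2, ← h3, h1, mul_assoc, div_mul_cancel₀ _ h]

theorem bT_succ (n k : ℕ) : bT n (k + 1) * (12 * ((2 * k + 1 - 6 * n) * (k + 1))) =
    bT n k * -((k - 2 * n - 4) * (3 * k - 11 - 6 * n)) := by
  have h := dT_ne n k
  have h1 : bT n (k + 1) = bT n k * (((nT (n + 2) k : ℤ) : ℚ) / ((dT n k : ℤ) : ℚ)) := by
    unfold bT
    rw [prod_range_succ]
  have h2 : ((dT n k : ℤ) : ℚ) = 12 * ((2 * k + 1 - 6 * n) * (k + 1)) := by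
    unfold dT; push_cast; ring
  have h3 : ((nT (n + 2) k : ℤ) : ℚ) = -((k - 2 * n - 4) * (3 * k - 11 - 6 * n)) := by
    unfold nT; push_cast; ring
  rw [← h2, ← h3, h1, mul_assoc, div_mul_cancel₀ _ h]

theorem tT_zero (n : ℕ) : tT n 0 = 1 := by simp [tT]
theorem bT_zero (n : ℕ) : bT n 0 = 1 := by simp [bT]

theorem tT_two (n k : ℕ) : tT (n + 2) k * ((6 * n + 11) * (6 * n + 9) * (6 * n + 7) * (6 * n + 5) *
    (6 * n + 3) * (6 * n + 1)) = bT n k * ((2 * k - 6 * n - 11) * (2 * k - 6 * n - 9) *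
      (2 * k - 6 * n - 7) * (2 * k - 6 * n - 5) * (2 * k - 6 * n - 3) * (2 * k - 6 * n - 1)) := by
  induction k with
  | zero =>
    rw [tT_zero, bT_zero]
    push_cast
    ring
  | succ k ih =>
    have h1 := tT_succ (n + 2) k
    have h2 := bT_succ n k
    have h3 := odd_ne (k : ℤ) (n : ℤ) (-11) (by norm_num)
    have h4 : ((k : ℚ) + 1) ≠ 0 := by positivity
    push_cast at h1 h3 ⊢
    have h5 : (12 * ((2 * (k : ℚ) + -11 - 6 * n) * (k + 1))) ≠ 0 :=
      mul_ne_zero (by norm_num) (mul_ne_zero h3 h4)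
    apply mul_right_cancel₀ h5
    linear_combination ((6 * n + 11) * (6 * n + 9) * (6 * n + 7) * (6 * n + 5) *
      (6 * n + 3) * (6 * n + 1) : ℚ) * h1 - ((k - 2 * n - 4) * (3 * k - 11 - 6 * n) : ℚ) * ih
      - ((2 * k - 6 * n - 11) * (2 * k - 6 * n - 9) *
      (2 * k - 6 * n - 7) * (2 * k - 6 * n - 5) * (2 * k - 6 * n - 3) * (2 * k - 6 * n - 1) : ℚ) * h2

theorem tT_one (n k : ℕ) : tT (n + 1) k * ((2 * n + 4) * (2 * n + 3) * (6 * n + 11) * (6 * n + 8) *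
    (6 * n + 5) * (6 * n + 3) * (6 * n + 1)) = -(bT n k * ((k - 2 * n - 4) * (k - 2 * n - 3) *
      (3 * k - 6 * n - 11) * (3 * k - 6 * n - 8) * (2 * k - 6 * n - 5) * (2 * k - 6 * n - 3) *
        (2 * k - 6 * n - 1))) := by
  induction k with
  | zero =>
    rw [tT_zero, bT_zero]
    push_cast
    ring
  | succ k ih =>
    have h1 := tT_succ (n + 1) k
    have h2 := bT_succ n k
    have h3 := odd_ne (k : ℤ) (n : ℤ) (-5) (by norm_num)
    have h4 : ((k : ℚ) + 1) ≠ 0 := by positivity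
    push_cast at h1 h3 ⊢
    have h5 : (12 * ((2 * (k : ℚ) + -5 - 6 * n) * (k + 1))) ≠ 0 :=
      mul_ne_zero (by norm_num) (mul_ne_zero h3 h4)
    apply mul_right_cancel₀ h5
    linear_combination ((2 * n + 4) * (2 * n + 3) * (6 * n + 11) * (6 * n + 8) *
      (6 * n + 5) * (6 * n + 3) * (6 * n + 1) : ℚ) * h1
      - ((k - 2 * n - 2) * (3 * k - 5 - 6 * n) : ℚ) * ih
      + ((k - 2 * n - 3) * (k - 2 * n - 2) * (3 * k - 6 * n - 8) * (3 * k - 6 * n - 5) *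
        (2 * k - 6 * n - 3) * (2 * k - 6 * n - 1) * (2 * k - 6 * n - 5) : ℚ) * h2

theorem tT_none (n k : ℕ) : tT n k * ((2 * n + 4) * (2 * n + 3) * (2 * n + 2) * (2 * n + 1) *
    ((6 * n + 11) * (6 * n + 8) * (6 * n + 5) * (6 * n + 2))) =
      bT n k * ((k - 2 * n - 4) * (k - 2 * n - 3) * (k - 2 * n - 2) * (k - 2 * n - 1) *
      ((3 * k - 6 * n - 11) * (3 * k - 6 * n - 8) * (3 * k - 6 * n - 5) * (3 * k - 6 * n - 2))) := by
  induction k with
  | zero =>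
    rw [tT_zero, bT_zero]
    push_cast
    ring
  | succ k ih =>
    have h1 := tT_succ n k
    have h2 := bT_succ n k
    have h3 := odd_ne (k : ℤ) (n : ℤ) 1 (by norm_num)
    have h4 : ((k : ℚ) + 1) ≠ 0 := by positivity
    push_cast at h3 ⊢
    have h5 : (12 * ((2 * (k : ℚ) + 1 - 6 * n) * (k + 1))) ≠ 0 :=
      mul_ne_zero (by norm_num) (mul_ne_zero h3 h4)
    apply mul_right_cancel₀ h5
    linear_combination ((2 * n + 4) * (2 * n + 3) * (2 * n + 2) * (2 * n + 1) *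
      ((6 * n + 11) * (6 * n + 8) * (6 * n + 5) * (6 * n + 2)) : ℚ) * h1
      - ((k - 2 * n) * (3 * k + 1 - 6 * n) : ℚ) * ih
      - ((k - 2 * n - 3) * (k - 2 * n - 2) * (k - 2 * n - 1) * (k - 2 * n) *
      ((3 * k - 6 * n - 8) * (3 * k - 6 * n - 5) * (3 * k - 6 * n - 2) * (3 * k - 6 * n + 1)) : ℚ) * h2

/-- the certificate -/
def qT (n k : ℚ) : ℚ :=
    (427504896 + 2561253696 * n + 6071998752 * n ^ 2 + 7345183968 * n ^ 3 + 4807439424 * n ^ 4 +
      1621233792 * n ^ 5 + 220900608 * n ^ 6) +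
    (-778920096 - 3675871392 * n - 6663793104 * n ^ 2 - 5829746688 * n ^ 3 - 2469393216 * n ^ 4 -
      406280448 * n ^ 5) * k +
    (539585544 + 1946105640 * n + 2554088544 * n ^ 2 + 1449430848 * n ^ 3 +
      300480192 * n ^ 4) * k ^ 2 +
    (-179457468 - 468387840 * n - 399851424 * n ^ 2 - 111604608 * n ^ 3) * k ^ 3 +
    (28885668 + 49114152 * n + 20795184 * n ^ 2) * k ^ 4 +
    (-1811556 - 1553040 * n) * k ^ 5 +
    (-108) * k ^ 6

theorem sum_cert (n N : ℕ) : ∑ k ∈ range N, (2304 * (2 * n + 4) * (6 * n + 8) *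
    (tT (n + 2) k * ((6 * n + 11) * (6 * n + 9) * (6 * n + 7) * (6 * n + 5) *
    (6 * n + 3) * (6 * n + 1))) - 8096 * (6 * n + 7) *
    (tT (n + 1) k * ((2 * n + 4) * (2 * n + 3) * (6 * n + 11) * (6 * n + 8) *
    (6 * n + 5) * (6 * n + 3) * (6 * n + 1))) +
    3 * (tT n k * ((2 * n + 4) * (2 * n + 3) * (2 * n + 2) * (2 * n + 1) *
    ((6 * n + 11) * (6 * n + 8) * (6 * n + 5) * (6 * n + 2))))) =
      qT n N * N * (2 * N - 6 * n - 1) * bT n N := by
  induction N with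
  | zero => simp
  | succ N ih =>
    rw [sum_range_succ, ih, tT_two, tT_one, tT_none]
    have h2 := bT_succ n N
    push_cast
    unfold qT
    linear_combination (-(1 / 12) * ((427504896 + 2561253696 * (n : ℚ) + 6071998752 * n ^ 2 +
      7345183968 * n ^ 3 + 4807439424 * n ^ 4 +
      1621233792 * n ^ 5 + 220900608 * n ^ 6) +
    (-778920096 - 3675871392 * (n : ℚ) - 6663793104 * n ^ 2 - 5829746688 * n ^ 3 - 2469393216 * n ^ 4 -
      406280448 * n ^ 5) * ((N : ℚ) + 1) +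
    (539585544 + 1946105640 * n + 2554088544 * n ^ 2 + 1449430848 * n ^ 3 +
      300480192 * n ^ 4) * ((N : ℚ) + 1) ^ 2 +
    (-179457468 - 468387840 * n - 399851424 * n ^ 2 - 111604608 * n ^ 3) * ((N : ℚ) + 1) ^ 3 +
    (28885668 + 49114152 * n + 20795184 * n ^ 2) * ((N : ℚ) + 1) ^ 4 +
    (-1811556 - 1553040 * n) * ((N : ℚ) + 1) ^ 5 +
    (-108) * ((N : ℚ) + 1) ^ 6)) * h2

theorem tT_vanish (n k : ℕ) (h : 2 * n < k) : tT n k = 0 := by
  unfold tT
  apply prod_eq_zero (mem_range.2 h)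
  unfold nT
  push_cast
  ring

theorem bT_vanish (n k : ℕ) (h : 2 * n + 4 < k) : bT n k = 0 := by
  unfold bT
  apply prod_eq_zero (mem_range.2 h)
  unfold nT
  push_cast
  ring

/-- the terminating sums -/
def TS (n : ℕ) : ℚ := ∑ k ∈ range (2 * n + 1), tT n k

theorem TS_eq (n N : ℕ) (h : 2 * n < N) : ∑ k ∈ range N, tT n k = TS n := by
  unfold TS
  refine (sum_subset (range_subset_range.2 (by omega)) fun k _ hk => ?_).symm
  rw [mem_range] at hk
  exact tT_vanish n k (by omega)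

theorem TS_rec (n : ℕ) : 1728 * ((6 * (n : ℚ) + 7) * (6 * n + 1)) * TS (n + 2) =
    2024 * ((6 * (n : ℚ) + 7) * (6 * n + 1)) * TS (n + 1) - (n + 1) * (3 * n + 1) * TS n := by
  have h := sum_cert n (2 * n + 5)
  rw [bT_vanish n _ (by omega), mul_zero, sum_add_distrib, sum_sub_distrib, ← mul_sum, ← mul_sum,
    ← mul_sum, ← sum_mul, ← sum_mul, ← sum_mul, TS_eq (n + 2) _ (by omega),
    TS_eq (n + 1) _ (by omega), TS_eq n _ (by omega)] at h
  have h1 : (12 * ((2 * (n : ℚ) + 4) * (2 * n + 3) * (2 * n + 1) * (6 * n + 11) * (6 * n + 8) *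
      (6 * n + 5))) ≠ 0 := by positivity
  apply mul_left_cancel₀ h1
  linear_combination h

end Pool.Agent.Q278.VX
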