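import Pool.Agent.Q278.VX.A

/-!
# Terminating hypergeometric sums at `-3/125` and at `-1/8`
-/

set_option autoImplicit false

namespace Pool.Agent.Q278.VX

open Finset

/-- numerators for `₂F₁(-n, 1/3 - n; 2/3 - 2n; -3/125)` -/
def nV (n i : ℤ) : ℤ := -(3 * ((i - n) * (3 * i + 1 - 3 * n)))

/-- denominators -/
def dV (n i : ℤ) : ℤ := 125 * ((3 * i + 2 - 6 * n) * (i + 1))

/-- the terms -/
def tV (n k : ℕ) : ℚ := ∏ i ∈ range k, (((nV n i : ℤ) : ℚ) / ((dV n i : ℤ) : ℚ))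

/-- the common factor of the terms -/
def bV (n k : ℕ) : ℚ := ∏ i ∈ range k, (((nV (n + 2) i : ℤ) : ℚ) / ((dV n i : ℤ) : ℚ))

theorem three_ne (a b c : ℤ) (h : c % 3 ≠ 0) : (3 * (a : ℚ) + c - 6 * b) ≠ 0 := by
  intro h1
  have h2 : 3 * a + c - 6 * b = 0 := by exact_mod_cast h1
  omega

theorem dV_ne (n i : ℕ) : ((dV n i : ℤ) : ℚ) ≠ 0 := by
  have h1 := three_ne (i : ℤ) (n : ℤ) 2 (by norm_num)
  have h2 : ((i : ℚ) + 1) ≠ 0 := by positivity
  unfold dV
  push_cast at h1 ⊢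
  exact mul_ne_zero (by norm_num) (mul_ne_zero h1 h2)

theorem tV_succ (n k : ℕ) : tV n (k + 1) * (125 * ((3 * k + 2 - 6 * n) * (k + 1))) =
    tV n k * -(3 * ((k - n) * (3 * k + 1 - 3 * n))) := by
  have h := dV_ne n k
  have h1 : tV n (k + 1) = tV n k * (((nV n k : ℤ) : ℚ) / ((dV n k : ℤ) : ℚ)) := by
    unfold tV
    rw [prod_range_succ]
  have h2 : ((dV n k : ℤ) : ℚ) = 125 * ((3 * k + 2 - 6 * n) * (k + 1)) := by
    unfold dV; push_cast; ring
  have h3 : ((nV n k : ℤ) : ℚ) = -(3 * ((k - n) * (3 * k + 1 - 3 * n))) := by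
    unfold nV; push_cast; ring
  rw [← h2, ← h3, h1, mul_assoc, div_mul_cancel₀ _ h]

theorem bV_succ (n k : ℕ) : bV n (k + 1) * (125 * ((3 * k + 2 - 6 * n) * (k + 1))) =
    bV n k * -(3 * ((k - n - 2) * (3 * k - 5 - 3 * n))) := by
  have h := dV_ne n k
  have h1 : bV n (k + 1) = bV n k * (((nV (n + 2) k : ℤ) : ℚ) / ((dV n k : ℤ) : ℚ)) := by
    unfold bV
    rw [prod_range_succ]
  have h2 : ((dV n k : ℤ) : ℚ) = 125 * ((3 * k + 2 - 6 * n) * (k + 1)) := by
    unfold dV; push_cast; ring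
  have h3 : ((nV (n + 2) k : ℤ) : ℚ) = -(3 * ((k - n - 2) * (3 * k - 5 - 3 * n))) := by
    unfold nV; push_cast; ring
  rw [← h2, ← h3, h1, mul_assoc, div_mul_cancel₀ _ h]

theorem tV_zero (n : ℕ) : tV n 0 = 1 := by simp [tV]
theorem bV_zero (n : ℕ) : bV n 0 = 1 := by simp [bV]

theorem tV_two (n k : ℕ) : tV (n + 2) k * ((6 * n + 10) * (6 * n + 7) * (6 * n + 4) * (6 * n + 1)) =
    bV n k * ((3 * k - 6 * n - 10) * (3 * k - 6 * n - 7) * (3 * k - 6 * n - 4) *
      (3 * k - 6 * n - 1)) := by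
  induction k with
  | zero =>
    rw [tV_zero, bV_zero]
    push_cast
    ring
  | succ k ih =>
    have h1 := tV_succ (n + 2) k
    have h2 := bV_succ n k
    have h3 := three_ne (k : ℤ) (n : ℤ) (-10) (by norm_num)
    have h4 : ((k : ℚ) + 1) ≠ 0 := by positivity
    push_cast at h1 h3 ⊢
    have h5 : (125 * ((3 * (k : ℚ) + -10 - 6 * n) * (k + 1))) ≠ 0 :=
      mul_ne_zero (by norm_num) (mul_ne_zero h3 h4)
    apply mul_right_cancel₀ h5
    linear_combination ((6 * n + 10) * (6 * n + 7) * (6 * n + 4) * (6 * n + 1) : ℚ) * h1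
      - (3 * (k - n - 2) * (3 * k - 5 - 3 * n) : ℚ) * ih
      - ((3 * k - 6 * n - 10) * (3 * k - 6 * n - 7) * (3 * k - 6 * n - 4) *
      (3 * k - 6 * n - 1) : ℚ) * h2

theorem tV_one (n k : ℕ) : tV (n + 1) k * ((n + 2) * (3 * n + 5) * (6 * n + 4) * (6 * n + 1)) =
    bV n k * ((k - n - 2) * (3 * k - 3 * n - 5) * (3 * k - 6 * n - 4) * (3 * k - 6 * n - 1)) := by
  induction k with
  | zero =>
    rw [tV_zero, bV_zero]
    push_cast
    ring
  | succ k ih =>
    have h1 := tV_succ (n + 1) k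
    have h2 := bV_succ n k
    have h3 := three_ne (k : ℤ) (n : ℤ) (-4) (by norm_num)
    have h4 : ((k : ℚ) + 1) ≠ 0 := by positivity
    push_cast at h1 h3 ⊢
    have h5 : (125 * ((3 * (k : ℚ) + -4 - 6 * n) * (k + 1))) ≠ 0 :=
      mul_ne_zero (by norm_num) (mul_ne_zero h3 h4)
    apply mul_right_cancel₀ h5
    linear_combination ((n + 2) * (3 * n + 5) * (6 * n + 4) * (6 * n + 1) : ℚ) * h1
      - (3 * (k - n - 1) * (3 * k - 2 - 3 * n) : ℚ) * ih
      - ((k - n - 1) * (3 * k - 3 * n - 2) * (3 * k - 6 * n - 1) *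
        (3 * k - 6 * n - 4) : ℚ) * h2

theorem tV_none (n k : ℕ) : tV n k * ((n + 2) * (n + 1) * (3 * n + 5) * (3 * n + 2)) =
    bV n k * ((k - n - 2) * (k - n - 1) * (3 * k - 3 * n - 5) * (3 * k - 3 * n - 2)) := by
  induction k with
  | zero =>
    rw [tV_zero, bV_zero]
    push_cast
    ring
  | succ k ih =>
    have h1 := tV_succ n k
    have h2 := bV_succ n k
    have h3 := three_ne (k : ℤ) (n : ℤ) 2 (by norm_num)
    have h4 : ((k : ℚ) + 1) ≠ 0 := by positivity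
    push_cast at h3 ⊢
    have h5 : (125 * ((3 * (k : ℚ) + 2 - 6 * n) * (k + 1))) ≠ 0 :=
      mul_ne_zero (by norm_num) (mul_ne_zero h3 h4)
    apply mul_right_cancel₀ h5
    linear_combination ((n + 2) * (n + 1) * (3 * n + 5) * (3 * n + 2) : ℚ) * h1
      - (3 * (k - n) * (3 * k + 1 - 3 * n) : ℚ) * ih
      - ((k - n - 1) * (k - n) * (3 * k - 3 * n - 2) * (3 * k - 3 * n + 1) : ℚ) * h2

/-- the certificate -/
def qV (n k : ℚ) : ℚ :=
    (3238750 + 10641375 * n + 10928250 * n ^ 2 + 3364875 * n ^ 3) +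
    (-3925125 - 8253000 * n - 4198500 * n ^ 2) * k + (1121625 + 1255500 * n) * k ^ 2

theorem sum_certV (n N : ℕ) : ∑ k ∈ range N, (15625 * (n + 2) *
    (tV (n + 2) k * ((6 * n + 10) * (6 * n + 7) * (6 * n + 4) * (6 * n + 1))) -
    31625 * (6 * n + 7) * (tV (n + 1) k * ((n + 2) * (3 * n + 5) * (6 * n + 4) * (6 * n + 1))) +
    27 * (3 * n + 1) * (tV n k * ((n + 2) * (n + 1) * (3 * n + 5) * (3 * n + 2)))) =
      qV n N * N * (3 * N - 6 * n - 1) * bV n N := by
  induction N with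
  | zero => simp
  | succ N ih =>
    rw [sum_range_succ, ih, tV_two, tV_one, tV_none]
    have h2 := bV_succ n N
    push_cast
    unfold qV
    linear_combination (-(1 / 125) * ((3238750 + 10641375 * (n : ℚ) + 10928250 * n ^ 2 +
      3364875 * n ^ 3) + (-3925125 - 8253000 * (n : ℚ) - 4198500 * n ^ 2) * ((N : ℚ) + 1) +
      (1121625 + 1255500 * n) * ((N : ℚ) + 1) ^ 2)) * h2

theorem tV_vanish (n k : ℕ) (h : n < k) : tV n k = 0 := by
  unfold tV
  apply prod_eq_zero (mem_range.2 h)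
  unfold nV
  push_cast
  ring

theorem bV_vanish (n k : ℕ) (h : n + 2 < k) : bV n k = 0 := by
  unfold bV
  apply prod_eq_zero (mem_range.2 h)
  unfold nV
  push_cast
  ring

/-- the terminating sums -/
def VS (n : ℕ) : ℚ := ∑ k ∈ range (n + 1), tV n k

theorem VS_eq (n N : ℕ) (h : n < N) : ∑ k ∈ range N, tV n k = VS n := by
  unfold VS
  refine (sum_subset (range_subset_range.2 (by omega)) fun k _ hk => ?_).symm
  rw [mem_range] at hk
  exact tV_vanish n k (by omega)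

theorem VS_rec (n : ℕ) : 62500 * ((6 * (n : ℚ) + 7) * (6 * n + 1)) * VS (n + 2) =
    63250 * ((6 * (n : ℚ) + 7) * (6 * n + 1)) * VS (n + 1) - 27 * ((n + 1) * (3 * n + 1)) * VS n := by
  have h := sum_certV n (n + 3)
  rw [bV_vanish n _ (by omega), mul_zero, sum_add_distrib, sum_sub_distrib, ← mul_sum, ← mul_sum,
    ← mul_sum, ← sum_mul, ← sum_mul, ← sum_mul, VS_eq (n + 2) _ (by omega),
    VS_eq (n + 1) _ (by omega), VS_eq n _ (by omega)] at h
  have h1 : ((n : ℚ) + 2) * (3 * n + 5) * (3 * n + 2) ≠ 0 := by positivity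
  apply mul_left_cancel₀ h1
  linear_combination h

theorem TS_zero : TS 0 = 1 := by simp [TS, tT]
theorem VS_zero : VS 0 = 1 := by simp [VS, tV]

theorem TS_one : TS 1 = 253 / 216 := by
  unfold TS tT nT dT
  norm_num [sum_range_succ, prod_range_succ]

theorem VS_one : VS 1 = 253 / 250 := by
  unfold VS tV nV dV
  norm_num [sum_range_succ, prod_range_succ]

/-- **the algebraic transformation between the two sums** -/
theorem VT (n : ℕ) : (125 : ℚ) ^ n * VS n = 108 ^ n * TS n := by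
  have key : ∀ n : ℕ, (125 : ℚ) ^ n * VS n = 108 ^ n * TS n ∧
      (125 : ℚ) ^ (n + 1) * VS (n + 1) = 108 ^ (n + 1) * TS (n + 1) := by
    intro n
    induction n with
    | zero =>
      refine ⟨by rw [TS_zero, VS_zero]; norm_num, ?_⟩
      rw [zero_add, TS_one, VS_one]
      norm_num
    | succ n ih =>
      refine ⟨ih.2, ?_⟩
      have h1 := VS_rec n
      have h2 := TS_rec n
      have h3 : ((6 * (n : ℚ) + 7) * (6 * n + 1)) ≠ 0 := by positivity
      apply mul_left_cancel₀ h3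
      rw [pow_succ, pow_succ] at ih
      rw [pow_succ, pow_succ, pow_succ, pow_succ]
      linear_combination (125 ^ n * 125 * 125 / 62500 : ℚ) * h1
        - (108 ^ n * 108 * 108 / 1728 : ℚ) * h2
        + (63250 * 125 / 62500 * ((6 * (n : ℚ) + 7) * (6 * n + 1))) * ih.2
        - (27 * 125 * 125 / 62500 * (((n : ℚ) + 1) * (3 * n + 1))) * ih.1
  exact (key n).1

end Pool.Agent.Q278.VX
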