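import Pool.Agent.Q278.VX.B

/-!
# The square of the terminating sum at `-3/125`
-/

set_option autoImplicit false

namespace Pool.Agent.Q278.VX

open Finset

/-- numerators for `₃F₂(-n, 1/3 - n, 2/3 - n; 5/6 - n, 2/3 - 2n; -9/64000)` -/
def nE (n i : ℤ) : ℤ := -(9 * ((i - n) * (3 * i + 1 - 3 * n) * (3 * i + 2 - 3 * n)))

/-- denominators -/
def dE (n i : ℤ) : ℤ := 32000 * ((6 * i + 5 - 6 * n) * (3 * i + 2 - 6 * n) * (i + 1))

/-- the terms -/
def tE (n k : ℕ) : ℚ := ∏ i ∈ range k, (((nE n i : ℤ) : ℚ) / ((dE n i : ℤ) : ℚ))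

theorem six_ne (a b c : ℤ) (h : c % 6 ≠ 0) : (6 * (a : ℚ) + c - 6 * b) ≠ 0 := by
  intro h1
  have h2 : 6 * a + c - 6 * b = 0 := by exact_mod_cast h1
  omega

theorem dE_ne (n i : ℕ) : ((dE n i : ℤ) : ℚ) ≠ 0 := by
  have h1 := three_ne (i : ℤ) (n : ℤ) 2 (by norm_num)
  have h3 := six_ne (i : ℤ) (n : ℤ) 5 (by norm_num)
  have h2 : ((i : ℚ) + 1) ≠ 0 := by positivity
  unfold dE
  push_cast at h1 h3 ⊢
  exact mul_ne_zero (by norm_num) (mul_ne_zero (mul_ne_zero h3 h1) h2)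

theorem tE_succ (n k : ℕ) : tE n (k + 1) * (32000 * ((6 * k + 5 - 6 * n) * (3 * k + 2 - 6 * n) *
    (k + 1))) = tE n k * -(9 * ((k - n) * (3 * k + 1 - 3 * n) * (3 * k + 2 - 3 * n))) := by
  have h := dE_ne n k
  have h1 : tE n (k + 1) = tE n k * (((nE n k : ℤ) : ℚ) / ((dE n k : ℤ) : ℚ)) := by
    unfold tE
    rw [prod_range_succ]
  have h2 : ((dE n k : ℤ) : ℚ) = 32000 * ((6 * k + 5 - 6 * n) * (3 * k + 2 - 6 * n) *
    (k + 1)) := by
    unfold dE; push_cast; ring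
  have h3 : ((nE n k : ℤ) : ℚ) = -(9 * ((k - n) * (3 * k + 1 - 3 * n) * (3 * k + 2 - 3 * n))) := by
    unfold nE; push_cast; ring
  rw [← h2, ← h3, h1, mul_assoc, div_mul_cancel₀ _ h]

theorem tE_zero (n : ℕ) : tE n 0 = 1 := by simp [tE]

/-- the diagonal relation -/
theorem tE_diag (n k : ℕ) : tE (n + 1) (k + 1) * ((6 * n + 1) ^ 2 * (k + 1)) =
    tE n k * (9 / 64000 * ((n + 1) * (3 * n + 1) * (6 * n + 1 - 3 * k))) := by
  induction k with
  | zero =>
    have h1 := tE_succ (n + 1) 0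
    rw [tE_zero] at h1 ⊢
    have h2 : (32000 * ((6 * (n : ℚ) + 1) * (6 * n + 4))) ≠ 0 := by positivity
    apply mul_left_cancel₀ h2
    push_cast at h1 ⊢
    linear_combination ((6 * (n : ℚ) + 1) ^ 2) * h1
  | succ k ih =>
    have h1 := tE_succ (n + 1) (k + 1)
    have h2 := tE_succ n k
    have h3 := three_ne (k : ℤ) (n : ℤ) (-1) (by norm_num)
    have h6 := three_ne (k : ℤ) (n : ℤ) 2 (by norm_num)
    have h5 := six_ne (k : ℤ) (n : ℤ) 5 (by norm_num)
    have h4 : ((k : ℚ) + 1) ≠ 0 := by positivity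
    push_cast at h1 h3 h5 h6 ⊢
    have h7 : (32000 * ((6 * (k : ℚ) + 5 - 6 * n) * (3 * k + -1 - 6 * n) * (k + 1))) ≠ 0 :=
      mul_ne_zero (by norm_num) (mul_ne_zero (mul_ne_zero h5 h3) h4)
    apply mul_right_cancel₀ h7
    linear_combination ((6 * (n : ℚ) + 1) ^ 2 * (k + 1)) * h1
      - (9 * ((k - n) * (3 * k + 1 - 3 * n) * (3 * k + 2 - 3 * n)) : ℚ) * ih
      + (9 / 64000 * ((n + 1) * (3 * n + 1)) * (3 * k - 1 - 6 * n) : ℚ) * h2

/-- the argument -/
def zE : ℚ := -(9 / 64000)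

/-- the recurrence coefficient -/
def gE (n : ℚ) : ℚ := (n + 1) * (3 * n + 1) / ((6 * n + 7) * (6 * n + 1))

theorem gE_mul (n : ℕ) : gE n * ((6 * n + 7) * (6 * n + 1)) = (n + 1) * (3 * n + 1) := by
  unfold gE
  have h : ((6 * (n : ℚ) + 7) * (6 * n + 1)) ≠ 0 := by positivity
  exact div_mul_cancel₀ _ h

theorem term_rec (n k : ℕ) : tE (n + 3) (k + 3) = tE (n + 2) (k + 3) +
    (3 * gE (n + 1) - 1) * zE * tE (n + 2) (k + 2) + 3 * gE (n + 1) * zE * tE (n + 1) (k + 2) +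
    3 * gE (n + 1) * (3 * gE (n + 1) - 1) * zE ^ 2 * tE (n + 1) (k + 1) -
    27 * gE (n + 1) * gE n ^ 2 * zE ^ 3 * tE n k := by
  have a1 := tE_diag n k
  have a2 := tE_diag (n + 1) (k + 1)
  have a3 := tE_diag (n + 2) (k + 2)
  have c1 := tE_succ (n + 1) (k + 1)
  have c2 := tE_succ (n + 2) (k + 2)
  have h3 := three_ne (k : ℤ) (n : ℤ) (-1) (by norm_num)
  have h6 := three_ne (k : ℤ) (n : ℤ) (-4) (by norm_num)
  have h5 := six_ne (k : ℤ) (n : ℤ) 5 (by norm_num)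
  push_cast at a1 a2 a3 c1 c2 h3 h5 h6
  have p1 : (6 * (n : ℚ) + 1) ≠ 0 := by positivity
  have p2 : (6 * (n : ℚ) + 7) ≠ 0 := by positivity
  have p3 : (6 * (n : ℚ) + 13) ≠ 0 := by positivity
  have k1 : ((k : ℚ) + 1) ≠ 0 := by positivity
  have k2 : ((k : ℚ) + 2) ≠ 0 := by positivity
  have k3 : ((k : ℚ) + 3) ≠ 0 := by positivity
  set b := tE n k
  have e1 : tE (n + 1) (k + 1) = b * (9 / 64000 * ((n + 1) * (3 * n + 1) * (6 * n + 1 - 3 * k))) /
      ((6 * n + 1) ^ 2 * (k + 1)) := by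
    rw [eq_div_iff (by positivity)]
    exact a1
  have e2 : tE (n + 2) (k + 2) = tE (n + 1) (k + 1) *
      (9 / 64000 * ((n + 2) * (3 * n + 4) * (6 * n + 4 - 3 * k))) /
      ((6 * n + 7) ^ 2 * (k + 2)) := by
    rw [eq_div_iff (by positivity)]
    linear_combination a2
  have e3 : tE (n + 3) (k + 3) = tE (n + 2) (k + 2) *
      (9 / 64000 * ((n + 3) * (3 * n + 7) * (6 * n + 7 - 3 * k))) /
      ((6 * n + 13) ^ 2 * (k + 3)) := by
    rw [eq_div_iff (by positivity)]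
    linear_combination a3
  obtain ⟨W, hW⟩ : ∃ W : ℚ, W = 6 * (k : ℚ) + 5 - 6 * n := ⟨_, rfl⟩
  rw [← hW] at h5
  have f1 : tE (n + 1) (k + 2) = b * (81 * ((n + 1) * (3 * n + 1) *
      ((k - n) * (3 * k + 1 - 3 * n) * (3 * k + 2 - 3 * n)))) /
      (2048000000 * ((6 * n + 1) ^ 2 * (k + 1) * (k + 2) * W)) := by
    rw [eq_div_iff (mul_ne_zero (by norm_num) (mul_ne_zero (by positivity) h5))]
    apply mul_right_cancel₀ h3
    rw [hW]
    linear_combination (64000 * ((6 * n + 1) ^ 2 * (k + 1)) : ℚ) * c1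
      - (64000 * (9 * ((k - n) * (3 * k + 1 - 3 * n) * (3 * k + 2 - 3 * n))) : ℚ) * a1
  have f2 : tE (n + 2) (k + 3) = tE (n + 1) (k + 1) * (81 * ((n + 2) * (3 * n + 4) *
      ((k - n) * (3 * k + 1 - 3 * n) * (3 * k + 2 - 3 * n)))) /
      (2048000000 * ((6 * n + 7) ^ 2 * (k + 2) * (k + 3) * W)) := by
    rw [eq_div_iff (mul_ne_zero (by norm_num) (mul_ne_zero (by positivity) h5))]
    apply mul_right_cancel₀ h6
    rw [hW]
    linear_combination (64000 * ((6 * n + 7) ^ 2 * (k + 2)) : ℚ) * c2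
      - (64000 * (9 * ((k - n) * (3 * k + 1 - 3 * n) * (3 * k + 2 - 3 * n))) : ℚ) * a2
  have g1 : gE n = (n + 1) * (3 * n + 1) / ((6 * n + 7) * (6 * n + 1)) := rfl
  have g2 : gE (n + 1) = (n + 2) * (3 * n + 4) / ((6 * n + 13) * (6 * n + 7)) := by
    unfold gE
    congr 1 <;> ring
  rw [e3, f2, f1, e2, e1, g1, g2, zE]
  field_simp
  rw [hW]
  ring

theorem tE_one (n : ℕ) : tE (n + 1) 1 = 9 / 64000 * ((n + 1) * (3 * n + 1)) / (6 * n + 1) := by
  have h1 := tE_diag n 0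
  rw [tE_zero] at h1
  have h2 : (6 * (n : ℚ) + 1) ≠ 0 := by positivity
  rw [eq_div_iff h2]
  apply mul_right_cancel₀ h2
  push_cast at h1
  linear_combination h1

theorem sum_rec (n N : ℕ) : ∑ k ∈ range (N + 3), tE (n + 3) k = ∑ k ∈ range (N + 3), tE (n + 2) k +
    (3 * gE (n + 1) - 1) * zE * ∑ k ∈ range (N + 2), tE (n + 2) k +
    3 * gE (n + 1) * zE * ∑ k ∈ range (N + 2), tE (n + 1) k +
    3 * gE (n + 1) * (3 * gE (n + 1) - 1) * zE ^ 2 * ∑ k ∈ range (N + 1), tE (n + 1) k -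
    27 * gE (n + 1) * gE n ^ 2 * zE ^ 3 * ∑ k ∈ range N, tE n k := by
  induction N with
  | zero =>
    simp only [zero_add, sum_range_succ, range_zero, sum_empty, tE_zero]
    have b3 := tE_one (n + 2)
    have b2 := tE_one (n + 1)
    have b1 := tE_one n
    have d3 := tE_diag (n + 2) 1
    have d2 := tE_diag (n + 1) 1
    have p1 : (6 * (n : ℚ) + 1) ≠ 0 := by positivity
    have p2 : (6 * (n : ℚ) + 7) ≠ 0 := by positivity
    have p3 : (6 * (n : ℚ) + 13) ≠ 0 := by positivity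
    push_cast at b3 b2 b1 d3 d2
    have c3 : tE (n + 3) 2 = tE (n + 2) 1 * (9 / 64000 * ((n + 3) * (3 * n + 7) * (6 * n + 10))) /
        ((6 * n + 13) ^ 2 * 2) := by
      rw [eq_div_iff (by positivity)]
      linear_combination d3
    have c2 : tE (n + 2) 2 = tE (n + 1) 1 * (9 / 64000 * ((n + 2) * (3 * n + 4) * (6 * n + 4))) /
        ((6 * n + 7) ^ 2 * 2) := by
      rw [eq_div_iff (by positivity)]
      linear_combination d2
    have b3' : tE (n + 3) 1 = 9 / 64000 * ((n + 3) * (3 * n + 7)) / (6 * n + 13) := by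
      rw [show n + 3 = n + 2 + 1 by ring, b3]
      congr 1 <;> ring
    have b2' : tE (n + 2) 1 = 9 / 64000 * ((n + 2) * (3 * n + 4)) / (6 * n + 7) := by
      rw [show n + 2 = n + 1 + 1 by ring, b2]
      congr 1 <;> ring
    have g2 : gE (n + 1) = (n + 2) * (3 * n + 4) / ((6 * n + 13) * (6 * n + 7)) := by
      unfold gE
      congr 1 <;> ring
    rw [c3, c2, b3', b2', b1, g2, zE]
    field_simp
    ring
  | succ N ih =>
    have s1 := sum_range_succ (fun k => tE (n + 3) k) (N + 3)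
    have s2 := sum_range_succ (fun k => tE (n + 2) k) (N + 3)
    have s3 := sum_range_succ (fun k => tE (n + 2) k) (N + 2)
    have s4 := sum_range_succ (fun k => tE (n + 1) k) (N + 2)
    have s5 := sum_range_succ (fun k => tE (n + 1) k) (N + 1)
    have s6 := sum_range_succ (fun k => tE n k) N
    have ht := term_rec n N
    rw [show N + 1 + 3 = (N + 3) + 1 by ring, show N + 1 + 2 = (N + 2) + 1 by ring]
    linear_combination s1 - s2 - ((3 * gE (n + 1) - 1) * zE) * s3 - (3 * gE (n + 1) * zE) * s4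
      - (3 * gE (n + 1) * (3 * gE (n + 1) - 1) * zE ^ 2) * s5
      + (27 * gE (n + 1) * gE n ^ 2 * zE ^ 3) * s6 + ih + ht

theorem tE_vanish (n k : ℕ) (h : n < k) : tE n k = 0 := by
  unfold tE
  apply prod_eq_zero (mem_range.2 h)
  unfold nE
  push_cast
  ring

/-- the terminating sums -/
def ES (n : ℕ) : ℚ := ∑ k ∈ range (n + 1), tE n k

theorem ES_eq (n N : ℕ) (h : n < N) : ∑ k ∈ range N, tE n k = ES n := by
  unfold ES
  refine (sum_subset (range_subset_range.2 (by omega)) fun k _ hk => ?_).symm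
  rw [mem_range] at hk
  exact tE_vanish n k (by omega)

theorem ES_rec (n : ℕ) : ES (n + 3) = (1 - zE + 3 * gE (n + 1) * zE) * ES (n + 2) +
    3 * gE (n + 1) * zE * (1 - zE + 3 * gE (n + 1) * zE) * ES (n + 1) -
    27 * gE (n + 1) * gE n ^ 2 * zE ^ 3 * ES n := by
  have h := sum_rec n (n + 1)
  rw [ES_eq _ _ (by omega), ES_eq _ _ (by omega), ES_eq _ _ (by omega), ES_eq _ _ (by omega),
    ES_eq _ _ (by omega), ES_eq _ _ (by omega)] at h
  rw [h]
  ring

theorem VS_two : VS 2 = 253 / 250 * VS 1 - 27 / 62500 * gE 0 := by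
  have h := VS_rec 0
  rw [VS_zero] at h
  unfold gE
  push_cast at h
  linarith

theorem VS_rec' (n : ℕ) : VS (n + 2) = 253 / 250 * VS (n + 1) - 27 / 62500 * gE n * VS n := by
  have h := VS_rec n
  have h1 := gE_mul n
  have h3 : ((6 * (n : ℚ) + 7) * (6 * n + 1)) ≠ 0 := by positivity
  apply mul_left_cancel₀ h3
  linear_combination (1 / 62500 : ℚ) * h + (27 / 62500 * VS n) * h1

theorem ES_zero : ES 0 = 1 := by simp [ES, tE]

theorem ES_one : ES 1 = 64009 / 64000 := by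
  unfold ES tE nE dE
  norm_num [sum_range_succ, prod_range_succ]

theorem ES_two : (128 : ℚ) ^ 2 * ES 2 = 125 ^ 2 * VS 2 ^ 2 := by
  have h := VS_rec 0
  rw [VS_zero, VS_one] at h
  have h1 : VS 2 = (253 / 250) ^ 2 - 27 / 437500 := by
    push_cast at h
    linarith
  rw [h1]
  unfold ES tE nE dE
  norm_num [sum_range_succ, prod_range_succ]

/-- **the third sum is the square of the second** -/
theorem EV (n : ℕ) : (128 : ℚ) ^ n * ES n = 125 ^ n * VS n ^ 2 := by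
  have key : ∀ n : ℕ, (128 : ℚ) ^ n * ES n = 125 ^ n * VS n ^ 2 ∧
      (128 : ℚ) ^ (n + 1) * ES (n + 1) = 125 ^ (n + 1) * VS (n + 1) ^ 2 ∧
      (128 : ℚ) ^ (n + 2) * ES (n + 2) = 125 ^ (n + 2) * VS (n + 2) ^ 2 := by
    intro n
    induction n with
    | zero =>
      refine ⟨by rw [ES_zero, VS_zero]; norm_num, ?_, ?_⟩
      · rw [zero_add, ES_one, VS_one]
        norm_num
      · rw [zero_add]
        exact ES_two
    | succ n ih =>
      obtain ⟨i0, i1, i2⟩ := ih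
      refine ⟨i1, i2, ?_⟩
      have h1 := VS_rec' n
      have h2 := VS_rec' (n + 1)
      have h3 := ES_rec n
      push_cast at h2
      rw [show n + 1 + 2 = n + 3 by ring] at h2 ⊢
      rw [show n + 1 + 1 = n + 2 by ring] at h2
      rw [h3, h2]
      have e1 : (128 : ℚ) ^ (n + 1) = 128 ^ n * 128 := pow_succ _ _
      have e2 : (128 : ℚ) ^ (n + 2) = 128 ^ n * 128 ^ 2 := pow_add _ _ _
      have e3 : (128 : ℚ) ^ (n + 3) = 128 ^ n * 128 ^ 3 := pow_add _ _ _
      have f1 : (125 : ℚ) ^ (n + 1) = 125 ^ n * 125 := pow_succ _ _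
      have f2 : (125 : ℚ) ^ (n + 2) = 125 ^ n * 125 ^ 2 := pow_add _ _ _
      have f3 : (125 : ℚ) ^ (n + 3) = 125 ^ n * 125 ^ 3 := pow_add _ _ _
      rw [e1, f1] at i1
      rw [e2, f2] at i2
      rw [e3, f3]
      have hg : (27 : ℚ) / 62500 * gE n * VS n = 253 / 250 * VS (n + 1) - VS (n + 2) := by
        linear_combination h1
      have hz : zE = -(9 / 64000) := rfl
      rw [hz]
      set g := gE n
      set g' := gE (n + 1)
      set v0 := VS n
      set v1 := VS (n + 1)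
      set v2 := VS (n + 2)
      linear_combination (128 * (1 - -(9 / 64000) + 3 * g' * -(9 / 64000))) * i2
        + (128 ^ 2 * (3 * g' * -(9 / 64000) * (1 - -(9 / 64000) + 3 * g' * -(9 / 64000)))) * i1
        - (128 ^ 3 * (27 * g' * g ^ 2 * (-(9 / 64000)) ^ 3)) * i0
        + (125 ^ n * 125 ^ 3 * (27 / 62500 * g') *
          (27 / 62500 * g * v0 + 253 / 250 * v1 - v2)) * hg
  exact (key n).1

end Pool.Agent.Q278.VX
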