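import Pool.Agent.Q278.SX.E

/-!
# Products over a full period modulo `p²`
-/

set_option autoImplicit false

namespace Pool.Agent.Q278.VX

open Finset Pool.Agent.Q267.CDE Q278.PI Pool.Agent.Q278.YC Pool.Agent.Q278.SX

variable {p : ℕ} [hp : Fact p.Prime]

theorem D_zero : D p 0 = 0 := by simp [D]

theorem D_step (m r : ℕ) (h : (m + 1) + (r + 1) = p) :
    (p : R p) * (((m + 1 : ℕ) : R p))⁻¹ = -(p * (((r + 1 : ℕ) : R p))⁻¹) := by
  obtain ⟨-, h5⟩ := inv_shift p m (by omega) 0
  obtain ⟨-, h6⟩ := inv_shift p r (by omega) 0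
  have h4 := congrArg (Nat.cast : ℕ → R p) h
  push_cast at h4 h5 h6 ⊢
  have hpp := p_sq p
  set v := ((m : R p) + 1)⁻¹
  set w := ((r : R p) + 1)⁻¹
  linear_combination (-p * w) * h5 + p * w * v * h4 - p * v * h6 + w * v * hpp

theorem D_diff (r : ℕ) (hr : r ≤ p - 1) :
    (p : R p) * D p (p - 1 - r) - p * D p r = p * D p (p - 1) := by
  induction r with
  | zero => rw [D_zero, Nat.sub_zero]; ring
  | succ r ih =>
    have ih := ih (by omega)
    have h2p := hp.out.two_le
    obtain ⟨m, hm⟩ : ∃ m, p - 1 - (r + 1) = m := ⟨_, rfl⟩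
    rw [show p - 1 - r = m + 1 by omega, D_succ] at ih
    rw [hm, D_succ]
    have h1 := D_step (p := p) m r (by omega)
    linear_combination ih - h1

theorem unit_two (h2 : p ≠ 2) : IsUnit (2 : R p) := by
  have h2p := hp.out.two_le
  have := isUnit_nat p 2 (by norm_num) (by omega)
  exact_mod_cast this

theorem D_end (h2 : p ≠ 2) : (p : R p) * D p (p - 1) = 0 := by
  have h := D_diff (p := p) (p - 1) le_rfl
  rw [Nat.sub_self, D_zero, mul_zero, zero_sub] at h
  apply (unit_two h2).mul_left_cancel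
  linear_combination -h

theorem D_all (h2 : p ≠ 2) (j r : ℕ) (h : j + r = p - 1) : (p : R p) * D p j = p * D p r := by
  have h1 := D_diff (p := p) r (by omega)
  rw [D_end h2, show p - 1 - r = j by omega] at h1
  linear_combination h1

theorem one_mul_inv : (1 : R p) * 1 = 1 := by ring

/-- splitting `(p-1)!` -/
theorem fact_split (r : ℕ) (hr : r < p) : (((p - 1).factorial : ℕ) : R p) * (1 + p * D p r) =
    (-1) ^ r * (r.factorial : R p) * ((p - 1 - r).factorial : R p) := by
  have h2p := hp.out.two_le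
  obtain ⟨m, hm⟩ : ∃ m, p - 1 - r = m := ⟨_, rfl⟩
  have h1 := fact_add (p := p) m r
  rw [show m + r = p - 1 by omega] at h1
  have h2 : ∏ j ∈ range r, ((m : R p) + 1 + j) = ∏ i ∈ range r, ((-1) * ((i : R p) + 1) + p * 1) := by
    rw [← prod_range_reflect]
    refine prod_congr rfl fun i hi => ?_
    rw [mem_range] at hi
    have h3 : m + 1 + (r - 1 - i) + (i + 1) = p := by omega
    have h4 := congrArg (Nat.cast : ℕ → R p) h3
    push_cast at h4
    linear_combination h4
  have h3 := prod_shift0 p (-1) (-1) 1 (by ring) r hr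
  have hpp := p_sq p
  rw [hm, h1, h2, h3]
  linear_combination ((-1) ^ r * (r.factorial : R p) * (m.factorial : R p) * (-(D p r) ^ 2)) * hpp

/-- the product over a period without its root -/
def rootW (a b : ℤ) (p r : ℕ) : ℤ :=
  (∏ i ∈ range r, (a * i + b)) * ∏ i ∈ range (p - 1 - r), (a * ((r + 1 + i : ℕ) : ℤ) + b)

theorem root_prod (a b u : ℤ) (p r : ℕ) (hr : r < p) (h : a * r + b = u * p) :
    ∏ i ∈ range p, (a * i + b) = u * p * rootW a b p r := by
  conv_lhs => rw [show p = r + (1 + (p - 1 - r)) by omega]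
  rw [prod_range_add, prod_range_add, prod_range_one]
  unfold rootW
  have e : ∏ i ∈ range (p - 1 - r), (a * ((r + (1 + i) : ℕ) : ℤ) + b) =
      ∏ i ∈ range (p - 1 - r), (a * ((r + 1 + i : ℕ) : ℤ) + b) :=
    prod_congr rfl fun i _ => by rw [← add_assoc]
  rw [e, add_zero, h]
  ring

theorem rootW_res (h2 : p ≠ 2) (a b u : ℤ) (r : ℕ) (hr : r < p) (h : a * r + b = u * p)
    (ha : ¬ (p : ℤ) ∣ a) : ((rootW a b p r : ℤ) : R p) =
      (a : R p) ^ (p - 1) * (((p - 1).factorial : ℕ) : R p) * (1 + p * D p r) := by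
  have h2p := hp.out.two_le
  have h' := congrArg (Int.cast : ℤ → R p) h
  push_cast at h'
  have hu := mul_inv_R p (isUnit_int p a ha)
  set a' := ((a : ℤ) : R p)⁻¹
  have e1 : ∏ i ∈ range r, ((a : R p) * (i : R p) + b) =
      ∏ i ∈ range r, ((-(a : R p)) * ((i : R p) + 1) + p * u) := by
    rw [← prod_range_reflect]
    refine prod_congr rfl fun i hi => ?_
    rw [mem_range] at hi
    have h3 : (r - 1 - i) + (i + 1) = r := by omega
    have h4 := congrArg (Nat.cast : ℕ → R p) h3
    push_cast at h4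
    linear_combination h' + (a : R p) * h4
  have e2 : ∏ i ∈ range (p - 1 - r), ((a : R p) * (((r + 1 + i : ℕ) : ℤ) : R p) + b) =
      ∏ i ∈ range (p - 1 - r), ((a : R p) * ((i : R p) + 1) + p * u) := by
    refine prod_congr rfl fun i _ => ?_
    push_cast
    linear_combination h'
  have f1 := prod_shift0 p (-(a : R p)) (-a') u (by linear_combination hu) r hr
  have f2 := prod_shift0 p (a : R p) a' u hu (p - 1 - r) (by omega)
  have f3 := fact_split (p := p) r hr
  have f4 := D_all (p := p) h2 (p - 1 - r) r (by omega)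
  have hpp := p_sq p
  unfold rootW
  push_cast at e1 e2 ⊢
  rw [e1, e2, f1, f2, mul_assoc ((a : R p) ^ (p - 1)), f3]
  have hp1 : (a : R p) ^ (p - 1) = (a : R p) ^ r * (a : R p) ^ (p - 1 - r) := by
    rw [← pow_add]
    congr 1
    omega
  have hneg : (-(a : R p)) ^ r = (-1) ^ r * (a : R p) ^ r := by rw [← mul_pow]; ring
  rw [hp1, hneg]
  set A := (a : R p) ^ r
  set B := (a : R p) ^ (p - 1 - r)
  set F1 := ((r.factorial : ℕ) : R p)
  set F2 := (((p - 1 - r).factorial : ℕ) : R p)
  set s := ((-1 : R p)) ^ r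
  linear_combination (s * A * B * F1 * F2 * (u * a')) * f4
    + (s * A * B * F1 * F2 * (-(u * a') ^ 2 * D p r * D p (p - 1 - r))) * hpp

theorem fact_unit : IsUnit (((p - 1).factorial : ℕ) : R p) :=
  unit_fact p _ (by have := hp.out.two_le; omega)

theorem rootW_unit (h2 : p ≠ 2) (a b u : ℤ) (r : ℕ) (hr : r < p) (h : a * r + b = u * p)
    (ha : ¬ (p : ℤ) ∣ a) : ¬ (p : ℤ) ∣ rootW a b p r := by
  intro hd
  have h1 := rootW_res h2 a b u r hr h ha
  have h3 := congrArg (red p) h1
  rw [map_mul, map_mul, map_pow, red_int, (ZMod.intCast_zmod_eq_zero_iff_dvd _ _).2 hd, red_int,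
    map_add, map_one, map_mul, red_nat p p, CharP.cast_eq_zero (ZMod p) p, zero_mul, add_zero,
    mul_one] at h3
  have ha' : ((a : ℤ) : ZMod p) ≠ 0 := by
    rw [Ne, ZMod.intCast_zmod_eq_zero_iff_dvd]
    exact ha
  have hf : red p (((p - 1).factorial : ℕ) : R p) ≠ 0 := (fact_unit.map (red p)).ne_zero
  exact mul_ne_zero (pow_ne_zero _ ha') hf h3.symm

end Pool.Agent.Q278.VX
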