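import Pool.Agent.Q278.VX.D

/-!
# Harmonic sums and Fermat quotients modulo `p²`
-/

set_option autoImplicit false

namespace Pool.Agent.Q278.VX

open Finset Pool.Agent.Q267.CDE Q278.PI Pool.Agent.Q278.YC Pool.Agent.Q278.SX

variable {p : ℕ} [hp : Fact p.Prime] {r : ℕ}

theorem prod_double (n : ℕ) : (∏ i ∈ range n, (2 * (i : ℤ) + 1)) * ∏ i ∈ range n, (2 * (i : ℤ) + 2) =
    ∏ i ∈ range (2 * n), ((i : ℤ) + 1) := by
  induction n with
  | zero => simp
  | succ n ih =>
    rw [show 2 * (n + 1) = 2 * n + 1 + 1 by ring, prod_range_succ, prod_range_succ, prod_range_succ,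
      prod_range_succ, ← ih]
    push_cast
    ring

theorem prod_triple (n : ℕ) : (∏ i ∈ range n, (3 * (i : ℤ) + 1)) * (∏ i ∈ range n, (3 * (i : ℤ) + 2)) *
    ∏ i ∈ range n, (3 * (i : ℤ) + 3) = ∏ i ∈ range (3 * n), ((i : ℤ) + 1) := by
  induction n with
  | zero => simp
  | succ n ih =>
    rw [show 3 * (n + 1) = 3 * n + 1 + 1 + 1 by ring, prod_range_succ, prod_range_succ,
      prod_range_succ, prod_range_succ, prod_range_succ, prod_range_succ, ← ih]
    push_cast
    ring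

theorem cast_pred : (((p - 1 : ℕ) : ℤ)) = (p : ℤ) - 1 := by
  have := hp.out.one_le
  push_cast [Nat.cast_sub this]
  ring

theorem harm_two (h2 : p ≠ 2) (s : ℕ) (hs : 2 * s + 1 = p) (q : R p) (hq : (2 : R p) ^ (p - 1) = 1 + p * q) :
    (p : R p) * D p s = -(p * (2 * q)) := by
  have h2p := hp.out.two_le
  have hp0 : (p : ℤ) ≠ 0 := by exact_mod_cast hp.out.ne_zero
  have hc := cast_pred (p := p)
  have hn2 : ¬ (p : ℤ) ∣ 2 := not_dvd_small 2 (by norm_num) (by omega) (by omega)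
  have hn1 : ¬ (p : ℤ) ∣ 1 := not_dvd_small 1 (by norm_num) (by omega) (by omega)
  have hs' : 2 * (s : ℤ) + 1 = 1 * p := by rw [← hs]; push_cast; ring
  have e1 : 2 * ((p - 1 : ℕ) : ℤ) + 2 = 2 * p := by rw [hc]; ring
  have e2 : 1 * ((p - 1 : ℕ) : ℤ) + 1 = 1 * p := by rw [hc]; ring
  have e3 : 1 * ((p - 1 : ℕ) : ℤ) + (p + 1) = 2 * p := by rw [hc]; ring
  have A1 := root_prod 2 1 1 p s (by omega) hs'
  have A2 := root_prod 2 2 2 p (p - 1) (by omega) e1
  have A3 := root_prod 1 1 1 p (p - 1) (by omega) e2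
  have A4 := root_prod 1 (p + 1) 2 p (p - 1) (by omega) e3
  have B1 := rootW_res h2 2 1 1 s (by omega) hs' hn2
  have B2 := rootW_res h2 2 2 2 (p - 1) (by omega) e1 hn2
  have B3 := rootW_res h2 1 1 1 (p - 1) (by omega) e2 hn1
  have B4 := rootW_res h2 1 (p + 1) 2 (p - 1) (by omega) e3 hn1
  have h := prod_double p
  have hsplit : ∏ i ∈ range (2 * p), ((i : ℤ) + 1) =
      (∏ i ∈ range p, (1 * (i : ℤ) + 1)) * ∏ i ∈ range p, (1 * (i : ℤ) + (p + 1)) := by
    rw [two_mul, prod_range_add]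
    congr 1
    · exact prod_congr rfl fun i _ => by ring
    · exact prod_congr rfl fun i _ => by push_cast; ring
  rw [hsplit, A1, A2, A3, A4] at h
  have key : rootW 2 1 p s * rootW 2 2 p (p - 1) =
      rootW 1 1 p (p - 1) * rootW 1 (p + 1) p (p - 1) := by
    have h0 : (2 * (p : ℤ) * p) ≠ 0 := mul_ne_zero (mul_ne_zero (by norm_num) hp0) hp0
    apply mul_left_cancel₀ h0
    linear_combination h
  have key' := congrArg (Int.cast : ℤ → R p) key
  push_cast at key' B1 B2 B3 B4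
  rw [B1, B2, B3, B4, D_end h2, hq] at key'
  have hu := (fact_unit (p := p)).pow 2
  have hpp := p_sq p
  apply hu.mul_left_cancel
  set w := (((p - 1).factorial : ℕ) : R p)
  rw [one_pow] at key'
  linear_combination key' - (w ^ 2 * (q ^ 2 + 2 * q * D p s + p * q ^ 2 * D p s)) * hpp

theorem harm_three (h2 : p ≠ 2) (h3 : p ≠ 3) (s t : ℕ) (hs : 3 * s + 1 = p) (ht : 3 * t + 2 = 2 * p)
    (q : R p) (hq : (3 : R p) ^ (p - 1) = 1 + p * q) :
    (p : R p) * (2 * D p s) = -(p * (3 * q)) := by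
  have h2p := hp.out.two_le
  have hp5 : 3 < p := by omega
  have hp0 : (p : ℤ) ≠ 0 := by exact_mod_cast hp.out.ne_zero
  have hc := cast_pred (p := p)
  have hn3 : ¬ (p : ℤ) ∣ 3 := not_dvd_small 3 (by norm_num) (by omega) (by omega)
  have hn1 : ¬ (p : ℤ) ∣ 1 := not_dvd_small 1 (by norm_num) (by omega) (by omega)
  have hs' : 3 * (s : ℤ) + 1 = 1 * p := by rw [← hs]; push_cast; ring
  have ht' : 3 * (t : ℤ) + 2 = 2 * p := by exact_mod_cast ht
  have e1 : 3 * ((p - 1 : ℕ) : ℤ) + 3 = 3 * p := by rw [hc]; ring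
  have e2 : 1 * ((p - 1 : ℕ) : ℤ) + 1 = 1 * p := by rw [hc]; ring
  have e3 : 1 * ((p - 1 : ℕ) : ℤ) + (p + 1) = 2 * p := by rw [hc]; ring
  have e4 : 1 * ((p - 1 : ℕ) : ℤ) + (2 * p + 1) = 3 * p := by rw [hc]; ring
  have A0 := root_prod 3 1 1 p s (by omega) hs'
  have A1 := root_prod 3 2 2 p t (by omega) ht'
  have A2 := root_prod 3 3 3 p (p - 1) (by omega) e1
  have A3 := root_prod 1 1 1 p (p - 1) (by omega) e2
  have A4 := root_prod 1 (p + 1) 2 p (p - 1) (by omega) e3
  have A5 := root_prod 1 (2 * p + 1) 3 p (p - 1) (by omega) e4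
  have B0 := rootW_res h2 3 1 1 s (by omega) hs' hn3
  have B1 := rootW_res h2 3 2 2 t (by omega) ht' hn3
  have B2 := rootW_res h2 3 3 3 (p - 1) (by omega) e1 hn3
  have B3 := rootW_res h2 1 1 1 (p - 1) (by omega) e2 hn1
  have B4 := rootW_res h2 1 (p + 1) 2 (p - 1) (by omega) e3 hn1
  have B5 := rootW_res h2 1 (2 * p + 1) 3 (p - 1) (by omega) e4 hn1
  have h := prod_triple p
  have hsplit : ∏ i ∈ range (3 * p), ((i : ℤ) + 1) =
      (∏ i ∈ range p, (1 * (i : ℤ) + 1)) * (∏ i ∈ range p, (1 * (i : ℤ) + (p + 1))) *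
        ∏ i ∈ range p, (1 * (i : ℤ) + (2 * p + 1)) := by
    rw [show 3 * p = p + p + p by ring, prod_range_add, prod_range_add]
    congr 1
    · congr 1
      · exact prod_congr rfl fun i _ => by ring
      · exact prod_congr rfl fun i _ => by push_cast; ring
    · exact prod_congr rfl fun i _ => by push_cast; ring
  rw [hsplit, A0, A1, A2, A3, A4, A5] at h
  have key : rootW 3 1 p s * rootW 3 2 p t * rootW 3 3 p (p - 1) =
      rootW 1 1 p (p - 1) * rootW 1 (p + 1) p (p - 1) * rootW 1 (2 * p + 1) p (p - 1) := by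
    have h0 : (6 * (p : ℤ) * p * p) ≠ 0 := mul_ne_zero (mul_ne_zero (mul_ne_zero (by norm_num) hp0) hp0) hp0
    apply mul_left_cancel₀ h0
    linear_combination h
  have key' := congrArg (Int.cast : ℤ → R p) key
  have hD : (p : R p) * D p t = p * D p s := D_all h2 t s (by omega)
  push_cast at key' B0 B1 B2 B3 B4 B5
  rw [B0, B1, B2, B3, B4, B5, D_end h2, hD, hq] at key'
  have hu := (fact_unit (p := p)).pow 3
  have hpp := p_sq p
  apply hu.mul_left_cancel
  set w := (((p - 1).factorial : ℕ) : R p)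
  rw [one_pow] at key'
  set d := D p s
  linear_combination key' - (w ^ 3 * (3 * q ^ 2 + p * q ^ 3 + d ^ 2 + 6 * q * d + 6 * p * q ^ 2 * d +
    2 * p ^ 2 * q ^ 3 * d + 3 * p * q * d ^ 2 + 3 * p ^ 2 * q ^ 2 * d ^ 2 + p ^ 3 * q ^ 3 * d ^ 2)) * hpp

/-- `H_r = H_{2r} + H_{3r}` modulo `p` -/
theorem harm_six (hr : p = 6 * r + 1) : (p : R p) * D p r = p * D p (2 * r) + p * D p (3 * r) := by
  have h2p := hp.out.two_le
  have key : ∀ n : ℕ, n ≤ r → 2 * ((p : R p) * D p (2 * n)) =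
      p * D p n - p * D p (3 * r) + p * D p (3 * r - n) := by
    intro n
    induction n with
    | zero => intro _; rw [mul_zero, D_zero, Nat.sub_zero]; ring
    | succ n ih =>
      intro hn
      have ih := ih (by omega)
      obtain ⟨k, hk⟩ : ∃ k, 3 * r - n = k + 1 := ⟨3 * r - n - 1, by omega⟩
      rw [hk, D_succ] at ih
      rw [show 3 * r - (n + 1) = k by omega, show 2 * (n + 1) = 2 * n + 1 + 1 by ring, D_succ, D_succ,
        D_succ]
      obtain ⟨-, h5⟩ := inv_shift p n (by omega) 0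
      obtain ⟨-, h6⟩ := inv_shift p k (by omega) 0
      obtain ⟨-, h7⟩ := inv_shift p (2 * n) (by omega) 0
      obtain ⟨-, h8⟩ := inv_shift p (2 * n + 1) (by omega) 0
      have h4 : (2 * n + 1) + 2 * (k + 1) = p := by omega
      have h4' := congrArg (Nat.cast : ℕ → R p) h4
      push_cast at h4' h5 h6 h7 h8 ih ⊢
      have hpp := p_sq p
      set v := ((n : R p) + 1)⁻¹
      set w := ((k : R p) + 1)⁻¹
      set x := (2 * (n : R p) + 1)⁻¹
      set y := (2 * (n : R p) + 1 + 1)⁻¹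
      have a1 : (p : R p) * (2 * x) = -(p * w) := by
        linear_combination (p * w * x) * h4' - p * w * h7 - (2 * p * x) * h6 + w * x * hpp
      have a2 : 2 * y = v := by
        linear_combination v * h8 - 2 * y * h5
      linear_combination ih + a1 + p * a2
  have h := key r le_rfl
  rw [show 3 * r - r = 2 * r by omega] at h
  linear_combination -h

end Pool.Agent.Q278.VX
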