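import Pool.Agent.Q278.VX.F

/-!
# First order data of the sum at `-1/8`
-/

set_option autoImplicit false

namespace Pool.Agent.Q278.VX

open Finset Pool.Agent.Q267.CDE Q278.PI Pool.Agent.Q278.YC Pool.Agent.Q278.SX

variable {p : ℕ} [hp : Fact p.Prime] {r : ℕ}

set_option maxHeartbeats 1000000 in
/-- **the sum at `-1/8` and its first derivatives** -/
theorem tdata (hr : p = 6 * r + 1) (y e q2 q3 : R p) (hy : 6 * y = 1) (he : 8 * e = 1)
    (hq2 : (2 : R p) ^ (p - 1) = 1 + p * q2) (hq3 : (3 : R p) ^ (p - 1) = 1 + p * q3) :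
    ∃ TA TB TC : R p, (∀ a b c d, Hs p (4 * y) (2 * y) (-e) a b c d =
      CC p r + p * (a * TA + b * TB + (c + d) * TC)) ∧
      (p : R p) * (TA + TB) = p * ((3 * q2 - 2 * q3) * CC p r) ∧
      (p : R p) * TC = p * ((q3 - D p (2 * r)) * CC p r) := by
  obtain ⟨z3, hz3⟩ := exists_z (p := p) hr
  have h2p := hp.out.two_le
  have hr0 : 0 < r := by omega
  have hpp := p_sq p
  have hcp : (p : R p) = 6 * r + 1 := castp hr
  obtain ⟨u2, u3, u5⟩ := unit_num (p := p) hr
  obtain ⟨TA, TB, TC, hT⟩ := aff p (4 * y) (2 * y) (-e)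
  set T0 := Hs p (4 * y) (2 * y) (-e) 0 0 0 0 with hT0
  set H := D p (2 * r) with hH
  set w := e ^ p with hw
  have e1 : T0 + p * (-10 * y * TA + 4 * y * TB) + (1 + p * D p (4 * r)) * (1 + p * D p (4 * r)) * w *
      (T0 + p * (-4 * y * TA + 10 * y * TB + 2 * TC)) =
      (1 + e) ^ p * (T0 + p * (-4 * y * TA + 10 * y * TB)) := by
    have h := G_split (p := p) (4 * r) (4 * r) (by omega) (4 * y) (2 * y) (-e) (-4 * y) (10 * y)
      (by push_cast; rw [hcp]; linear_combination (-4 * r : R p) * hy)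
      (by push_cast; rw [hcp]; linear_combination (2 + 10 * r : R p) * hy)
    rw [← Hs_bin p (4 * y) (2 * y) (-e) (-10 * y) (4 * y) (p + 4 * r) (4 * r)
      (by push_cast; rw [hcp]; linear_combination (-1 - 10 * r : R p) * hy)
      (by push_cast; rw [hcp]; linear_combination (1 + 4 * r : R p) * hy), neg_neg,
      show 4 * r + p = p + 4 * r by ring, choose_one (4 * r) (by omega), hT, hT] at h
    have h1 := euler (p + 4 * r) (4 * r) (by omega) e
    have h2 := Hs_G p (4 * y) (2 * y) (-e) (-4 * y) (10 * y) (4 * r) (p + 4 * r) (by omega)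
      (by push_cast; rw [hcp]; linear_combination (-4 * r : R p) * hy)
      (by push_cast; rw [hcp]; linear_combination (2 + 10 * r : R p) * hy)
    rw [neg_neg, hT] at h2
    rw [h, ← h2, Nat.add_sub_cancel] at h1
    linear_combination h1
  have hH4 : (p : R p) * D p (4 * r) = p * H := by
    have h := D_refl (p := p) hr r (by omega)
    rw [show 3 * r + r = 4 * r by ring, show 3 * r - r = 2 * r by omega] at h
    exact h
  have hT00 : T0 = CC p r := by
    rw [← FO_zero hr z3 hz3]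
    unfold FO
    rw [map_sum]
    refine (sum_congr rfl fun k hk => ?_).symm
    rw [mem_range] at hk
    refine tm_PO _ _ (4 * y) (2 * y) (-e) 0 0 0 0 (fun i hi => ?_) (fun i _ => ?_) k hk
    · have := dF_nd (p := p) hr i hi 0
      rwa [zero_mul] at this
    · unfold nF dF
      push_cast
      linear_combination (-9 * ((i : R p) + 1) ^ 2 * (4 * y + i) * (2 * y + i)) * he
        - ((i : R p) + 1) ^ 2 * (2 * (6 * y + 1) + 9 * i) * hy
  have f1 : res2 p (FO p p) = T0 + p * (-2 * y * TA - 2 * y * TB - y * TC) := by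
    have h : res2 p (FO p p) = Hs p (4 * y) (2 * y) (-e) (-2 * y) (-2 * y) (-y) 0 := by
      unfold FO
      rw [map_sum]
      refine sum_congr rfl fun k hk => ?_
      rw [mem_range] at hk
      refine tm_PO _ _ (4 * y) (2 * y) (-e) _ _ _ 0 (fun i hi => ?_) (fun i _ => ?_) k hk
      · have := dF_nd (p := p) hr i hi 1
        rwa [one_mul] at this
      · unfold nF dF
        push_cast
        set a := (i : R p) + 1
        set A := 4 * y + (i : R p) + p * (-2 * y)
        set B := 2 * y + (i : R p) + p * (-2 * y)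
        linear_combination (-9 * a * (a - p * y) * A * B) * he + (-12 * e * a * A * B * p
          - a * (a - p * y) * (3 * B * (2 - p) + 3 * A * (1 - p))
          + a * (a - p * y) * (6 * y - 1) * (1 - p) * (2 - p)) * hy
    rw [h, hT]
    ring
  obtain ⟨κ, e', hκ, hk, hF⟩ := FO_first hr z3 hz3 y hy
  have hκq : (p : R p) * (2 * e') + p * (2 * q2) = p * q3 := by
    have h1 : (27 : R p) ^ r * 27 ^ r = 3 ^ (p - 1) := by
      rw [← mul_pow, show p - 1 = 6 * r by omega, pow_mul]
      norm_num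
    have h2 : (-64 : R p) ^ r * (-64) ^ r = 2 ^ (p - 1) * 2 ^ (p - 1) := by
      rw [← mul_pow, ← mul_pow, show p - 1 = 6 * r by omega, pow_mul]
      norm_num
    rw [← hk] at h1
    rw [hq3] at h1
    rw [hq2] at h2
    have h3 : κ ^ 2 * (1 + p * q2) ^ 2 = 1 + p * q3 := by
      linear_combination h1 - κ ^ 2 * h2
    rw [hκ] at h3
    linear_combination h3 - (e' ^ 2 * (1 + p * q2) ^ 2 + 4 * e' * q2 + q2 ^ 2 + 2 * p * e' * q2 ^ 2) * hpp
  have hw1 : w = e * (1 - p * (3 * q2)) := by
    have h1 : (8 : R p) ^ p * w = 1 := by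
      rw [hw, ← mul_pow, he, one_pow]
    have h2 : (8 : R p) ^ p = 8 * (1 + p * q2) ^ 3 := by
      rw [← hq2, ← pow_mul, mul_comm (p - 1) 3, pow_mul, show (2 : R p) ^ 3 = 8 by norm_num,
        ← pow_succ', show p - 1 + 1 = p by omega]
    rw [h2] at h1
    have h3 : (8 * (1 + p * q2) ^ 3) * (e * (1 - p * (3 * q2))) = 1 := by
      linear_combination (1 + p * q2) ^ 3 * (1 - p * (3 * q2)) * he
        + (-6 * q2 ^ 2 - 8 * p * q2 ^ 3 - 3 * p ^ 2 * q2 ^ 4) * hpp
    linear_combination (-w) * h3 + (e * (1 - p * (3 * q2))) * h1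
  have hw2 : (1 + e) ^ p = 9 * e * (1 + p * (2 * q3 - 3 * q2)) := by
    have h1 : (1 + e) ^ p = 9 ^ p * w := by
      rw [hw, ← mul_pow]
      congr 1
      linear_combination -he
    have h2 : (9 : R p) ^ p = 9 * (1 + p * q3) ^ 2 := by
      rw [← hq3, ← pow_mul, mul_comm (p - 1) 2, pow_mul, show (3 : R p) ^ 2 = 9 by norm_num,
        ← pow_succ', show p - 1 + 1 = p by omega]
    rw [h1, h2, hw1]
    linear_combination (9 * e * (q3 ^ 2 * (1 - p * (3 * q2)) - 6 * q2 * q3)) * hpp
  -- final linear algebra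
  have hFF : (p : R p) * ((6 * e' + H) * T0 + 2 * (TA + TB) + TC) = 0 := by
    rw [hκ, ← hT00] at hF
    linear_combination 6 * f1 - 6 * hF - (6 * e' * y * H * T0) * hpp
      - (p * H * T0 + 2 * p * (TA + TB) + p * TC) * hy
  have hF2 : (p : R p) * ((3 * q3 - 6 * q2 + H) * T0 + 2 * (TA + TB) + TC) = 0 := by
    linear_combination hFF - 3 * T0 * hκq
  have hE : (p : R p) * (-8 * (TA + TB) + 2 * TC + (2 * H + 24 * q2 - 18 * q3) * T0) = 0 := by
    rw [hw1, hw2, hH4] at e1
    set c1 := -4 * y * TA + 10 * y * TB + 2 * TC with hc1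
    set k := 2 * q3 - 3 * q2 with hk1
    set u := 2 * H with hu
    set v := -3 * q2 with hv
    linear_combination 8 * e1 + (8 * p * (TA + TB)) * hy
      - ((u + v) * c1 + (u * v + H ^ 2) * T0 + p * ((u * v + H ^ 2) * c1 + H ^ 2 * v * T0)
        + p ^ 2 * (H ^ 2 * v * c1) - 9 * k * (-4 * y * TA + 10 * y * TB)) * hpp
      - ((1 + p * H) ^ 2 * (1 - p * (3 * q2)) * (T0 + p * c1)
        - 9 * (1 + p * k) * (T0 + p * (-4 * y * TA + 10 * y * TB))) * he
  have hW : (p : R p) * (TA + TB + 2 * TC + (2 * H - 3 * q2) * T0) = 0 := by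
    apply (u2.mul u2).mul_left_cancel
    linear_combination hE + 6 * hF2
  refine ⟨TA, TB, TC, fun a b c d => ?_, ?_, ?_⟩
  · rw [hT, hT00]
  · rw [← hT00]
    apply u3.mul_left_cancel
    linear_combination 2 * hF2 - hW
  · rw [← hT00]
    apply u3.mul_left_cancel
    linear_combination 2 * hW - hF2

end Pool.Agent.Q278.VX
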