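import Pool.Agent.Q278.VX.G

/-!
# Splitting sums over several periods
-/

set_option autoImplicit false

namespace Pool.Agent.Q278.VX

open Finset Pool.Agent.Q267.CDE Q278.PI Pool.Agent.Q278.YC Pool.Agent.Q278.SX

variable {p : ℕ} [hp : Fact p.Prime] {r : ℕ}

theorem block_two (f : ℕ → ℚ) (a b : ℕ) : ∑ k ∈ range (a + b), ∏ i ∈ range k, f i =
    ∑ k ∈ range a, ∏ i ∈ range k, f i +
      (∏ i ∈ range a, f i) * ∑ k ∈ range b, ∏ i ∈ range k, f (a + i) := by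
  rw [sum_range_add, mul_sum]
  congr 1
  exact sum_congr rfl fun k _ => prod_range_add _ _ _

/-- sums over one period -/
noncomputable def SO (p : ℕ) [Fact p.Prime] (num den : ℕ → ℤ) : O p := ∑ k ∈ range p, PO p num den k

theorem SO_coe (num den : ℕ → ℤ) (h : ∀ i, i + 1 < p → ¬ (p : ℤ) ∣ den i) :
    ((SO p num den : O p) : ℚ) = ∑ k ∈ range p, ∏ i ∈ range k, ((num i : ℚ) / (den i : ℚ)) := by
  unfold SO
  rw [AddSubmonoidClass.coe_finsetSum]
  refine sum_congr rfl fun k hk => ?_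
  rw [mem_range] at hk
  rw [PO_coe p _ _ k fun i hi => h i (by omega)]

/-- one root of a linear factor in a period -/
structure RD (p : ℕ) (a b u : ℤ) (r : ℕ) : Prop where
  lt : r < p
  eq : a * r + b = u * p
  nd : ¬ (p : ℤ) ∣ a

theorem RD.prod {a b u : ℤ} {s : ℕ} (h : RD p a b u s) :
    ∏ i ∈ range p, (((a * i + b : ℤ)) : ℚ) = (u : ℚ) * p * ((rootW a b p s : ℤ) : ℚ) := by
  have h1 := root_prod a b u p s h.lt h.eq
  have h2 := congrArg (Int.cast : ℤ → ℚ) h1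
  push_cast at h2 ⊢
  exact h2

theorem RD.res {a b u : ℤ} {s : ℕ} (h2 : p ≠ 2) (h : RD p a b u s) :
    ((rootW a b p s : ℤ) : R p) =
      (a : R p) ^ (p - 1) * (((p - 1).factorial : ℕ) : R p) * (1 + p * D p s) :=
  rootW_res h2 a b u s h.lt h.eq h.nd

theorem RD.unit {a b u : ℤ} {s : ℕ} (h2 : p ≠ 2) (h : RD p a b u s) :
    ¬ (p : ℤ) ∣ rootW a b p s := rootW_unit h2 a b u s h.lt h.eq h.nd

theorem pow_nd {a : ℤ} (h : ¬ (p : ℤ) ∣ a) (n : ℕ) : ¬ (p : ℤ) ∣ a ^ n := by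
  intro h1
  exact h ((Nat.prime_iff_prime_int.1 hp.out).dvd_of_dvd_pow h1)

/-- **the product over a period of a quotient of four linear factors** -/
theorem tau2 (h2 : p ≠ 2) (num den : ℕ → ℤ) (n0 d0 C E a1 b1 u1 a2 b2 u2 a3 b3 u3 a4 b4 u4 : ℤ)
    (r1 r2 r3 r4 : ℕ) (R1 : RD p a1 b1 u1 r1) (R2 : RD p a2 b2 u2 r2) (R3 : RD p a3 b3 u3 r3)
    (R4 : RD p a4 b4 u4 r4) (hn : ∀ i, num i = n0 * ((a1 * i + b1) * (a2 * i + b2)))
    (hd : ∀ i, den i = d0 * ((a3 * i + b3) * (a4 * i + b4))) (hC : u1 * u2 * E = C * (u3 * u4))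
    (h3 : u3 ≠ 0) (h4 : u4 ≠ 0) (hE : ¬ (p : ℤ) ∣ E) (hd0 : ¬ (p : ℤ) ∣ d0) :
    ∃ τ : O p, (τ : ℚ) = ∏ i ∈ range p, ((num i : ℚ) / (den i : ℚ)) ∧
      res2 p τ * ((d0 : R p) ^ p * E * ((a3 : R p) ^ (p - 1) * (a4 : R p) ^ (p - 1)) *
        ((1 + p * D p r3) * (1 + p * D p r4))) =
      (n0 : R p) ^ p * C * ((a1 : R p) ^ (p - 1) * (a2 : R p) ^ (p - 1)) *
        ((1 + p * D p r1) * (1 + p * D p r2)) := by
  have hp0 : (p : ℚ) ≠ 0 := by exact_mod_cast hp.out.ne_zero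
  set W1 := rootW a1 b1 p r1
  set W2 := rootW a2 b2 p r2
  set W3 := rootW a3 b3 p r3
  set W4 := rootW a4 b4 p r4
  have hB : ¬ (p : ℤ) ∣ d0 ^ p * E * (W3 * W4) :=
    not_dvd_mul (not_dvd_mul (pow_nd hd0 p) hE) (not_dvd_mul (R3.unit h2) (R4.unit h2))
  refine ⟨((n0 ^ p * C * (W1 * W2) : ℤ) : O p) * invI p (d0 ^ p * E * (W3 * W4)), ?_, ?_⟩
  · have e0 : (((((n0 ^ p * C * (W1 * W2) : ℤ) : O p) * invI p (d0 ^ p * E * (W3 * W4)) : O p)) : ℚ) =
        ((n0 ^ p * C * (W1 * W2) : ℤ) : ℚ) * (((d0 ^ p * E * (W3 * W4) : ℤ)) : ℚ)⁻¹ := by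
      rw [← invI_coe p _ hB]
      rfl
    rw [e0, prod_div_distrib]
    have en : ∏ i ∈ range p, ((num i : ℤ) : ℚ) = (n0 : ℚ) ^ p * (((u1 : ℚ) * p * W1) *
        ((u2 : ℚ) * p * W2)) := by
      rw [← R1.prod, ← R2.prod, ← prod_mul_distrib, show (n0 : ℚ) ^ p = ∏ _i ∈ range p, (n0 : ℚ) by
        rw [prod_const, card_range], ← prod_mul_distrib]
      refine prod_congr rfl fun i _ => ?_
      rw [hn]
      push_cast
      ring
    have ed : ∏ i ∈ range p, ((den i : ℤ) : ℚ) = (d0 : ℚ) ^ p * (((u3 : ℚ) * p * W3) *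
        ((u4 : ℚ) * p * W4)) := by
      rw [← R3.prod, ← R4.prod, ← prod_mul_distrib, show (d0 : ℚ) ^ p = ∏ _i ∈ range p, (d0 : ℚ) by
        rw [prod_const, card_range], ← prod_mul_distrib]
      refine prod_congr rfl fun i _ => ?_
      rw [hd]
      push_cast
      ring
    rw [en, ed]
    have q1 : (d0 : ℚ) ≠ 0 := by
      intro h
      apply hd0
      have : d0 = 0 := by exact_mod_cast h
      rw [this]; exact dvd_zero _
    have q2 : (E : ℚ) ≠ 0 := by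
      intro h
      apply hE
      have : E = 0 := by exact_mod_cast h
      rw [this]; exact dvd_zero _
    have q3 : (W3 : ℚ) ≠ 0 := by
      intro h
      apply R3.unit h2
      have : W3 = 0 := by exact_mod_cast h
      show (p : ℤ) ∣ W3
      rw [this]; exact dvd_zero _
    have q4 : (W4 : ℚ) ≠ 0 := by
      intro h
      apply R4.unit h2
      have : W4 = 0 := by exact_mod_cast h
      show (p : ℤ) ∣ W4
      rw [this]; exact dvd_zero _
    have q5 : (u3 : ℚ) ≠ 0 := by exact_mod_cast h3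
    have q6 : (u4 : ℚ) ≠ 0 := by exact_mod_cast h4
    have hC' := congrArg (Int.cast : ℤ → ℚ) hC
    push_cast at hC' ⊢
    field_simp
    linear_combination (-((n0 : ℚ) ^ p * W1 * W2)) * hC'
  · have h5 := res2_invI p _ hB
    rw [map_mul, map_intCast]
    have w1 := R1.res h2
    have w2 := R2.res h2
    have w3 := R3.res h2
    have w4 := R4.res h2
    set v := res2 p (invI p (d0 ^ p * E * (W3 * W4)))
    push_cast at h5 ⊢
    have hu := (fact_unit (p := p)).pow 2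
    apply hu.mul_left_cancel
    change ((W1 : ℤ) : R p) = _ at w1
    change ((W2 : ℤ) : R p) = _ at w2
    change ((W3 : ℤ) : R p) = _ at w3
    change ((W4 : ℤ) : R p) = _ at w4
    set w := (((p - 1).factorial : ℕ) : R p)
    have k1 : w ^ 2 * ((a3 : R p) ^ (p - 1) * (a4 : R p) ^ (p - 1) *
        ((1 + p * D p r3) * (1 + p * D p r4))) = (W3 : R p) * W4 := by
      rw [w3, w4]; ring
    have k2 : w ^ 2 * ((a1 : R p) ^ (p - 1) * (a2 : R p) ^ (p - 1) *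
        ((1 + p * D p r1) * (1 + p * D p r2))) = (W1 : R p) * W2 := by
      rw [w1, w2]; ring
    linear_combination ((n0 : R p) ^ p * C * ((W1 : R p) * W2) * v * ((d0 : R p) ^ p * E)) * k1
      + ((n0 : R p) ^ p * C * ((W1 : R p) * W2)) * h5 - ((n0 : R p) ^ p * C) * k2

end Pool.Agent.Q278.VX
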