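import Pool.Agent.Q278.VX.H
import Pool.Agent.Q278.VX.C

/-!
# The terminating sums at `-1/8` and `-3/125` modulo `p²`
-/

set_option autoImplicit false

namespace Pool.Agent.Q278.VX

open Finset Pool.Agent.Q267.CDE Q278.PI Pool.Agent.Q278.YC Pool.Agent.Q278.SX

variable {p : ℕ} [hp : Fact p.Prime] {r : ℕ}

theorem SO_tm (num den : ℕ → ℤ) (α β z a b c d : R p) (X1 X2 X3 X4 : ℕ → R p)
    (n0 d0 s1 s2 s3 s4 : R p) (hnd : ∀ i, i + 1 < p → ¬ (p : ℤ) ∣ den i)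
    (hn : ∀ i, ((num i : ℤ) : R p) = n0 * (X1 i * X2 i))
    (hd : ∀ i, ((den i : ℤ) : R p) = d0 * (X3 i * X4 i))
    (h1 : ∀ i, X1 i = s1 * (α + i + p * a)) (h2 : ∀ i, X2 i = s2 * (β + i + p * b))
    (h3 : ∀ i, X3 i = s3 * ((i : R p) + 1 + p * c)) (h4 : ∀ i, X4 i = s4 * ((i : R p) + 1 + p * d))
    (hz : z * (d0 * (s3 * s4)) = n0 * (s1 * s2)) :
    res2 p (SO p num den) = Hs p α β z a b c d := by
  unfold SO Hs
  rw [map_sum]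
  refine sum_congr rfl fun k hk => ?_
  rw [mem_range] at hk
  refine tm_PO num den α β z a b c d hnd (fun i _ => ?_) k hk
  rw [hn, hd, h1, h2, h3, h4]
  linear_combination ((α + i + p * a) * (β + i + p * b) * ((i : R p) + 1 + p * c) *
    ((i : R p) + 1 + p * d)) * hz

theorem dT_nd (h5 : 5 < p) (M J : ℕ) (j k : ℤ) (hJ : (J : ℤ) = j * p)
    (hM : 2 * (J : ℤ) + 1 - 6 * M = 2 + k * p) (i : ℕ) (hi : i + 1 < p) :
    ¬ (p : ℤ) ∣ dT M ((J + i : ℕ) : ℤ) := by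
  unfold dT
  have n2 : ¬ (p : ℤ) ∣ 2 := not_dvd_small 2 (by norm_num) (by omega) (by omega)
  have n3 : ¬ (p : ℤ) ∣ 3 := not_dvd_small 3 (by norm_num) (by omega) (by omega)
  have ni : ¬ (p : ℤ) ∣ ((i : ℤ) + 1) := not_dvd_small _ (by omega) (by omega) (by omega)
  have e1 : 2 * ((J + i : ℕ) : ℤ) + 1 - 6 * M = 2 * ((i : ℤ) + 1) + k * p := by
    push_cast
    linear_combination hM
  have e2 : ((J + i : ℕ) : ℤ) + 1 = ((i : ℤ) + 1) + j * p := by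
    push_cast
    linear_combination hJ
  rw [e1, e2]
  have h12 := not_dvd_mul n2 (not_dvd_mul n2 n3)
  norm_num at h12
  exact not_dvd_mul h12 (not_dvd_mul (not_dvd_add (not_dvd_mul n2 ni) k) (not_dvd_add ni j))

theorem T_block (h5 : 5 < p) (M J : ℕ) (j k : ℤ) (y e a b c d : R p) (hJ : (J : ℤ) = j * p)
    (hM : 2 * (J : ℤ) + 1 - 6 * M = 2 + k * p) (he : 8 * e = 1)
    (h1 : 3 * (J : R p) + 1 - 6 * M = 3 * (4 * y + p * a))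
    (h2 : (J : R p) - 2 * M = 2 * y + p * b) (h3 : 2 * (J : R p) + 1 - 6 * M = 2 * (1 + p * c))
    (h4 : (J : R p) = p * d) :
    res2 p (SO p (fun i => nT M ((J + i : ℕ) : ℤ)) (fun i => dT M ((J + i : ℕ) : ℤ))) =
      Hs p (4 * y) (2 * y) (-e) a b c d := by
  refine SO_tm _ _ _ _ _ _ _ _ _ (fun i => 3 * ((J : R p) + i) + 1 - 6 * M)
    (fun i => (J : R p) + i - 2 * M) (fun i => 2 * ((J : R p) + i) + 1 - 6 * M)
    (fun i => (J : R p) + i + 1) (-1) 12 3 1 2 1 (fun i hi => dT_nd h5 M J j k hJ hM i hi)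
    (fun i => ?_) (fun i => ?_) (fun i => ?_) (fun i => ?_) (fun i => ?_) (fun i => ?_) ?_
  · unfold nT; push_cast; ring
  · unfold dT; push_cast; ring
  · linear_combination h1
  · linear_combination h2
  · linear_combination h3
  · linear_combination h4
  · linear_combination (-3 : R p) * he

theorem dV_nd (h5 : 5 < p) (M J : ℕ) (j k : ℤ) (hJ : (J : ℤ) = j * p)
    (hM : 3 * (J : ℤ) + 2 - 6 * M = 3 + k * p) (i : ℕ) (hi : i + 1 < p) :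
    ¬ (p : ℤ) ∣ dV M ((J + i : ℕ) : ℤ) := by
  unfold dV
  have n5 : ¬ (p : ℤ) ∣ 5 := not_dvd_small 5 (by norm_num) (by omega) (by omega)
  have n3 : ¬ (p : ℤ) ∣ 3 := not_dvd_small 3 (by norm_num) (by omega) (by omega)
  have ni : ¬ (p : ℤ) ∣ ((i : ℤ) + 1) := not_dvd_small _ (by omega) (by omega) (by omega)
  have e1 : 3 * ((J + i : ℕ) : ℤ) + 2 - 6 * M = 3 * ((i : ℤ) + 1) + k * p := by
    push_cast
    linear_combination hM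
  have e2 : ((J + i : ℕ) : ℤ) + 1 = ((i : ℤ) + 1) + j * p := by
    push_cast
    linear_combination hJ
  rw [e1, e2]
  have h12 := not_dvd_mul n5 (not_dvd_mul n5 n5)
  norm_num at h12
  exact not_dvd_mul h12 (not_dvd_mul (not_dvd_add (not_dvd_mul n3 ni) k) (not_dvd_add ni j))

theorem V_block (h5 : 5 < p) (M J : ℕ) (j k : ℤ) (y z a b c d : R p) (hJ : (J : ℤ) = j * p)
    (hM : 3 * (J : ℤ) + 2 - 6 * M = 3 + k * p) (hz : 125 * z = -3)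
    (h1 : (J : R p) - M = y + p * a)
    (h2 : 3 * (J : R p) + 1 - 3 * M = 3 * (3 * y + p * b))
    (h3 : 3 * (J : R p) + 2 - 6 * M = 3 * (1 + p * c)) (h4 : (J : R p) = p * d) :
    res2 p (SO p (fun i => nV M ((J + i : ℕ) : ℤ)) (fun i => dV M ((J + i : ℕ) : ℤ))) =
      Hs p y (3 * y) z a b c d := by
  refine SO_tm _ _ _ _ _ _ _ _ _ (fun i => (J : R p) + i - M)
    (fun i => 3 * ((J : R p) + i) + 1 - 3 * M) (fun i => 3 * ((J : R p) + i) + 2 - 6 * M)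
    (fun i => (J : R p) + i + 1) (-3) 125 1 3 3 1 (fun i hi => dV_nd h5 M J j k hJ hM i hi)
    (fun i => ?_) (fun i => ?_) (fun i => ?_) (fun i => ?_) (fun i => ?_) (fun i => ?_) ?_
  · unfold nV; push_cast; ring
  · unfold dV; push_cast; ring
  · linear_combination h1
  · linear_combination h2
  · linear_combination h3
  · linear_combination h4
  · linear_combination (3 : R p) * hz

/-- the sums over one period as rational numbers -/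
theorem T_coe (h5 : 5 < p) (M J : ℕ) (j k : ℤ) (hJ : (J : ℤ) = j * p)
    (hM : 2 * (J : ℤ) + 1 - 6 * M = 2 + k * p) :
    ((SO p (fun i => nT M ((J + i : ℕ) : ℤ)) (fun i => dT M ((J + i : ℕ) : ℤ)) : O p) : ℚ) =
      ∑ l ∈ range p, ∏ i ∈ range l, (((nT M ((J + i : ℕ) : ℤ) : ℤ) : ℚ) /
        ((dT M ((J + i : ℕ) : ℤ) : ℤ) : ℚ)) :=
  SO_coe _ _ fun i hi => dT_nd h5 M J j k hJ hM i hi

theorem V_coe (h5 : 5 < p) (M J : ℕ) (j k : ℤ) (hJ : (J : ℤ) = j * p)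
    (hM : 3 * (J : ℤ) + 2 - 6 * M = 3 + k * p) :
    ((SO p (fun i => nV M ((J + i : ℕ) : ℤ)) (fun i => dV M ((J + i : ℕ) : ℤ)) : O p) : ℚ) =
      ∑ l ∈ range p, ∏ i ∈ range l, (((nV M ((J + i : ℕ) : ℤ) : ℤ) : ℚ) /
        ((dV M ((J + i : ℕ) : ℤ) : ℤ) : ℚ)) :=
  SO_coe _ _ fun i hi => dV_nd h5 M J j k hJ hM i hi

theorem TS_two (M : ℕ) (hM : 2 * M < 2 * p) : TS M =
    ∑ l ∈ range p, ∏ i ∈ range l, (((nT M ((0 + i : ℕ) : ℤ) : ℤ) : ℚ) /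
        ((dT M ((0 + i : ℕ) : ℤ) : ℤ) : ℚ)) +
    (∏ i ∈ range p, (((nT M ((0 + i : ℕ) : ℤ) : ℤ) : ℚ) / ((dT M ((0 + i : ℕ) : ℤ) : ℤ) : ℚ))) *
      ∑ l ∈ range p, ∏ i ∈ range l, (((nT M ((p + i : ℕ) : ℤ) : ℤ) : ℚ) /
        ((dT M ((p + i : ℕ) : ℤ) : ℤ) : ℚ)) := by
  rw [← TS_eq M (p + p) (by omega)]
  unfold tT
  rw [block_two]
  simp only [zero_add]

theorem TS_three (M : ℕ) (hM : 2 * M < 3 * p) : TS M =
    ∑ l ∈ range p, ∏ i ∈ range l, (((nT M ((0 + i : ℕ) : ℤ) : ℤ) : ℚ) /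
        ((dT M ((0 + i : ℕ) : ℤ) : ℤ) : ℚ)) +
    (∏ i ∈ range p, (((nT M ((0 + i : ℕ) : ℤ) : ℤ) : ℚ) / ((dT M ((0 + i : ℕ) : ℤ) : ℤ) : ℚ))) *
      (∑ l ∈ range p, ∏ i ∈ range l, (((nT M ((p + i : ℕ) : ℤ) : ℤ) : ℚ) /
        ((dT M ((p + i : ℕ) : ℤ) : ℤ) : ℚ)) +
      (∏ i ∈ range p, (((nT M ((p + i : ℕ) : ℤ) : ℤ) : ℚ) / ((dT M ((p + i : ℕ) : ℤ) : ℤ) : ℚ))) *
      ∑ l ∈ range p, ∏ i ∈ range l, (((nT M ((p + p + i : ℕ) : ℤ) : ℤ) : ℚ) /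
        ((dT M ((p + p + i : ℕ) : ℤ) : ℤ) : ℚ))) := by
  rw [← TS_eq M (p + (p + p)) (by omega)]
  unfold tT
  rw [block_two, block_two]
  simp only [zero_add, add_assoc]

theorem VS_two' (M : ℕ) (hM : M < 2 * p) : VS M =
    ∑ l ∈ range p, ∏ i ∈ range l, (((nV M ((0 + i : ℕ) : ℤ) : ℤ) : ℚ) /
        ((dV M ((0 + i : ℕ) : ℤ) : ℤ) : ℚ)) +
    (∏ i ∈ range p, (((nV M ((0 + i : ℕ) : ℤ) : ℤ) : ℚ) / ((dV M ((0 + i : ℕ) : ℤ) : ℤ) : ℚ))) *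
      ∑ l ∈ range p, ∏ i ∈ range l, (((nV M ((p + i : ℕ) : ℤ) : ℤ) : ℚ) /
        ((dV M ((p + i : ℕ) : ℤ) : ℤ) : ℚ)) := by
  rw [← VS_eq M (p + p) (by omega)]
  unfold tV
  rw [block_two]
  simp only [zero_add]

theorem VS_one' (M : ℕ) (hM : M < p) : VS M =
    ∑ l ∈ range p, ∏ i ∈ range l, (((nV M ((0 + i : ℕ) : ℤ) : ℤ) : ℚ) /
        ((dV M ((0 + i : ℕ) : ℤ) : ℤ) : ℚ)) := by
  rw [← VS_eq M p hM]
  unfold tV
  simp only [zero_add]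

theorem TS_one' (M : ℕ) (hM : 2 * M < p) : TS M =
    ∑ l ∈ range p, ∏ i ∈ range l, (((nT M ((0 + i : ℕ) : ℤ) : ℤ) : ℚ) /
        ((dT M ((0 + i : ℕ) : ℤ) : ℤ) : ℚ)) := by
  rw [← TS_eq M p hM]
  unfold tT
  simp only [zero_add]

end Pool.Agent.Q278.VX
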