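import Pool.Agent.Q278.VX.I

/-!
# The sums with `p = 6 r + 1`
-/

set_option autoImplicit false

namespace Pool.Agent.Q278.VX

open Finset Pool.Agent.Q267.CDE Q278.PI Pool.Agent.Q278.YC Pool.Agent.Q278.SX

variable {p : ℕ} [hp : Fact p.Prime] {r : ℕ}

theorem pow_p (x : R p) : x ^ p = x * x ^ (p - 1) := by
  have h := hp.out.one_le
  rw [← pow_succ', Nat.sub_add_cancel h]

theorem solve1 (x D q2 q3 : R p) (u2 : IsUnit (1 + p * q2)) (u3 : IsUnit (1 + p * q3))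
    (h : x * ((1 + p * q2) ^ 3 * (1 + p * q3)) = (1 + p * q3) * ((1 + p * D) * (1 + p * D))) :
    x = 1 + p * (2 * D - 3 * q2) := by
  have hpp := p_sq p
  apply ((u2.pow 3).mul u3).mul_left_cancel
  linear_combination h + (D ^ 2 + 6 * q2 ^ 2 - 6 * D * q2 + 8 * p * q2 ^ 3 + 3 * p ^ 2 * q2 ^ 4 -
    6 * D * p * q2 ^ 2 - 2 * D * p ^ 2 * q2 ^ 3 + D ^ 2 * p * q3 + 6 * p * q2 ^ 2 * q3 +
    8 * p ^ 2 * q2 ^ 3 * q3 + 3 * p ^ 3 * q2 ^ 4 * q3 - 6 * D * p * q2 * q3 -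
    6 * D * p ^ 2 * q2 ^ 2 * q3 - 2 * D * p ^ 3 * q2 ^ 3 * q3) * hpp

theorem solve2 (x a b q3 q5 : R p) (u5 : IsUnit (1 + p * q5)) (u3 : IsUnit (1 + p * q3))
    (h : x * ((1 + p * q5) ^ 3 * (1 + p * q3)) = (1 + p * q3) * ((1 + p * a) * (1 + p * b))) :
    x = 1 + p * (a + b - 3 * q5) := by
  have hpp := p_sq p
  apply ((u5.pow 3).mul u3).mul_left_cancel
  linear_combination h + (6 * q5 ^ 2 + a * b - 3 * a * q5 - 3 * b * q5 + 8 * p * q5 ^ 3 +
    3 * p ^ 2 * q5 ^ 4 - 3 * a * p * q5 ^ 2 - a * p ^ 2 * q5 ^ 3 - 3 * b * p * q5 ^ 2 -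
    b * p ^ 2 * q5 ^ 3 + 6 * p * q3 * q5 ^ 2 + 8 * p ^ 2 * q3 * q5 ^ 3 + 3 * p ^ 3 * q3 * q5 ^ 4 +
    a * b * p * q3 - 3 * a * p * q3 * q5 - 3 * a * p ^ 2 * q3 * q5 ^ 2 - a * p ^ 3 * q3 * q5 ^ 3 -
    3 * b * p * q3 * q5 - 3 * b * p ^ 2 * q3 * q5 ^ 2 - b * p ^ 3 * q3 * q5 ^ 3) * hpp

theorem cp (hr : p = 6 * r + 1) : (p : ℤ) = 6 * r + 1 := by
  rw [hr]; push_cast; ring

theorem T_first (hr : p = 6 * r + 1) (y e : R p) (hy : 6 * y = 1) (he : 8 * e = 1) :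
    ∃ A : O p, (A : ℚ) = TS r ∧
      res2 p A = Hs p (4 * y) (2 * y) (-e) (-2 * y) (-2 * y) (-3 * y) 0 := by
  have h2p := hp.out.two_le
  have hr0 : 0 < r := by omega
  have hc := cp hr
  have hcp : (p : R p) = 6 * r + 1 := castp hr
  have hM : 2 * ((0 : ℕ) : ℤ) + 1 - 6 * r = 2 + (-1) * p := by rw [hc]; push_cast; ring
  refine ⟨SO p (fun i => nT r ((0 + i : ℕ) : ℤ)) (fun i => dT r ((0 + i : ℕ) : ℤ)), ?_, ?_⟩
  · rw [T_coe (by omega) r 0 0 (-1) (by simp) hM, ← TS_one' (p := p) r (by omega)]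
  · refine T_block (by omega) r 0 0 (-1) y e _ _ _ _ (by simp) hM he ?_ ?_ ?_ ?_
    · push_cast; linear_combination (p - 2 : R p) * hy + hcp
    · push_cast; linear_combination (2 * r : R p) * hy + 2 * y * hcp
    · push_cast; linear_combination (p : R p) * hy + hcp
    · push_cast; ring

theorem T_second (hr : p = 6 * r + 1) (y e q2 q3 : R p) (hy : 6 * y = 1) (he : 8 * e = 1)
    (hq2 : (2 : R p) ^ (p - 1) = 1 + p * q2) (hq3 : (3 : R p) ^ (p - 1) = 1 + p * q3) :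
    ∃ A : O p, ∃ τ τ' : R p, (A : ℚ) = TS (r + p) ∧
      res2 p A = Hs p (4 * y) (2 * y) (-e) (-14 * y) (-14 * y) (-21 * y) 0 +
        τ * (Hs p (4 * y) (2 * y) (-e) (1 - 14 * y) (1 - 14 * y) (1 - 21 * y) 1 +
          τ' * Hs p (4 * y) (2 * y) (-e) (2 - 14 * y) (2 - 14 * y) (2 - 21 * y) 2) ∧
      6 * τ = 1 + p * (2 * D p (2 * r) - 3 * q2) ∧ 36 * τ' = 1 + p * (2 * D p (2 * r) - 3 * q2) := by
  have h2p := hp.out.two_le
  have hr0 : 0 < r := by omega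
  have hc := cp hr
  have hcp : (p : R p) = 6 * r + 1 := castp hr
  have hp2 : p ≠ 2 := by omega
  have n2 : ¬ (p : ℤ) ∣ 2 := not_dvd_small 2 (by norm_num) (by omega) (by omega)
  have n3 : ¬ (p : ℤ) ∣ 3 := not_dvd_small 3 (by norm_num) (by omega) (by omega)
  have n1 : ¬ (p : ℤ) ∣ 1 := not_dvd_small 1 (by norm_num) (by omega) (by omega)
  have n12 : ¬ (p : ℤ) ∣ 12 := by
    have := not_dvd_mul n2 (not_dvd_mul n2 n3)
    norm_num at this
    exact this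
  obtain ⟨u2, u3, -⟩ := unit_num (p := p) hr
  have hpm := cast_pred (p := p)
  have hodd : Odd p := ⟨3 * r, by omega⟩
  have hend := D_end (p := p) hp2
  have hall := D_all (p := p) hp2 (4 * r) (2 * r) (by omega)
  have h12 : (12 : R p) ^ p = 12 * ((1 + p * q2) ^ 2 * (1 + p * q3)) := by
    rw [pow_p, ← hq2, ← hq3, show (12 : R p) = 2 * 2 * 3 by norm_num, mul_pow, mul_pow]
    ring
  have hU2 : IsUnit (1 + p * q2) := by rw [← hq2]; exact u2.pow _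
  have hU3 : IsUnit (1 + p * q3) := by rw [← hq3]; exact u3.pow _
  have hM0 : 2 * ((0 : ℕ) : ℤ) + 1 - 6 * ((r + p : ℕ) : ℤ) = 2 + (-7) * p := by
    push_cast; linear_combination hc
  have hM1 : 2 * ((p : ℕ) : ℤ) + 1 - 6 * ((r + p : ℕ) : ℤ) = 2 + (-5) * p := by
    push_cast; linear_combination hc
  have hM2 : 2 * ((p + p : ℕ) : ℤ) + 1 - 6 * ((r + p : ℕ) : ℤ) = 2 + (-3) * p := by
    push_cast; linear_combination hc
  obtain ⟨τ, hτ, hτr⟩ := tau2 hp2 (fun i => nT ((r + p : ℕ) : ℤ) ((0 + i : ℕ) : ℤ))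
    (fun i => dT ((r + p : ℕ) : ℤ) ((0 + i : ℕ) : ℤ)) (-1) 12 (-2) 1
    1 (-(2 * ((r + p : ℕ) : ℤ))) (-2) 3 (1 - 6 * ((r + p : ℕ) : ℤ)) (-5)
    2 (1 - 6 * ((r + p : ℕ) : ℤ)) (-5) 1 1 1 (2 * r) (4 * r) (p - 1) (p - 1)
    ⟨by omega, by push_cast; ring, n1⟩ ⟨by omega, by push_cast; linear_combination -hc, n3⟩
    ⟨by omega, by rw [hpm]; push_cast; linear_combination hc, n2⟩
    ⟨by omega, by rw [hpm]; ring, n1⟩
    (fun i => by unfold nT; push_cast; ring) (fun i => by unfold dT; push_cast; ring)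
    (by norm_num) (by norm_num) (by norm_num) n1 n12
  obtain ⟨τ', hτ', hτr'⟩ := tau2 hp2 (fun i => nT ((r + p : ℕ) : ℤ) ((p + i : ℕ) : ℤ))
    (fun i => dT ((r + p : ℕ) : ℤ) ((p + i : ℕ) : ℤ)) (-1) 12 (-1) 3
    1 (p - 2 * ((r + p : ℕ) : ℤ)) (-1) 3 (3 * p + 1 - 6 * ((r + p : ℕ) : ℤ)) (-2)
    2 (2 * p + 1 - 6 * ((r + p : ℕ) : ℤ)) (-3) 1 (p + 1) 2 (2 * r) (4 * r) (p - 1) (p - 1)
    ⟨by omega, by push_cast; ring, n1⟩ ⟨by omega, by push_cast; linear_combination -hc, n3⟩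
    ⟨by omega, by rw [hpm]; push_cast; linear_combination hc, n2⟩
    ⟨by omega, by rw [hpm]; ring, n1⟩
    (fun i => by unfold nT; push_cast; ring) (fun i => by unfold dT; push_cast; ring)
    (by norm_num) (by norm_num) (by norm_num) n3 n12
  refine ⟨SO p (fun i => nT ((r + p : ℕ) : ℤ) ((0 + i : ℕ) : ℤ)) (fun i => dT ((r + p : ℕ) : ℤ) ((0 + i : ℕ) : ℤ)) +
    τ * (SO p (fun i => nT ((r + p : ℕ) : ℤ) ((p + i : ℕ) : ℤ)) (fun i => dT ((r + p : ℕ) : ℤ) ((p + i : ℕ) : ℤ)) +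
      τ' * SO p (fun i => nT ((r + p : ℕ) : ℤ) ((p + p + i : ℕ) : ℤ))
        (fun i => dT ((r + p : ℕ) : ℤ) ((p + p + i : ℕ) : ℤ))),
    res2 p τ, res2 p τ', ?_, ?_, ?_, ?_⟩
  · rw [TS_three (p := p) (r + p) (by omega), ← T_coe (by omega) (r + p) 0 0 (-7) (by simp) hM0,
      ← T_coe (by omega) (r + p) p 1 (-5) (by ring) hM1,
      ← T_coe (by omega) (r + p) (p + p) 2 (-3) (by push_cast; ring) hM2, ← hτ, ← hτ']
    push_cast
    ring
  · rw [map_add, map_mul, map_add, map_mul]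
    congr 1
    · refine T_block (by omega) (r + p) 0 0 (-7) y e _ _ _ _ (by simp) hM0 he ?_ ?_ ?_ ?_
      · push_cast; linear_combination (7 * p - 2 : R p) * hy + hcp
      · push_cast; linear_combination (2 + 14 * r : R p) * hy + (14 * y - 2) * hcp
      · push_cast; linear_combination (7 * p : R p) * hy + hcp
      · push_cast; ring
    · congr 1
      congr 1
      · refine T_block (by omega) (r + p) p 1 (-5) y e _ _ _ _ (by ring) hM1 he ?_ ?_ ?_ ?_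
        · push_cast; linear_combination (7 * p - 2 : R p) * hy + hcp
        · push_cast; linear_combination (2 + 14 * r : R p) * hy + (14 * y - 2) * hcp
        · push_cast; linear_combination (7 * p : R p) * hy + hcp
        · push_cast; ring
      · congr 1
        refine T_block (by omega) (r + p) (p + p) 2 (-3) y e _ _ _ _ (by push_cast; ring) hM2 he ?_ ?_ ?_ ?_
        · push_cast; linear_combination (7 * p - 2 : R p) * hy + hcp
        · push_cast; linear_combination (2 + 14 * r : R p) * hy + (14 * y - 2) * hcp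
        · push_cast; linear_combination (7 * p : R p) * hy + hcp
        · push_cast; ring
  · apply solve1 _ _ q2 q3 hU2 hU3
    push_cast at hτr
    rw [hend, hall, h12, hodd.neg_one_pow, one_pow, hq2, hq3] at hτr
    apply u2.mul_left_cancel
    linear_combination hτr
  · apply solve1 _ _ q2 q3 hU2 hU3
    push_cast at hτr'
    rw [hend, hall, h12, hodd.neg_one_pow, one_pow, hq2, hq3] at hτr'
    linear_combination hτr'

end Pool.Agent.Q278.VX
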