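import Pool.Agent.Q278.VX.J

/-!
# The value of the sum at `-3/125` modulo `p²`
-/

set_option autoImplicit false

namespace Pool.Agent.Q278.VX

open Finset Pool.Agent.Q267.CDE Q278.PI Pool.Agent.Q278.YC Pool.Agent.Q278.SX

variable {p : ℕ} [hp : Fact p.Prime] {r : ℕ}

theorem solve3 (x a b q3 q5 : R p) (u5 : IsUnit (1 + p * q5)) (u3 : IsUnit (1 + p * q3))
    (h : x * ((1 + p * q5) ^ 3 * (1 + p * q3)) =
      3 * ((1 + p * q3) * ((1 + p * q3) * ((1 + p * a) * (1 + p * b))))) :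
    x = 3 * (1 + p * (q3 + a + b - 3 * q5)) := by
  have hpp := p_sq p
  apply ((u5.pow 3).mul u3).mul_left_cancel
  linear_combination h + 3 * (6 * q5 ^ 2 + a * b + a * q3 - 3 * a * q5 + b * q3 - 3 * b * q5 +
    8 * p * q5 ^ 3 + 3 * p ^ 2 * q5 ^ 4 - 3 * q3 * q5 + a * p * q3 ^ 2 - 3 * a * p * q5 ^ 2 -
    a * p ^ 2 * q5 ^ 3 + b * p * q3 ^ 2 - 3 * b * p * q5 ^ 2 - b * p ^ 2 * q5 ^ 3 +
    3 * p * q3 * q5 ^ 2 - 3 * p * q3 ^ 2 * q5 + 7 * p ^ 2 * q3 * q5 ^ 3 - 3 * p ^ 2 * q3 ^ 2 * q5 ^ 2 +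
    3 * p ^ 3 * q3 * q5 ^ 4 - p ^ 3 * q3 ^ 2 * q5 ^ 3 + 2 * a * b * p * q3 +
    a * b * p ^ 2 * q3 ^ 2 - 3 * a * p * q3 * q5 - 3 * a * p ^ 2 * q3 * q5 ^ 2 -
    a * p ^ 3 * q3 * q5 ^ 3 - 3 * b * p * q3 * q5 - 3 * b * p ^ 2 * q3 * q5 ^ 2 -
    b * p ^ 3 * q3 * q5 ^ 3) * hpp

theorem V_first (hr : p = 6 * r + 1) (y z : R p) (hy : 6 * y = 1) (hz : 125 * z = -3) :
    ∃ A : O p, (A : ℚ) = VS r ∧
      res2 p A = Hs p y (3 * y) z (-y) (-y) (-2 * y) 0 := by
  have h2p := hp.out.two_le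
  have hr0 : 0 < r := by omega
  have hc := cp hr
  have hcp : (p : R p) = 6 * r + 1 := castp hr
  have hM : 3 * ((0 : ℕ) : ℤ) + 2 - 6 * r = 3 + (-1) * p := by rw [hc]; push_cast; ring
  refine ⟨SO p (fun i => nV r ((0 + i : ℕ) : ℤ)) (fun i => dV r ((0 + i : ℕ) : ℤ)), ?_, ?_⟩
  · rw [V_coe (by omega) r 0 0 (-1) (by simp) hM, ← VS_one' (p := p) r (by omega)]
  · refine V_block (by omega) r 0 0 (-1) y z _ _ _ _ (by simp) hM hz ?_ ?_ ?_ ?_
    · push_cast; linear_combination y * hcp + (r : R p) * hy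
    · push_cast; linear_combination 3 * y * hcp + (3 * r - 1 : R p) * hy
    · push_cast; linear_combination hcp + (p : R p) * hy
    · push_cast; ring

theorem V_second (hr : p = 6 * r + 1) (y z q3 q5 : R p) (hy : 6 * y = 1) (hz : 125 * z = -3)
    (hq3 : (3 : R p) ^ (p - 1) = 1 + p * q3) (hq5 : (5 : R p) ^ (p - 1) = 1 + p * q5) :
    ∃ A : O p, ∃ τ : R p, (A : ℚ) = VS (r + p) ∧
      res2 p A = Hs p y (3 * y) z (-7 * y) (-7 * y) (-14 * y) 0 +
        τ * Hs p y (3 * y) z (1 - 7 * y) (1 - 7 * y) (1 - 14 * y) 1 ∧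
      250 * τ = 3 * (1 + p * (q3 + D p r + D p (3 * r) - 3 * q5)) := by
  have h2p := hp.out.two_le
  have hr0 : 0 < r := by omega
  have hc := cp hr
  have hcp : (p : R p) = 6 * r + 1 := castp hr
  have hp2 : p ≠ 2 := by omega
  have n2 : ¬ (p : ℤ) ∣ 2 := not_dvd_small 2 (by norm_num) (by omega) (by omega)
  have n3 : ¬ (p : ℤ) ∣ 3 := not_dvd_small 3 (by norm_num) (by omega) (by omega)
  have n5 : ¬ (p : ℤ) ∣ 5 := not_dvd_small 5 (by norm_num) (by omega) (by omega)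
  have n1 : ¬ (p : ℤ) ∣ 1 := not_dvd_small 1 (by norm_num) (by omega) (by omega)
  have n125 : ¬ (p : ℤ) ∣ 125 := by
    have := not_dvd_mul n5 (not_dvd_mul n5 n5)
    norm_num at this
    exact this
  obtain ⟨u2, u3, u5⟩ := unit_num (p := p) hr
  have hpm := cast_pred (p := p)
  have hodd : Odd p := ⟨3 * r, by omega⟩
  have hend := D_end (p := p) hp2
  have h125 : (125 : R p) ^ p = 125 * (1 + p * q5) ^ 3 := by
    rw [pow_p, ← hq5, show (125 : R p) = 5 * 5 * 5 by norm_num, mul_pow, mul_pow]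
    ring
  have h3p : (-3 : R p) ^ p = -(3 * (1 + p * q3)) := by
    rw [hodd.neg_pow, pow_p, ← hq3]
  have hU5 : IsUnit (1 + p * q5) := by rw [← hq5]; exact u5.pow _
  have hU3 : IsUnit (1 + p * q3) := by rw [← hq3]; exact u3.pow _
  have hM0 : 3 * ((0 : ℕ) : ℤ) + 2 - 6 * ((r + p : ℕ) : ℤ) = 3 + (-7) * p := by
    push_cast; linear_combination hc
  have hM1 : 3 * ((p : ℕ) : ℤ) + 2 - 6 * ((r + p : ℕ) : ℤ) = 3 + (-4) * p := by
    push_cast; linear_combination hc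
  obtain ⟨τ, hτ, hτr⟩ := tau2 hp2 (fun i => nV ((r + p : ℕ) : ℤ) ((0 + i : ℕ) : ℤ))
    (fun i => dV ((r + p : ℕ) : ℤ) ((0 + i : ℕ) : ℤ)) (-3) 125 (-1) 2
    1 (-((r + p : ℕ) : ℤ)) (-1) 3 (1 - 3 * ((r + p : ℕ) : ℤ)) (-2)
    3 (2 - 6 * ((r + p : ℕ) : ℤ)) (-4) 1 1 1 r (3 * r) (p - 1) (p - 1)
    ⟨by omega, by push_cast; ring, n1⟩ ⟨by omega, by push_cast; linear_combination -hc, n3⟩
    ⟨by omega, by rw [hpm]; push_cast; linear_combination hc, n3⟩
    ⟨by omega, by rw [hpm]; ring, n1⟩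
    (fun i => by unfold nV; push_cast; ring) (fun i => by unfold dV; push_cast; ring)
    (by norm_num) (by norm_num) (by norm_num) n2 n125
  refine ⟨SO p (fun i => nV ((r + p : ℕ) : ℤ) ((0 + i : ℕ) : ℤ)) (fun i => dV ((r + p : ℕ) : ℤ) ((0 + i : ℕ) : ℤ)) +
    τ * SO p (fun i => nV ((r + p : ℕ) : ℤ) ((p + i : ℕ) : ℤ)) (fun i => dV ((r + p : ℕ) : ℤ) ((p + i : ℕ) : ℤ)),
    res2 p τ, ?_, ?_, ?_⟩
  · rw [VS_two' (p := p) (r + p) (by omega), ← V_coe (by omega) (r + p) 0 0 (-7) (by simp) hM0,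
      ← V_coe (by omega) (r + p) p 1 (-4) (by ring) hM1, ← hτ]
    push_cast
    ring
  · rw [map_add, map_mul]
    congr 1
    · refine V_block (by omega) (r + p) 0 0 (-7) y z _ _ _ _ (by simp) hM0 hz ?_ ?_ ?_ ?_
      · push_cast; linear_combination (7 * y - 1) * hcp + (7 * r + 1 : R p) * hy
      · push_cast; linear_combination (21 * y - 3) * hcp + (21 * r + 2 : R p) * hy
      · push_cast; linear_combination hcp + (7 * p : R p) * hy
      · push_cast; ring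
    · congr 1
      refine V_block (by omega) (r + p) p 1 (-4) y z _ _ _ _ (by ring) hM1 hz ?_ ?_ ?_ ?_
      · push_cast; linear_combination (7 * y - 1) * hcp + (7 * r + 1 : R p) * hy
      · push_cast; linear_combination (21 * y - 3) * hcp + (21 * r + 2 : R p) * hy
      · push_cast; linear_combination hcp + (7 * p : R p) * hy
      · push_cast; ring
  · apply solve3 _ _ _ q3 q5 hU5 hU3
    push_cast at hτr
    rw [hend, h125, h3p, one_pow, hq3] at hτr
    linear_combination hτr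

/-- the rational identity modulo `p²` -/
theorem VT_res (n : ℕ) (A B : O p) (hA : (A : ℚ) = VS n) (hB : (B : ℚ) = TS n) :
    (125 : R p) ^ n * res2 p A = 108 ^ n * res2 p B := by
  have h : (125 : O p) ^ n * A = 108 ^ n * B := by
    apply Subtype.ext
    have h1 := VT n
    rw [← hA, ← hB] at h1
    push_cast
    exact h1
  have h1 := congrArg (res2 p) h
  rw [map_mul, map_mul, map_pow, map_pow] at h1
  have e1 : res2 p 125 = 125 := map_ofNat _ _
  have e2 : res2 p 108 = 108 := map_ofNat _ _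
  rw [e1, e2] at h1
  exact h1

set_option maxHeartbeats 1000000 in
/-- **the value of the sum at `-3/125` and of its derivative** -/
theorem V_value (hr : p = 6 * r + 1) (y z q2 q3 q5 : R p) (hy : 6 * y = 1) (hz : 125 * z = -3)
    (hq2 : (2 : R p) ^ (p - 1) = 1 + p * q2) (hq3 : (3 : R p) ^ (p - 1) = 1 + p * q3)
    (hq5 : (5 : R p) ^ (p - 1) = 1 + p * q5) :
    125 ^ r * Hs p y (3 * y) z 0 0 0 0 =
      108 ^ r * (CC p r * (1 + p * (y * (3 * q5 - 3 * q3 - 2 * q2)))) := by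
  have h2p := hp.out.two_le
  have hr0 : 0 < r := by omega
  have hp2 : p ≠ 2 := by omega
  have hp3 : p ≠ 3 := by omega
  obtain ⟨u2, u3, u5⟩ := unit_num (p := p) hr
  have he := res2_invI p 8 (eight_nd' hr)
  push_cast at he
  set e := res2 p (invI p 8) with hedef
  have hpp := p_sq p
  obtain ⟨TA, TB, TC, hT, hs, hc⟩ := tdata hr y e q2 q3 hy he hq2 hq3
  obtain ⟨VA, VB, VC, hV⟩ := aff p y (3 * y) z
  obtain ⟨A1, a1, a2⟩ := T_first hr y e hy he
  obtain ⟨A2, t, u, b1, b2, ht, hu⟩ := T_second hr y e q2 q3 hy he hq2 hq3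
  obtain ⟨B1, c1, c2⟩ := V_first hr y z hy hz
  obtain ⟨B2, tV, d1, d2, htV⟩ := V_second hr y z q3 q5 hy hz hq3 hq5
  have H1 := VT_res (p := p) r B1 A1 c1 a1
  have H2 := VT_res (p := p) (r + p) B2 A2 d1 b1
  rw [a2, c2, hT, hV] at H1
  rw [b2, d2, hT, hT, hT, hV, hV (1 - 7 * y)] at H2
  have h125 : (125 : R p) ^ p = 125 * (1 + 3 * p * q5) := by
    rw [pow_p, show (125 : R p) = 5 * 5 * 5 by norm_num, mul_pow, mul_pow, hq5]
    linear_combination (125 * (3 * q5 ^ 2 + p * q5 ^ 3)) * hpp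
  have h108 : (108 : R p) ^ p = 108 * (1 + p * (2 * q2 + 3 * q3)) := by
    rw [pow_p, show (108 : R p) = 2 * 2 * (3 * 3 * 3) by norm_num, mul_pow, mul_pow, mul_pow,
      mul_pow, hq2, hq3]
    linear_combination (108 * (q2 ^ 2 + 3 * q3 ^ 2 + p * q3 ^ 3 + 6 * q2 * q3 + 6 * p * q2 * q3 ^ 2 +
      3 * p * q2 ^ 2 * q3 + 2 * p ^ 2 * q2 * q3 ^ 3 + 3 * p ^ 2 * q2 ^ 2 * q3 ^ 2 +
      p ^ 3 * q2 ^ 2 * q3 ^ 3)) * hpp
  rw [pow_add, pow_add, h125, h108] at H2
  have ha := harm_six (p := p) hr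
  have hb := harm_two (p := p) hp2 (3 * r) (by omega) q2 hq2
  have hh := harm_three (p := p) hp2 hp3 (2 * r) (4 * r) (by omega) (by omega) q3 hq3
  set V0 := Hs p y (3 * y) z 0 0 0 0
  set L5 := (125 : R p) ^ r
  set K := (108 : R p) ^ r
  set C := CC p r
  set a := D p r
  set b := D p (3 * r)
  set h := D p (2 * r)
  set s := TA + TB with hsdef
  set c := TC
  set eta := VA + VB + 2 * VC with heta
  set T2 := C * (1 + t + t * u) + p * (s * (-14 * y + (1 - 14 * y) * t + (2 - 14 * y) * (t * u)) +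
    c * (-21 * y + (2 - 21 * y) * t + (4 - 21 * y) * (t * u))) with hT2def
  have H1' : L5 * (V0 - p * (y * eta)) = K * (C - p * (2 * y * s + 3 * y * c)) := by
    rw [heta, hsdef]
    linear_combination H1
  have H2' : 125 * (1 + 3 * p * q5) * L5 * (V0 * (1 + tV) - p * eta * (7 * y + y * tV)) =
      108 * (1 + p * (2 * q2 + 3 * q3)) * K * T2 := by
    rw [heta, hT2def, hsdef]
    linear_combination H2 + (125 * (1 + 3 * p * q5) * L5 * tV * p * (VA + VB + 2 * VC)) * hy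
  have hT2 : 1296 * T2 = C * (1518 + 228 * p * (2 * h - 3 * q2)) - 3314 * p * s - 4857 * p * c := by
    rw [hT2def]
    linear_combination (216 * C + 216 * C * u + 432 * c * p + 216 * p * s + 864 * c * p * u - 4536 * c * p * y + 432 * p * s * u - 3024 * p * s * y - 4536 * c * p * u * y - 3024 * p * s * u * y) * ht + (6 * C + 24 * c * p + 12 * p * s + 12 * C * h * p - 18 * C * p * q2 + 48 * c * h * p ^ 2 - 126 * c * p * y - 72 * c * p ^ 2 * q2 + 24 * h * p ^ 2 * s - 84 * p * s * y - 36 * p ^ 2 * q2 * s - 252 * c * h * p ^ 2 * y + 378 * c * p ^ 2 * q2 * y - 168 * h * p ^ 2 * s * y + 252 * p ^ 2 * q2 * s * y) * hu + (24 * C * h ^ 2 + 54 * C * q2 ^ 2 + 960 * c * h - 1440 * c * q2 + 480 * h * s - 720 * q2 * s - 72 * C * h * q2 - 9576 * c * h * y + 96 * c * h ^ 2 * p + 216 * c * p * q2 ^ 2 + 14364 * c * q2 * y - 6384 * h * s * y + 48 * h ^ 2 * p * s + 108 * p * q2 ^ 2 * s + 9576 * q2 * s * y - 288 * c * h * p *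 q2 - 504 * c * h ^ 2 * p * y - 1134 * c * p * q2 ^ 2 * y - 144 * h * p * q2 * s - 336 * h ^ 2 * p * s * y - 756 * p * q2 ^ 2 * s * y + 1512 * c * h * p * q2 * y + 1008 * h * p * q2 * s * y) * hpp + (-5313 * c * p - 3542 * p * s) * hy
  clear_value T2
  have hU : IsUnit (2 * (9000 * (1 + 3 * p * q5))) := by
    have h1 : (2 : R p) * 9000 = 2 ^ 4 * 3 ^ 2 * 5 ^ 3 := by norm_num
    have h2 : IsUnit (125 * (1 + 3 * p * q5) : R p) := by
      rw [← h125]
      apply IsUnit.pow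
      rw [show (125 : R p) = 5 ^ 3 by norm_num]
      exact u5.pow 3
    have h3 : IsUnit (1 + 3 * p * q5 : R p) := isUnit_of_mul_isUnit_right h2
    rw [← mul_assoc, h1]
    exact (((u2.pow 4).mul (u3.pow 2)).mul (u5.pow 3)).mul h3
  apply hU.mul_left_cancel
  linear_combination (-24) * H2' + (21000 + 3000 * tV + 63000 * p * q5 + 9000 * p * q5 * tV) * H1' + (-2 * K - 4 * K * p * q2 - 6 * K * p * q3) * hT2 + (12 * C * K + 36 * C * K * p * q5 - 36 * K * c * p * y - 24 * K * p * s * y - 108 * K * c * p ^ 2 * q5 * y - 72 * K * p ^ 2 * q5 * s * y) * htV + (2736 * C * K * q2 ^ 2 - 324 * C * K * q5 ^ 2 + 19428 * K * c * q2 + 29142 * K * c * q3 + 13256 * K * q2 * s + 19884 * K * q3 * s + 108 * C * K * a * q5 + 108 * C * K * b * q5 - 1824 * C * K * h * q2 - 2736 * C * K * h * q3 + 4104 * C * K * q2 * q3 + 108 * C * K * q3 * q5 - 162000 * C * K * q5 ^ 2 * y - 108 * K * a * c * y - 72 * K * a * s * y - 108 * K * b *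 c * y - 72 * K * b * s * y - 108 * K * c * q3 * y - 189000 * K * c * q5 * y - 72 * K * q3 * s * y - 126000 * K * q5 * s * y + 108000 * C * K * q2 * q5 * y + 162000 * C * K * q3 * q5 * y + 972 * K * c * p * q5 ^ 2 * y + 648 * K * p * q5 ^ 2 * s * y - 324 * K * a * c * p * q5 * y - 216 * K * a * p * q5 * s * y - 324 * K * b * c * p * q5 * y - 216 * K * b * p * q5 * s * y - 324 * K * c * p * q3 * q5 * y - 216 * K * p * q3 * q5 * s * y) * hpp + (6628 * K - 42072 * K * y) * hs + (9714 * K - 63108 * K * y) * hc + (36 * C * K) * ha + (72 * C * K) * hb + (-5295 * C * K + 31554 * C * K * y) * hh + (-15036 * C * K * p * q2 - 3271 * C * K * p * q3 - 9000 * C * K * p * q5) * hy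

end Pool.Agent.Q278.VX
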