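import Pool.Agent.Q278.VX.K
import Pool.Agent.Q267.CDE.A3

/-!
# The sum at `-3/125` and the form `x² + 3y²`
-/

set_option autoImplicit false

namespace Pool.Agent.Q278.VX

open Finset Pool.Agent.Q267.CDE Q278.PI Pool.Agent.Q278.YC Pool.Agent.Q278.SX Pool.Agent.Y692.QS

variable {p : ℕ} [hp : Fact p.Prime] {r : ℕ} {π : Ei}

/-- the cubic Jacobi sum is the central binomial coefficient -/
theorem CC_jac (hr : p = 6 * r + 1) (hπ : nr π = p) (hp3 : p ≠ 3) :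
    Phi hπ hp3 (star (Jc hπ hp3)) = -CC p r := by
  have h2p := hp.out.two_le
  have hr0 : 0 < r := by omega
  have hodd : Odd p := ⟨3 * r, by omega⟩
  have hH : H (ZMod p) (4 * r) = H (ZMod p) (2 * r) := by
    have := H_sym hr r (by omega)
    rwa [show 3 * r + r = 4 * r by ring, show 3 * r - r = 2 * r by omega] at this
  have h6 := jac p hodd (2 * r) (4 * r) (by omega) (by omega) (by omega) 0 (by
    rw [map_zero, show 4 * r - 2 * r = 2 * r by omega, hH]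
    push_cast
    ring)
  rw [mul_zero, add_zero, mul_one, pow_mul, neg_one_sq, one_pow, one_mul,
    show p - 1 - 2 * r = 4 * r by omega] at h6
  have h7 : ∑ t : ZMod p, om p t ^ (4 * r) * om p (1 - t) ^ (4 * r) =
      Phi hπ hp3 (star (Jc hπ hp3)) := by
    unfold Jc jacobiSum
    rw [star_sum, map_sum]
    refine sum_congr rfl fun t _ => ?_
    rw [star_mul, star_chi, star_chi, map_mul, map_pow, map_pow, Phi_chi, Phi_chi, ← pow_mul,
      ← pow_mul, show (p - 1) / 3 * 2 = 4 * r by omega]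
    ring
  rw [← h7, h6]
  rfl

theorem CC_unit (hr : p = 6 * r + 1) : IsUnit (CC p r) := by
  have h10 := unit_fact p (4 * r) (by omega)
  rw [← CC_mul] at h10
  exact isUnit_of_mul_isUnit_left h10

theorem one_add_pow (q : R p) (n : ℕ) : (1 + p * q) ^ n = 1 + n * (p * q) := by
  have hpp := p_sq p
  induction n with
  | zero => simp
  | succ n ih =>
    rw [pow_succ, ih]
    push_cast
    linear_combination (n * q ^ 2) * hpp

/-- the other Jacobi sum -/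
theorem W_sq (hr : p = 6 * r + 1) (x y : ℤ) (hxy : (p : ℤ) = x ^ 2 + 3 * y ^ 2) (q2 : R p)
    (hq2 : (2 : R p) ^ (p - 1) = 1 + p * q2) :
    2 ^ (4 * r) * (1 + 4 * r * (p * q2)) * CC p r ^ 2 = 4 * (x : R p) ^ 2 - 2 * p := by
  have h2p := hp.out.two_le
  have hr0 : 0 < r := by omega
  have hp3 : p ≠ 3 := by omega
  have hp2 : p ≠ 2 := by omega
  have hpp := p_sq p
  obtain ⟨u2, -, -⟩ := unit_num (p := p) hr
  have hπ : nr (pe x y) = p := by rw [nr_pe, hxy]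
  have h1 := V_eq r hr hπ hp3 hp2
  rw [U_eq hπ hp3 hp2, star_mul, map_mul, CC_jac hr hπ hp3, star_chi, map_pow, Phi_chi,
    show (p - 1) / 3 = 2 * r by omega, om_eq p 4 4 (map_ofNat _ _)] at h1
  have hunit : IsUnit (∑ t : ZMod p, om p t ^ (p - 1 - 2 * r) * om p (1 - t) ^ (3 * r)) := by
    rw [h1]
    have h4 : IsUnit (4 : R p) := by
      have := u2.mul u2
      rwa [show (2 : R p) * 2 = 4 by norm_num] at this
    exact (CC_unit hr).neg.mul (((h4.pow p).pow (2 * r)).pow 2)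
  have h2 := jac_sq r hr x y hxy hunit
  rw [h1] at h2
  have e0 : (2 : R p) ^ p = 2 * (1 + p * q2) := by rw [pow_p, hq2]
  have e1 : ((2 : R p) ^ p) ^ (6 * r) = 1 := by
    rw [show 6 * r = p - 1 by omega, ← pow_mul, mul_comm, pow_mul, hq2, one_add_pow]
    linear_combination q2 * hpp
  have e2 : ((((4 : R p) ^ p) ^ (2 * r)) ^ 2) ^ 2 = 2 ^ (4 * r) * (1 + 4 * r * (p * q2)) := by
    have e3 : ((((4 : R p) ^ p) ^ (2 * r)) ^ 2) ^ 2 =
        (((2 : R p) ^ p) ^ (6 * r)) ^ 2 * ((2 : R p) ^ p) ^ (4 * r) := by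
      rw [show (4 : R p) = 2 ^ 2 by norm_num]
      simp only [← pow_mul, ← pow_add]
      congr 1
      ring
    rw [e3, e1, e0, mul_pow, one_add_pow]
    push_cast
    ring
  rw [← h2, mul_pow, e2]
  ring

/-- **the square of the value** -/
theorem V_sq (hr : p = 6 * r + 1) (y z : R p) (hy : 6 * y = 1) (hz : 125 * z = -3) (a b : ℤ)
    (hab : (p : ℤ) = a ^ 2 + 3 * b ^ 2) :
    Hs p y (3 * y) z 0 0 0 0 ^ 2 = 4 * (a : R p) ^ 2 - 2 * p := by
  have h2p := hp.out.two_le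
  have hr0 : 0 < r := by omega
  have hpp := p_sq p
  have hcp : (p : R p) = 6 * r + 1 := castp hr
  obtain ⟨u2, u3, u5⟩ := unit_num (p := p) hr
  obtain ⟨q2, hq2⟩ := fermat (2 : R p) u2
  obtain ⟨q3, hq3⟩ := fermat (3 : R p) u3
  obtain ⟨q5, hq5⟩ := fermat (5 : R p) u5
  have hv := V_value hr y z q2 q3 q5 hy hz hq2 hq3 hq5
  rw [← W_sq hr a b hab q2 hq2]
  set V0 := Hs p y (3 * y) z 0 0 0 0
  have e1 : ((125 : R p) ^ r) ^ 2 = 1 + p * q5 := by
    rw [← hq5, ← pow_mul, show (125 : R p) = 5 ^ 3 by norm_num, ← pow_mul]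
    congr 1
    omega
  have e2 : ((108 : R p) ^ r) ^ 2 = 2 ^ (4 * r) * (1 + p * q3) := by
    rw [← hq3, ← pow_mul, show (108 : R p) = 2 ^ 2 * 3 ^ 3 by norm_num, mul_pow, ← pow_mul, ← pow_mul,
      show 2 * (r * 2) = 4 * r by ring, show 3 * (r * 2) = p - 1 by omega]
  have h1 := congrArg (fun t => t ^ 2) hv
  simp only [mul_pow] at h1
  rw [e1, e2] at h1
  have hU : IsUnit (1 + p * q5) := by rw [← hq5]; exact u5.pow _
  apply hU.mul_left_cancel
  set C := CC p r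
  set w := (2 : R p) ^ (4 * r)
  have hrp : 4 * (r : R p) * p = -(4 * y * p) := by
    linear_combination (-4 * y * p : R p) * hcp + 4 * y * hpp - (4 * r * p : R p) * hy
  linear_combination h1 + (4 * C ^ 2 * q2 ^ 2 * w * y ^ 2 - 6 * C ^ 2 * q3 ^ 2 * w * y +
    9 * C ^ 2 * q3 ^ 2 * w * y ^ 2 + 9 * C ^ 2 * q5 ^ 2 * w * y ^ 2 +
    9 * C ^ 2 * p * q3 ^ 3 * w * y ^ 2 - 4 * C ^ 2 * q2 * q3 * w * y +
    12 * C ^ 2 * q2 * q3 * w * y ^ 2 - 4 * C ^ 2 * q2 * q5 * r * w - 12 * C ^ 2 * q2 * q5 * w * y ^ 2 +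
    6 * C ^ 2 * q3 * q5 * w * y - 18 * C ^ 2 * q3 * q5 * w * y ^ 2 +
    12 * C ^ 2 * p * q2 * q3 ^ 2 * w * y ^ 2 + 4 * C ^ 2 * p * q2 ^ 2 * q3 * w * y ^ 2 +
    9 * C ^ 2 * p * q3 * q5 ^ 2 * w * y ^ 2 - 18 * C ^ 2 * p * q3 ^ 2 * q5 * w * y ^ 2 -
    12 * C ^ 2 * p * q2 * q3 * q5 * w * y ^ 2) * hpp + (-C ^ 2 * q2 * w) * hrp +
    (-C ^ 2 * p * q3 * w + C ^ 2 * p * q5 * w) * hy

end Pool.Agent.Q278.VX
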