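import Pool.Agent.Q278.VX.K

/-!
# The sums for `p = 6 m + 5`
-/

set_option autoImplicit false

namespace Pool.Agent.Q278.VX

open Finset Pool.Agent.Q267.CDE Q278.PI Pool.Agent.Q278.YC Pool.Agent.Q278.SX

theorem six_ne_five (j i : ℕ) : 6 * (i : ℚ) - (6 * (j : ℚ) + 5) ≠ 0 := by
  intro h
  have h1 : (6 * (i : ℤ) - (6 * (j : ℤ) + 5)) = 0 := by exact_mod_cast h
  omega

/-- the sum vanishes for `t = 6m + 5` -/
theorem S5 (m : ℕ) : ∀ N : ℕ, 2 * m + 1 < N → ∑ k ∈ range N, YA.F (6 * m + 5) k = 0 := by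
  induction m with
  | zero =>
    intro N hN
    rw [YA.sum_trunc _ 2 N (by omega)]
    · unfold YA.F
      norm_num [sum_range_succ, prod_range_succ]
    · intro k hk
      exact YA.F_vanish _ 1 k (by omega) (Or.inr (by push_cast; ring))
  | succ r ih =>
    intro N hN
    have ih := ih N (by omega)
    have h := YA.wz1 (6 * r + 5) (six_ne_five r) N
    rw [YA.G1_vanish (6 * r + 5) (2 * r + 3) N (by omega) (Or.inr (by push_cast; ring)), mul_zero,
      ih] at h
    have e : (6 * ((r + 1 : ℕ) : ℚ) + 5) = 6 * (r : ℚ) + 5 + 6 := by push_cast; ring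
    rw [e]
    have h1 : (16 * (6 * (r : ℚ) + 5)) ≠ 0 := by positivity
    have h2 : (6 * (r : ℚ) + 5 + 2) * (6 * r + 5 + 4) * (6 * r + 5 + 5) ≠ 0 := by positivity
    have h3 := (mul_eq_zero.1 h).resolve_left h2
    rw [mul_zero, sub_zero] at h3
    exact (mul_eq_zero.1 h3).resolve_left h1

variable {p : ℕ} [hp : Fact p.Prime] {m : ℕ}

theorem small_nd' (h5 : 5 < p) (x : ℤ) (h0 : 0 < x) (h1 : x < 7) : ¬ (p : ℤ) ∣ x := by
  have h7 : 7 ≤ p := by
    by_contra h
    have h6 : p = 6 := by omega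
    have := hp.out
    rw [h6] at this
    exact absurd this (by decide)
  apply not_dvd_small
  · omega
  · omega
  · omega

theorem castp5 (hm : p = 6 * m + 5) : (p : R p) = 6 * (m : R p) + 5 := by
  have := congrArg (Nat.cast : ℕ → R p) hm
  push_cast at this
  exact this

theorem T_zero (hm : p = 6 * m + 5) (y e : R p) (h5 : 5 < p) (hy : 6 * y = 1) (he : 8 * e = 1) :
    (p : R p) * Hs p (4 * y) (2 * y) (-e) 0 0 0 0 = 0 := by
  have n1 := small_nd' (p := p) h5 2 (by norm_num) (by norm_num)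
  have n3 := small_nd' (p := p) h5 3 (by norm_num) (by norm_num)
  have n6 := not_dvd_mul n1 n3
  have n12 := not_dvd_mul n1 n6
  norm_num at n12 n6
  have hnd : ∀ i, i + 1 < p → ¬ (p : ℤ) ∣ dF p i := by
    intro i hi
    have ni : ¬ (p : ℤ) ∣ ((i : ℤ) + 1) := not_dvd_small _ (by omega) (by omega) (by omega)
    unfold dF
    refine not_dvd_mul (not_dvd_mul n12 ni) ?_
    have h := not_dvd_add (not_dvd_mul n6 ni) (-1)
    have e1 : 6 * ((i : ℤ) + 1) + -1 * (p : ℤ) = 6 * ((i : ℤ) + 1) - p := by ring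
    rwa [e1] at h
  have h1 : (SO p (fun i => nF p i) (fun i => dF p i) : O p) = 0 := by
    apply Subtype.ext
    rw [SO_coe _ _ hnd]
    have h2 := S5 m p (by omega)
    have hpq : (6 * (m : ℚ) + 5) = (p : ℚ) := by rw [hm]; push_cast; ring
    rw [hpq] at h2
    show _ = (0 : ℚ)
    rw [← h2]
    refine sum_congr rfl fun k _ => ?_
    unfold YA.F
    refine prod_congr rfl fun i _ => ?_
    unfold nF dF
    push_cast
    ring
  have h2 := congrArg (res2 p) h1
  rw [map_zero, SO_tm (fun i => nF p i) (fun i => dF p i) (4 * y) (2 * y) (-e) (-2 * y) (-2 * y) (-y) 0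
    (fun i => 3 * (i : R p) + 2 - p) (fun i => 3 * (i : R p) + 1 - p) (fun i => 6 * ((i : R p) + 1) - p)
    (fun i => (i : R p) + 1) (-1) 12 3 3 6 1 hnd
    (fun i => by unfold nF; push_cast; ring) (fun i => by unfold dF; push_cast; ring)
    (fun i => by linear_combination (p - 2 : R p) * hy)
    (fun i => by linear_combination (p - 1 : R p) * hy)
    (fun i => by linear_combination (p : R p) * hy) (fun i => by ring)
    (by linear_combination (-9 : R p) * he)] at h2
  obtain ⟨TA, TB, TC, hT⟩ := aff p (4 * y) (2 * y) (-e)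
  rw [hT] at h2
  have hpp := p_sq p
  linear_combination (p : R p) * h2 - (-2 * y * TA + -2 * y * TB + (-y + 0) * TC) * hpp

theorem p_Hs (α β z a b c d : R p) : (p : R p) * Hs p α β z a b c d = p * Hs p α β z 0 0 0 0 := by
  obtain ⟨TA, TB, TC, hT⟩ := aff p α β z
  have hpp := p_sq p
  rw [hT]
  linear_combination (a * TA + b * TB + (c + d) * TC) * hpp

/-- the terminating sum at `-1/8` is divisible by `p` -/
theorem T_last (hm : p = 6 * m + 5) (y e : R p) (h5 : 5 < p) (hy : 6 * y = 1) (he : 8 * e = 1) :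
    ∃ A : O p, (A : ℚ) = TS (5 * m + 4) ∧ (p : R p) * res2 p A = 0 := by
  have h2p := hp.out.two_le
  have hp2 : p ≠ 2 := by omega
  have hc : (p : ℤ) = 6 * m + 5 := by rw [hm]; push_cast; ring
  have hcp : (p : R p) = 6 * m + 5 := castp5 hm
  have hpp := p_sq p
  have n2 := small_nd' (p := p) h5 2 (by norm_num) (by norm_num)
  have n3 := small_nd' (p := p) h5 3 (by norm_num) (by norm_num)
  have n1 := small_nd' (p := p) h5 1 (by norm_num) (by norm_num)
  have n12 : ¬ (p : ℤ) ∣ 12 := by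
    have := not_dvd_mul n2 (not_dvd_mul n2 n3)
    norm_num at this
    exact this
  have hpm := cast_pred (p := p)
  have hM0 : 2 * ((0 : ℕ) : ℤ) + 1 - 6 * ((5 * m + 4 : ℕ) : ℤ) = 2 + (-5) * p := by
    push_cast; linear_combination 5 * hc
  have hM1 : 2 * ((p : ℕ) : ℤ) + 1 - 6 * ((5 * m + 4 : ℕ) : ℤ) = 2 + (-3) * p := by
    push_cast; linear_combination 5 * hc
  obtain ⟨τ, hτ, -⟩ := tau2 hp2 (fun i => nT ((5 * m + 4 : ℕ) : ℤ) ((0 + i : ℕ) : ℤ))
    (fun i => dT ((5 * m + 4 : ℕ) : ℤ) ((0 + i : ℕ) : ℤ)) (-1) 12 (-4) 3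
    1 (-(2 * ((5 * m + 4 : ℕ) : ℤ))) (-1) 3 (1 - 6 * ((5 * m + 4 : ℕ) : ℤ)) (-4)
    2 (1 - 6 * ((5 * m + 4 : ℕ) : ℤ)) (-3) 1 1 1 (4 * m + 3) (2 * m + 1) (p - 1) (p - 1)
    ⟨by omega, by push_cast; linear_combination hc, n1⟩
    ⟨by omega, by push_cast; linear_combination 4 * hc, n3⟩
    ⟨by omega, by rw [hpm]; push_cast; linear_combination 5 * hc, n2⟩
    ⟨by omega, by rw [hpm]; ring, n1⟩
    (fun i => by unfold nT; push_cast; ring) (fun i => by unfold dT; push_cast; ring)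
    (by norm_num) (by norm_num) (by norm_num) n3 n12
  refine ⟨SO p (fun i => nT ((5 * m + 4 : ℕ) : ℤ) ((0 + i : ℕ) : ℤ)) (fun i => dT ((5 * m + 4 : ℕ) : ℤ) ((0 + i : ℕ) : ℤ)) +
    τ * SO p (fun i => nT ((5 * m + 4 : ℕ) : ℤ) ((p + i : ℕ) : ℤ)) (fun i => dT ((5 * m + 4 : ℕ) : ℤ) ((p + i : ℕ) : ℤ)),
    ?_, ?_⟩
  · rw [TS_two (p := p) (5 * m + 4) (by omega), ← T_coe (by omega) (5 * m + 4) 0 0 (-5) (by simp) hM0,
      ← T_coe (by omega) (5 * m + 4) p 1 (-3) (by ring) hM1, ← hτ]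
    push_cast
    ring
  · have hz := T_zero hm y e h5 hy he
    have b1 := T_block (p := p) (by omega) (5 * m + 4) 0 0 (-5) y e (-10 * y) (-10 * y) (-15 * y) 0
      (by simp) hM0 he (by push_cast; linear_combination 5 * hcp + (5 * p - 2) * hy)
      (by push_cast; linear_combination (10 * y) * hcp + (10 * m + 8 : R p) * hy)
      (by push_cast; linear_combination 5 * hcp + (5 * p) * hy) (by push_cast; ring)
    have b2 := T_block (p := p) (by omega) (5 * m + 4) p 1 (-3) y e (1 - 10 * y) (1 - 10 * y)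
      (1 - 15 * y) 1
      (by ring) hM1 he (by push_cast; linear_combination 5 * hcp + (5 * p - 2) * hy)
      (by push_cast; linear_combination (10 * y) * hcp + (10 * m + 8 : R p) * hy)
      (by push_cast; linear_combination 5 * hcp + (5 * p) * hy) (by push_cast; ring)
    rw [map_add, map_mul, b1, b2]
    have c1 := p_Hs (p := p) (4 * y) (2 * y) (-e) (-10 * y) (-10 * y) (-15 * y) 0
    have c2 := p_Hs (p := p) (4 * y) (2 * y) (-e) (1 - 10 * y) (1 - 10 * y) (1 - 15 * y) 1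
    linear_combination c1 + res2 p τ * c2 + (1 + res2 p τ) * hz

/-- **the sum at `-3/125` is divisible by `p`** -/
theorem V_zero (hm : p = 6 * m + 5) (y z : R p) (h5 : 5 < p) (hy : 6 * y = 1)
    (hz : 125 * z = -3) : (p : R p) * Hs p y (3 * y) z 0 0 0 0 = 0 := by
  have hcp : (p : R p) = 6 * m + 5 := castp5 hm
  have hc : (p : ℤ) = 6 * m + 5 := by rw [hm]; push_cast; ring
  have n2 := small_nd' (p := p) h5 2 (by norm_num) (by norm_num)
  have n8 := not_dvd_mul n2 (not_dvd_mul n2 n2)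
  norm_num at n8
  have he := res2_invI p 8 n8
  push_cast at he
  obtain ⟨A, a1, a2⟩ := T_last hm y _ h5 hy he
  have hM0 : 3 * ((0 : ℕ) : ℤ) + 2 - 6 * ((5 * m + 4 : ℕ) : ℤ) = 3 + (-5) * p := by
    push_cast; linear_combination 5 * hc
  have b1 := V_block (p := p) (by omega) (5 * m + 4) 0 0 (-5) y z (-5 * y) (-5 * y) (-10 * y) 0
      (by simp) hM0 hz (by push_cast; linear_combination (5 * y) * hcp + (5 * m + 4 : R p) * hy)
      (by push_cast; linear_combination (15 * y) * hcp + (15 * m + 11 : R p) * hy)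
      (by push_cast; linear_combination 5 * hcp + (5 * p) * hy) (by push_cast; ring)
  have h1 := VT_res (p := p) (5 * m + 4)
    (SO p (fun i => nV ((5 * m + 4 : ℕ) : ℤ) ((0 + i : ℕ) : ℤ))
      (fun i => dV ((5 * m + 4 : ℕ) : ℤ) ((0 + i : ℕ) : ℤ))) A
    (by rw [VS_one' (p := p) (5 * m + 4) (by omega)]
        exact V_coe (by omega) (5 * m + 4) 0 0 (-5) (by simp) hM0) a1
  rw [b1] at h1
  have c1 := p_Hs (p := p) y (3 * y) z (-5 * y) (-5 * y) (-10 * y) 0
  have n5 := small_nd' (p := p) h5 5 (by norm_num) (by norm_num)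
  have u5 := isUnit_int p 5 n5
  push_cast at u5
  have hu : IsUnit ((125 : R p) ^ (5 * m + 4)) := by
    apply IsUnit.pow
    rw [show (125 : R p) = 5 ^ 3 by norm_num]
    exact u5.pow 3
  apply hu.mul_left_cancel
  linear_combination (p : R p) * h1 - (125 : R p) ^ (5 * m + 4) * c1 + 108 ^ (5 * m + 4) * a2

end Pool.Agent.Q278.VX
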