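import Pool.Agent.Q278.VX.M
import Pool.Agent.Q278.VX.L

/-!
# Truncated sums with three parameters modulo `p²`
-/

set_option autoImplicit false

namespace Pool.Agent.Q278.VX

open Finset Pool.Agent.Q267.CDE Q278.PI Pool.Agent.Q278.YC Pool.Agent.Q278.SX

section

variable {p : ℕ}

/-- affine functions of `x, y, w, c + d + e` modulo `p²` -/
def Af3 (f : R p → R p → R p → R p → R p → R p → R p) : Prop :=
  ∃ a A B C E : R p, ∀ x y w c d e, f x y w c d e = a + p * (x * A + y * B + w * C + (c + d + e) * E)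

theorem Af3.const (a : R p) : Af3 (fun _ _ _ _ _ _ => a) :=
  ⟨a, 0, 0, 0, 0, fun x y w c d e => by ring⟩

theorem Af3.add {f g : R p → R p → R p → R p → R p → R p → R p} (hf : Af3 f) (hg : Af3 g) :
    Af3 (fun x y w c d e => f x y w c d e + g x y w c d e) := by
  obtain ⟨a, A, B, C, E, h⟩ := hf
  obtain ⟨a', A', B', C', E', h'⟩ := hg
  exact ⟨a + a', A + A', B + B', C + C', E + E', fun x y w c d e => by
    beta_reduce; rw [h, h']; ring⟩

theorem Af3.congr {f g : R p → R p → R p → R p → R p → R p → R p}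
    (h : ∀ x y w c d e, f x y w c d e = g x y w c d e) (hg : Af3 g) : Af3 f := by
  obtain ⟨a, A, B, C, E, h'⟩ := hg
  exact ⟨a, A, B, C, E, fun x y w c d e => (h x y w c d e).trans (h' x y w c d e)⟩

theorem Af3.mul {f g : R p → R p → R p → R p → R p → R p → R p} (hf : Af3 f) (hg : Af3 g) :
    Af3 (fun x y w c d e => f x y w c d e * g x y w c d e) := by
  obtain ⟨a, A, B, C, E, h⟩ := hf
  obtain ⟨a', A', B', C', E', h'⟩ := hg
  have hp := p_sq p
  refine ⟨a * a', a * A' + a' * A, a * B' + a' * B, a * C' + a' * C, a * E' + a' * E,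
    fun x y w c d e => ?_⟩
  beta_reduce
  rw [h, h']
  linear_combination ((x * A + y * B + w * C + (c + d + e) * E) *
    (x * A' + y * B' + w * C' + (c + d + e) * E')) * hp

end

section

variable (p : ℕ) [hp : Fact p.Prime]

/-- the terms -/
noncomputable def tm3 (α β γ z x y w c d e : R p) (k : ℕ) : R p :=
  ∏ i ∈ range k, ((α + i + p * x) * (β + i + p * y) * (γ + i + p * w) * z *
    (((i : R p) + 1) + p * c)⁻¹ * (((i : R p) + 1) + p * d)⁻¹ * (((i : R p) + 1) + p * e)⁻¹)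

/-- the sums -/
noncomputable def Hs3 (α β γ z x y w c d e : R p) : R p :=
  ∑ k ∈ range p, tm3 p α β γ z x y w c d e k

theorem tm3_zero (α β γ z x y w c d e : R p) : tm3 p α β γ z x y w c d e 0 = 1 := by simp [tm3]

theorem fac3 (α β γ z : R p) (k : ℕ) (hk : k + 1 < p) :
    Af3 (fun x y w c d e : R p => (α + k + p * x) * (β + k + p * y) * (γ + k + p * w) * z *
        (((k : R p) + 1) + p * c)⁻¹ * (((k : R p) + 1) + p * d)⁻¹ * (((k : R p) + 1) + p * e)⁻¹) := by
  have hpp := p_sq p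
  have hk' : ∀ c : R p, (((k : R p) + 1) + p * c)⁻¹ =
      ((k : R p) + 1)⁻¹ - p * c * (((k : R p) + 1)⁻¹) ^ 2 := fun c => (inv_shift p k hk c).1
  set v := ((k : R p) + 1)⁻¹ with hv
  refine ⟨(α + k) * (β + k) * (γ + k) * z * v ^ 3, (β + k) * (γ + k) * z * v ^ 3,
    (α + k) * (γ + k) * z * v ^ 3, (α + k) * (β + k) * z * v ^ 3,
    -((α + k) * (β + k) * (γ + k) * z * v ^ 4), fun x y w c d e => ?_⟩
  beta_reduce
  rw [hk' c, hk' d, hk' e]
  set A := α + k
  set B := β + k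
  set C := γ + k
  have e1 : (v - p * c * v ^ 2) * (v - p * d * v ^ 2) * (v - p * e * v ^ 2) =
      v ^ 3 - p * (c + d + e) * v ^ 4 := by
    linear_combination ((c * d + c * e + d * e) * v ^ 5 - p * (c * d * e) * v ^ 6) * hpp
  have e2 : (A + p * x) * (B + p * y) * (C + p * w) = A * B * C +
      p * (x * (B * C) + y * (A * C) + w * (A * B)) := by
    linear_combination (x * y * C + x * w * B + y * w * A + p * x * y * w) * hpp
  linear_combination ((A + p * x) * (B + p * y) * (C + p * w) * z) * e1 +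
    (z * (v ^ 3 - p * (c + d + e) * v ^ 4)) * e2 -
    ((x * (B * C) + y * (A * C) + w * (A * B)) * z * (c + d + e) * v ^ 4) * hpp

theorem tm3_af (α β γ z : R p) (k : ℕ) (hk : k < p) :
    Af3 (fun x y w c d e => tm3 p α β γ z x y w c d e k) := by
  induction k with
  | zero => simp only [tm3_zero]; exact Af3.const 1
  | succ k ih =>
    have ih := ih (by omega)
    refine Af3.congr (fun x y w c d e => ?_) (ih.mul (fac3 p α β γ z k hk))
    unfold tm3
    rw [prod_range_succ]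

theorem Hs3_af (α β γ z : R p) : Af3 (fun x y w c d e => Hs3 p α β γ z x y w c d e) := by
  have h : ∀ N : ℕ, N ≤ p → Af3 (fun x y w c d e =>
      ∑ k ∈ range N, tm3 p α β γ z x y w c d e k) := by
    intro N
    induction N with
    | zero => intro _; simp only [range_zero, sum_empty]; exact Af3.const 0
    | succ N ih =>
      intro hN
      refine Af3.congr (fun x y w c d e => ?_) ((ih (by omega)).add (tm3_af p α β γ z N (by omega)))
      rw [sum_range_succ]
  exact h p le_rfl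

/-- the affine form of the sums -/
theorem aff3 (α β γ z : R p) : ∃ A B C E : R p, ∀ x y w c d e,
    Hs3 p α β γ z x y w c d e = Hs3 p α β γ z 0 0 0 0 0 0 +
      p * (x * A + y * B + w * C + (c + d + e) * E) := by
  obtain ⟨a, A, B, C, E, h⟩ := Hs3_af p α β γ z
  refine ⟨A, B, C, E, fun x y w c d e => ?_⟩
  have h1 := h x y w c d e
  have h2 := h 0 0 0 0 0 0
  beta_reduce at h1 h2
  rw [h1, h2]
  ring

end

variable {p : ℕ} [hp : Fact p.Prime]

theorem tm3_PO (num den : ℕ → ℤ) (α β γ z x y w c d e : R p)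
    (hd : ∀ i, i + 1 < p → ¬ (p : ℤ) ∣ den i)
    (h : ∀ i, i + 1 < p → (α + i + p * x) * (β + i + p * y) * (γ + i + p * w) * z * (den i : ℤ) =
      (num i : ℤ) * ((i : R p) + 1 + p * c) * ((i : R p) + 1 + p * d) * ((i : R p) + 1 + p * e))
    (k : ℕ) (hk : k < p) : res2 p (PO p num den k) = tm3 p α β γ z x y w c d e k := by
  have h1 := PO_res p num den k fun i hi => hd i (by omega)
  have h2 : tm3 p α β γ z x y w c d e k * ∏ i ∈ range k, ((den i : ℤ) : R p) =
      ∏ i ∈ range k, ((num i : ℤ) : R p) := by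
    unfold tm3
    rw [← prod_mul_distrib]
    refine prod_congr rfl fun i hi => ?_
    rw [mem_range] at hi
    have hpp := p_sq p
    have key : ∀ c : R p, (((i : R p) + 1) + p * c) * (((i : R p) + 1) + p * c)⁻¹ = 1 := by
      intro c
      obtain ⟨h4, h5⟩ := inv_shift p i (by omega) c
      rw [h4]
      linear_combination (1 - p * c * ((i : R p) + 1)⁻¹) * h5 - (c ^ 2 * ((i : R p) + 1)⁻¹ ^ 2) * hpp
    have e1 := key c
    have e2 := key d
    have e3 := key e
    have h3 := h i (by omega)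
    set u := (((i : R p) + 1) + p * c)⁻¹
    set v := (((i : R p) + 1) + p * d)⁻¹
    set t := (((i : R p) + 1) + p * e)⁻¹
    linear_combination (u * v * t) * h3 +
      (((num i : ℤ) : R p) * ((i : R p) + 1 + p * d) * ((i : R p) + 1 + p * e) * v * t) * e1 +
      (((num i : ℤ) : R p) * ((i : R p) + 1 + p * e) * t) * e2 + ((num i : ℤ) : R p) * e3
  have hu : IsUnit (∏ i ∈ range k, ((den i : ℤ) : R p)) :=
    unit_prod k _ fun i hi => isUnit_int p _ (hd i (by omega))
  exact hu.mul_right_cancel (h1.trans h2.symm)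

theorem SO_tm3 (num den : ℕ → ℤ) (α β γ z a b w c d e : R p) (X1 X2 X5 X3 X4 X6 : ℕ → R p)
    (n0 d0 s1 s2 s5 s3 s4 s6 : R p) (hnd : ∀ i, i + 1 < p → ¬ (p : ℤ) ∣ den i)
    (hn : ∀ i, ((num i : ℤ) : R p) = n0 * (X1 i * X2 i * X5 i))
    (hd : ∀ i, ((den i : ℤ) : R p) = d0 * (X3 i * X4 i * X6 i))
    (h1 : ∀ i, X1 i = s1 * (α + i + p * a)) (h2 : ∀ i, X2 i = s2 * (β + i + p * b))
    (h5 : ∀ i, X5 i = s5 * (γ + i + p * w))
    (h3 : ∀ i, X3 i = s3 * ((i : R p) + 1 + p * c)) (h4 : ∀ i, X4 i = s4 * ((i : R p) + 1 + p * d))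
    (h6 : ∀ i, X6 i = s6 * ((i : R p) + 1 + p * e))
    (hz : z * (d0 * (s3 * s4 * s6)) = n0 * (s1 * s2 * s5)) :
    res2 p (SO p num den) = Hs3 p α β γ z a b w c d e := by
  unfold SO Hs3
  rw [map_sum]
  refine sum_congr rfl fun k hk => ?_
  rw [mem_range] at hk
  refine tm3_PO num den α β γ z a b w c d e hnd (fun i _ => ?_) k hk
  rw [hn, hd, h1, h2, h3, h4, h5, h6]
  linear_combination ((α + i + p * a) * (β + i + p * b) * (γ + i + p * w) * ((i : R p) + 1 + p * c) *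
    ((i : R p) + 1 + p * d) * ((i : R p) + 1 + p * e)) * hz

/-- **the product over a period of a quotient of six linear factors** -/
theorem tau3 (h2 : p ≠ 2) (num den : ℕ → ℤ)
    (n0 d0 C E a1 b1 u1 a2 b2 u2 a5 b5 u5 a3 b3 u3 a4 b4 u4 a6 b6 u6 : ℤ)
    (r1 r2 r5 r3 r4 r6 : ℕ) (R1 : RD p a1 b1 u1 r1) (R2 : RD p a2 b2 u2 r2) (R5 : RD p a5 b5 u5 r5)
    (R3 : RD p a3 b3 u3 r3) (R4 : RD p a4 b4 u4 r4) (R6 : RD p a6 b6 u6 r6)
    (hn : ∀ i, num i = n0 * ((a1 * i + b1) * (a2 * i + b2) * (a5 * i + b5)))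
    (hd : ∀ i, den i = d0 * ((a3 * i + b3) * (a4 * i + b4) * (a6 * i + b6)))
    (hC : u1 * u2 * u5 * E = C * (u3 * u4 * u6))
    (h3 : u3 ≠ 0) (h4 : u4 ≠ 0) (h6 : u6 ≠ 0) (hE : ¬ (p : ℤ) ∣ E) (hd0 : ¬ (p : ℤ) ∣ d0) :
    ∃ τ : O p, (τ : ℚ) = ∏ i ∈ range p, ((num i : ℚ) / (den i : ℚ)) ∧
      res2 p τ * ((d0 : R p) ^ p * E * ((a3 : R p) ^ (p - 1) * (a4 : R p) ^ (p - 1) *
        (a6 : R p) ^ (p - 1)) * ((1 + p * D p r3) * (1 + p * D p r4) * (1 + p * D p r6))) =
      (n0 : R p) ^ p * C * ((a1 : R p) ^ (p - 1) * (a2 : R p) ^ (p - 1) * (a5 : R p) ^ (p - 1)) *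
        ((1 + p * D p r1) * (1 + p * D p r2) * (1 + p * D p r5)) := by
  have hp0 : (p : ℚ) ≠ 0 := by exact_mod_cast hp.out.ne_zero
  set W1 := rootW a1 b1 p r1
  set W2 := rootW a2 b2 p r2
  set W5 := rootW a5 b5 p r5
  set W3 := rootW a3 b3 p r3
  set W4 := rootW a4 b4 p r4
  set W6 := rootW a6 b6 p r6
  have hB : ¬ (p : ℤ) ∣ d0 ^ p * E * (W3 * W4 * W6) :=
    not_dvd_mul (not_dvd_mul (pow_nd hd0 p) hE)
      (not_dvd_mul (not_dvd_mul (R3.unit h2) (R4.unit h2)) (R6.unit h2))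
  refine ⟨((n0 ^ p * C * (W1 * W2 * W5) : ℤ) : O p) * invI p (d0 ^ p * E * (W3 * W4 * W6)), ?_, ?_⟩
  · have e0 : (((((n0 ^ p * C * (W1 * W2 * W5) : ℤ) : O p) *
        invI p (d0 ^ p * E * (W3 * W4 * W6)) : O p)) : ℚ) =
        ((n0 ^ p * C * (W1 * W2 * W5) : ℤ) : ℚ) * (((d0 ^ p * E * (W3 * W4 * W6) : ℤ)) : ℚ)⁻¹ := by
      rw [← invI_coe p _ hB]
      rfl
    rw [e0, prod_div_distrib]
    have en : ∏ i ∈ range p, ((num i : ℤ) : ℚ) = (n0 : ℚ) ^ p * (((u1 : ℚ) * p * W1) *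
        ((u2 : ℚ) * p * W2) * ((u5 : ℚ) * p * W5)) := by
      rw [← R1.prod, ← R2.prod, ← R5.prod, ← prod_mul_distrib, ← prod_mul_distrib,
        show (n0 : ℚ) ^ p = ∏ _i ∈ range p, (n0 : ℚ) by
        rw [prod_const, card_range], ← prod_mul_distrib]
      refine prod_congr rfl fun i _ => ?_
      rw [hn]
      push_cast
      ring
    have ed : ∏ i ∈ range p, ((den i : ℤ) : ℚ) = (d0 : ℚ) ^ p * (((u3 : ℚ) * p * W3) *
        ((u4 : ℚ) * p * W4) * ((u6 : ℚ) * p * W6)) := by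
      rw [← R3.prod, ← R4.prod, ← R6.prod, ← prod_mul_distrib, ← prod_mul_distrib,
        show (d0 : ℚ) ^ p = ∏ _i ∈ range p, (d0 : ℚ) by
        rw [prod_const, card_range], ← prod_mul_distrib]
      refine prod_congr rfl fun i _ => ?_
      rw [hd]
      push_cast
      ring
    rw [en, ed]
    have q1 : (d0 : ℚ) ≠ 0 := by
      intro h
      apply hd0
      have : d0 = 0 := by exact_mod_cast h
      rw [this]; exact dvd_zero _
    have q2 : (E : ℚ) ≠ 0 := by
      intro h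
      apply hE
      have : E = 0 := by exact_mod_cast h
      rw [this]; exact dvd_zero _
    have q3 : (W3 : ℚ) ≠ 0 := by
      intro h
      apply R3.unit h2
      have : W3 = 0 := by exact_mod_cast h
      show (p : ℤ) ∣ W3
      rw [this]; exact dvd_zero _
    have q4 : (W4 : ℚ) ≠ 0 := by
      intro h
      apply R4.unit h2
      have : W4 = 0 := by exact_mod_cast h
      show (p : ℤ) ∣ W4
      rw [this]; exact dvd_zero _
    have q7 : (W6 : ℚ) ≠ 0 := by
      intro h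
      apply R6.unit h2
      have : W6 = 0 := by exact_mod_cast h
      show (p : ℤ) ∣ W6
      rw [this]; exact dvd_zero _
    have q5 : (u3 : ℚ) ≠ 0 := by exact_mod_cast h3
    have q6 : (u4 : ℚ) ≠ 0 := by exact_mod_cast h4
    have q8 : (u6 : ℚ) ≠ 0 := by exact_mod_cast h6
    have hC' := congrArg (Int.cast : ℤ → ℚ) hC
    push_cast at hC' ⊢
    field_simp
    linear_combination (-((n0 : ℚ) ^ p * W1 * W2 * W5)) * hC'
  · have h5 := res2_invI p _ hB
    rw [map_mul, map_intCast]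
    have w1 := R1.res h2
    have w2 := R2.res h2
    have w5 := R5.res h2
    have w3 := R3.res h2
    have w4 := R4.res h2
    have w6 := R6.res h2
    set v := res2 p (invI p (d0 ^ p * E * (W3 * W4 * W6)))
    push_cast at h5 ⊢
    have hu := (fact_unit (p := p)).pow 3
    apply hu.mul_left_cancel
    change ((W1 : ℤ) : R p) = _ at w1
    change ((W2 : ℤ) : R p) = _ at w2
    change ((W5 : ℤ) : R p) = _ at w5
    change ((W3 : ℤ) : R p) = _ at w3
    change ((W4 : ℤ) : R p) = _ at w4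
    change ((W6 : ℤ) : R p) = _ at w6
    set w := (((p - 1).factorial : ℕ) : R p)
    have k1 : w ^ 3 * ((a3 : R p) ^ (p - 1) * (a4 : R p) ^ (p - 1) * (a6 : R p) ^ (p - 1) *
        ((1 + p * D p r3) * (1 + p * D p r4) * (1 + p * D p r6))) = (W3 : R p) * W4 * W6 := by
      rw [w3, w4, w6]; ring
    have k2 : w ^ 3 * ((a1 : R p) ^ (p - 1) * (a2 : R p) ^ (p - 1) * (a5 : R p) ^ (p - 1) *
        ((1 + p * D p r1) * (1 + p * D p r2) * (1 + p * D p r5))) = (W1 : R p) * W2 * W5 := by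
      rw [w1, w2, w5]; ring
    linear_combination ((n0 : R p) ^ p * C * ((W1 : R p) * W2 * W5) * v * ((d0 : R p) ^ p * E)) * k1
      + ((n0 : R p) ^ p * C * ((W1 : R p) * W2 * W5)) * h5 - ((n0 : R p) ^ p * C) * k2

end Pool.Agent.Q278.VX
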