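import Pool.Agent.Q278.VX.C
import Pool.Agent.Q278.VX.N

/-!
# The terminating sums at `-9/64000` modulo `p²`
-/

set_option autoImplicit false

namespace Pool.Agent.Q278.VX

open Finset Pool.Agent.Q267.CDE Q278.PI Pool.Agent.Q278.YC Pool.Agent.Q278.SX

variable {p : ℕ} [hp : Fact p.Prime] {r : ℕ}

theorem small_nd7 (h5 : 5 < p) : ¬ (p : ℤ) ∣ 2 ∧ ¬ (p : ℤ) ∣ 3 ∧ ¬ (p : ℤ) ∣ 5 := by
  refine ⟨?_, ?_, ?_⟩
  all_goals
    apply not_dvd_small
    · norm_num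
    · omega
    · omega

theorem nd32000 (h5 : 5 < p) : ¬ (p : ℤ) ∣ 32000 := by
  obtain ⟨n2, -, n5⟩ := small_nd7 (p := p) h5
  have h : (32000 : ℤ) = 2 ^ 8 * 5 ^ 3 := by norm_num
  rw [h]
  exact not_dvd_mul (pow_nd n2 8) (pow_nd n5 3)

theorem epp (u v : R p) : (1 + p * u) * (1 + p * v) = 1 + p * (u + v) := by
  have hpp := p_sq p
  linear_combination (u * v) * hpp

theorem dE_nd (h5 : 5 < p) (M J : ℕ) (j k l : ℤ) (hJ : (J : ℤ) = j * p)
    (hM : 6 * (J : ℤ) + 5 - 6 * M = 6 + k * p) (hM' : 3 * (J : ℤ) + 2 - 6 * M = 3 + l * p)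
    (i : ℕ) (hi : i + 1 < p) : ¬ (p : ℤ) ∣ dE M ((J + i : ℕ) : ℤ) := by
  unfold dE
  obtain ⟨n2, n3, n5⟩ := small_nd7 (p := p) h5
  have n32 := nd32000 (p := p) h5
  have n6 := not_dvd_mul n2 n3
  norm_num at n6
  have ni : ¬ (p : ℤ) ∣ ((i : ℤ) + 1) := not_dvd_small _ (by omega) (by omega) (by omega)
  have e0 : 6 * ((J + i : ℕ) : ℤ) + 5 - 6 * M = 6 * ((i : ℤ) + 1) + k * p := by
    push_cast
    linear_combination hM
  have e1 : 3 * ((J + i : ℕ) : ℤ) + 2 - 6 * M = 3 * ((i : ℤ) + 1) + l * p := by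
    push_cast
    linear_combination hM'
  have e2 : ((J + i : ℕ) : ℤ) + 1 = ((i : ℤ) + 1) + j * p := by
    push_cast
    linear_combination hJ
  rw [e0, e1, e2]
  exact not_dvd_mul n32 (not_dvd_mul (not_dvd_mul (not_dvd_add (not_dvd_mul n6 ni) k)
    (not_dvd_add (not_dvd_mul n3 ni) l)) (not_dvd_add ni j))

theorem E_block (h5 : 5 < p) (M J : ℕ) (j k l : ℤ) (y z a b w c d e : R p) (hJ : (J : ℤ) = j * p)
    (hM : 6 * (J : ℤ) + 5 - 6 * M = 6 + k * p) (hM' : 3 * (J : ℤ) + 2 - 6 * M = 3 + l * p)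
    (hz : 64000 * z = -9)
    (h1 : (J : R p) - M = y + p * a)
    (h2 : 3 * (J : R p) + 1 - 3 * M = 3 * (3 * y + p * b))
    (h5' : 3 * (J : R p) + 2 - 3 * M = 3 * (5 * y + p * w))
    (h3 : 6 * (J : R p) + 5 - 6 * M = 6 * (1 + p * c))
    (h4 : 3 * (J : R p) + 2 - 6 * M = 3 * (1 + p * d)) (h6 : (J : R p) = p * e) :
    res2 p (SO p (fun i => nE M ((J + i : ℕ) : ℤ)) (fun i => dE M ((J + i : ℕ) : ℤ))) =
      Hs3 p y (3 * y) (5 * y) z a b w c d e := by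
  refine SO_tm3 _ _ _ _ _ _ _ _ _ _ _ _ (fun i => (J : R p) + i - M)
    (fun i => 3 * ((J : R p) + i) + 1 - 3 * M) (fun i => 3 * ((J : R p) + i) + 2 - 3 * M)
    (fun i => 6 * ((J : R p) + i) + 5 - 6 * M) (fun i => 3 * ((J : R p) + i) + 2 - 6 * M)
    (fun i => (J : R p) + i + 1) (-9) 32000 1 3 3 6 3 1
    (fun i hi => dE_nd h5 M J j k l hJ hM hM' i hi)
    (fun i => ?_) (fun i => ?_) (fun i => ?_) (fun i => ?_) (fun i => ?_) (fun i => ?_)
    (fun i => ?_) (fun i => ?_) ?_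
  · unfold nE; push_cast; ring
  · unfold dE; push_cast; ring
  · linear_combination h1
  · linear_combination h2
  · linear_combination h5'
  · linear_combination h3
  · linear_combination h4
  · linear_combination h6
  · linear_combination (9 : R p) * hz

theorem E_coe (h5 : 5 < p) (M J : ℕ) (j k l : ℤ) (hJ : (J : ℤ) = j * p)
    (hM : 6 * (J : ℤ) + 5 - 6 * M = 6 + k * p) (hM' : 3 * (J : ℤ) + 2 - 6 * M = 3 + l * p) :
    ((SO p (fun i => nE M ((J + i : ℕ) : ℤ)) (fun i => dE M ((J + i : ℕ) : ℤ)) : O p) : ℚ) =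
      ∑ l ∈ range p, ∏ i ∈ range l, (((nE M ((J + i : ℕ) : ℤ) : ℤ) : ℚ) /
        ((dE M ((J + i : ℕ) : ℤ) : ℤ) : ℚ)) :=
  SO_coe _ _ fun i hi => dE_nd h5 M J j k l hJ hM hM' i hi

theorem ES_two' (M : ℕ) (hM : M < 2 * p) : ES M =
    ∑ l ∈ range p, ∏ i ∈ range l, (((nE M ((0 + i : ℕ) : ℤ) : ℤ) : ℚ) /
        ((dE M ((0 + i : ℕ) : ℤ) : ℤ) : ℚ)) +
    (∏ i ∈ range p, (((nE M ((0 + i : ℕ) : ℤ) : ℤ) : ℚ) / ((dE M ((0 + i : ℕ) : ℤ) : ℤ) : ℚ))) *
      ∑ l ∈ range p, ∏ i ∈ range l, (((nE M ((p + i : ℕ) : ℤ) : ℤ) : ℚ) /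
        ((dE M ((p + i : ℕ) : ℤ) : ℤ) : ℚ)) := by
  rw [← ES_eq M (p + p) (by omega)]
  unfold tE
  rw [block_two]
  simp only [zero_add]

theorem ES_one' (M : ℕ) (hM : M < p) : ES M =
    ∑ l ∈ range p, ∏ i ∈ range l, (((nE M ((0 + i : ℕ) : ℤ) : ℤ) : ℚ) /
        ((dE M ((0 + i : ℕ) : ℤ) : ℤ) : ℚ)) := by
  rw [← ES_eq M p hM]
  unfold tE
  simp only [zero_add]

/-- the rational identity modulo `p²` -/
theorem EV_res (n : ℕ) (A B : O p) (hA : (A : ℚ) = ES n) (hB : (B : ℚ) = VS n) :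
    (128 : R p) ^ n * res2 p A = 125 ^ n * res2 p B ^ 2 := by
  have h : (128 : O p) ^ n * A = 125 ^ n * B ^ 2 := by
    apply Subtype.ext
    have h1 := EV n
    rw [← hA, ← hB] at h1
    push_cast
    exact h1
  have h1 := congrArg (res2 p) h
  rw [map_mul, map_mul, map_pow, map_pow, map_pow] at h1
  have e1 : res2 p 128 = 128 := map_ofNat _ _
  have e2 : res2 p 125 = 125 := map_ofNat _ _
  rw [e1, e2] at h1
  exact h1

theorem E_first (hr : p = 6 * r + 1) (y z : R p) (hy : 6 * y = 1) (hz : 64000 * z = -9) :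
    ∃ A : O p, (A : ℚ) = ES r ∧
      res2 p A = Hs3 p y (3 * y) (5 * y) z (-y) (-y) (-y) (-y) (-2 * y) 0 := by
  have h2p := hp.out.two_le
  have hr0 : 0 < r := by omega
  have hc := cp hr
  have hcp : (p : R p) = 6 * r + 1 := castp hr
  have hM : 6 * ((0 : ℕ) : ℤ) + 5 - 6 * r = 6 + (-1) * p := by rw [hc]; push_cast; ring
  have hM' : 3 * ((0 : ℕ) : ℤ) + 2 - 6 * r = 3 + (-1) * p := by rw [hc]; push_cast; ring
  refine ⟨SO p (fun i => nE r ((0 + i : ℕ) : ℤ)) (fun i => dE r ((0 + i : ℕ) : ℤ)), ?_, ?_⟩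
  · rw [E_coe (by omega) r 0 0 (-1) (-1) (by simp) hM hM', ← ES_one' (p := p) r (by omega)]
  · refine E_block (by omega) r 0 0 (-1) (-1) y z _ _ _ _ _ _ (by simp) hM hM' hz ?_ ?_ ?_ ?_ ?_ ?_
    · push_cast; linear_combination y * hcp + (r : R p) * hy
    · push_cast; linear_combination 3 * y * hcp + (3 * r - 1 : R p) * hy
    · push_cast; linear_combination 3 * y * hcp + (3 * r - 2 : R p) * hy
    · push_cast; linear_combination hcp + (p : R p) * hy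
    · push_cast; linear_combination hcp + (p : R p) * hy
    · push_cast; ring

theorem E_second (hr : p = 6 * r + 1) (y z q2 q3 q5 : R p) (hy : 6 * y = 1) (hz : 64000 * z = -9)
    (hq2 : (2 : R p) ^ (p - 1) = 1 + p * q2)
    (hq3 : (3 : R p) ^ (p - 1) = 1 + p * q3) (hq5 : (5 : R p) ^ (p - 1) = 1 + p * q5) :
    ∃ A : O p, ∃ τ : R p, (A : ℚ) = ES (r + p) ∧
      res2 p A = Hs3 p y (3 * y) (5 * y) z (-7 * y) (-7 * y) (-7 * y) (-7 * y) (-14 * y) 0 +
        τ * Hs3 p y (3 * y) (5 * y) z (1 - 7 * y) (1 - 7 * y) (1 - 7 * y) (1 - 7 * y) (1 - 14 * y) 1 ∧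
      64000 * τ = 9 * (1 + p * (2 * q3 + 2 * D p r + D p (3 * r) - 9 * q2 - 3 * q5)) := by
  have h2p := hp.out.two_le
  have hr0 : 0 < r := by omega
  have hc := cp hr
  have hcp : (p : R p) = 6 * r + 1 := castp hr
  have hp2 : p ≠ 2 := by omega
  obtain ⟨n2, n3, n5⟩ := small_nd7 (p := p) (by omega)
  have n1 : ¬ (p : ℤ) ∣ 1 := not_dvd_small 1 (by norm_num) (by omega) (by omega)
  have n6 := not_dvd_mul n2 n3
  norm_num at n6
  have n32 := nd32000 (p := p) (by omega)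
  obtain ⟨u2, u3, u5⟩ := unit_num (p := p) hr
  have hpm := cast_pred (p := p)
  have hodd : Odd p := ⟨3 * r, by omega⟩
  have hend := D_end (p := p) hp2
  have hall := D_all (p := p) hp2 (5 * r) r (by omega)
  have hM0 : 6 * ((0 : ℕ) : ℤ) + 5 - 6 * ((r + p : ℕ) : ℤ) = 6 + (-7) * p := by
    push_cast; linear_combination hc
  have hM0' : 3 * ((0 : ℕ) : ℤ) + 2 - 6 * ((r + p : ℕ) : ℤ) = 3 + (-7) * p := by
    push_cast; linear_combination hc
  have hM1 : 6 * ((p : ℕ) : ℤ) + 5 - 6 * ((r + p : ℕ) : ℤ) = 6 + (-1) * p := by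
    push_cast; linear_combination hc
  have hM1' : 3 * ((p : ℕ) : ℤ) + 2 - 6 * ((r + p : ℕ) : ℤ) = 3 + (-4) * p := by
    push_cast; linear_combination hc
  obtain ⟨τ, hτ, hτr⟩ := tau3 hp2 (fun i => nE ((r + p : ℕ) : ℤ) ((0 + i : ℕ) : ℤ))
    (fun i => dE ((r + p : ℕ) : ℤ) ((0 + i : ℕ) : ℤ)) (-9) 32000 (-1) 2
    1 (-((r + p : ℕ) : ℤ)) (-1) 3 (1 - 3 * ((r + p : ℕ) : ℤ)) (-2) 3 (2 - 3 * ((r + p : ℕ) : ℤ)) (-1)
    6 (5 - 6 * ((r + p : ℕ) : ℤ)) (-1) 3 (2 - 6 * ((r + p : ℕ) : ℤ)) (-4) 1 1 1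
    r (3 * r) (5 * r) (p - 1) (p - 1) (p - 1)
    ⟨by omega, by push_cast; ring, n1⟩ ⟨by omega, by push_cast; linear_combination -hc, n3⟩
    ⟨by omega, by push_cast; linear_combination (-2 : ℤ) * hc, n3⟩
    ⟨by omega, by rw [hpm]; push_cast; linear_combination hc, n6⟩
    ⟨by omega, by rw [hpm]; push_cast; linear_combination hc, n3⟩
    ⟨by omega, by rw [hpm]; ring, n1⟩
    (fun i => by unfold nE; push_cast; ring) (fun i => by unfold dE; push_cast; ring)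
    (by norm_num) (by norm_num) (by norm_num) (by norm_num) n2 n32
  refine ⟨SO p (fun i => nE ((r + p : ℕ) : ℤ) ((0 + i : ℕ) : ℤ)) (fun i => dE ((r + p : ℕ) : ℤ) ((0 + i : ℕ) : ℤ)) +
    τ * SO p (fun i => nE ((r + p : ℕ) : ℤ) ((p + i : ℕ) : ℤ)) (fun i => dE ((r + p : ℕ) : ℤ) ((p + i : ℕ) : ℤ)),
    res2 p τ, ?_, ?_, ?_⟩
  · rw [ES_two' (p := p) (r + p) (by omega),
      ← E_coe (by omega) (r + p) 0 0 (-7) (-7) (by simp) hM0 hM0',
      ← E_coe (by omega) (r + p) p 1 (-1) (-4) (by ring) hM1 hM1', ← hτ]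
    push_cast
    ring
  · rw [map_add, map_mul]
    congr 1
    · refine E_block (by omega) (r + p) 0 0 (-7) (-7) y z _ _ _ _ _ _ (by simp) hM0 hM0' hz
        ?_ ?_ ?_ ?_ ?_ ?_
      · push_cast; linear_combination (7 * y - 1) * hcp + (7 * r + 1 : R p) * hy
      · push_cast; linear_combination (21 * y - 3) * hcp + (21 * r + 2 : R p) * hy
      · push_cast; linear_combination (21 * y - 3) * hcp + (21 * r + 1 : R p) * hy
      · push_cast; linear_combination hcp + (7 * p : R p) * hy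
      · push_cast; linear_combination hcp + (7 * p : R p) * hy
      · push_cast; ring
    · congr 1
      refine E_block (by omega) (r + p) p 1 (-1) (-4) y z _ _ _ _ _ _ (by ring) hM1 hM1' hz
        ?_ ?_ ?_ ?_ ?_ ?_
      · push_cast; linear_combination (7 * y - 1) * hcp + (7 * r + 1 : R p) * hy
      · push_cast; linear_combination (21 * y - 3) * hcp + (21 * r + 2 : R p) * hy
      · push_cast; linear_combination (21 * y - 3) * hcp + (21 * r + 1 : R p) * hy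
      · push_cast; linear_combination hcp + (7 * p : R p) * hy
      · push_cast; linear_combination hcp + (7 * p : R p) * hy
      · push_cast; ring
  · push_cast at hτr
    have e9 : (-9 : R p) ^ p = -(9 * (1 + p * q3) ^ 2) := by
      rw [hodd.neg_pow, pow_p, show (9 : R p) = 3 ^ 2 by norm_num, ← pow_mul, mul_comm 2 (p - 1),
        pow_mul, hq3]
    have e6 : (6 : R p) ^ (p - 1) = (1 + p * q2) * (1 + p * q3) := by
      rw [show (6 : R p) = 2 * 3 by norm_num, mul_pow, hq2, hq3]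
    have e32 : (32000 : R p) ^ p = 32000 * ((1 + p * q2) ^ 8 * (1 + p * q5) ^ 3) := by
      rw [pow_p, show (32000 : R p) = 2 ^ 8 * 5 ^ 3 by norm_num, mul_pow, ← pow_mul, ← pow_mul,
        mul_comm 8 (p - 1), mul_comm 3 (p - 1), pow_mul, pow_mul, hq2, hq5]
    rw [hend, hall, e9, e6, e32, hq3, one_pow, one_add_pow, one_add_pow, one_add_pow] at hτr
    have hpp := p_sq p
    have t1 : (1 + ((8 : ℕ) : R p) * (p * q2)) * (1 + ((3 : ℕ) : R p) * (p * q5)) =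
        1 + p * (8 * q2 + 3 * q5) := by
      push_cast
      linear_combination (24 * q2 * q5) * hpp
    have t2 : (1 + p * q2) * (1 + p * q3) * (1 + p * q3) = 1 + p * (q2 + 2 * q3) := by
      rw [epp, epp]; ring
    have t3 : (1 + p * D p r) * (1 + p * D p (3 * r)) * (1 + p * D p r) =
        1 + p * (2 * D p r + D p (3 * r)) := by
      rw [epp, epp]; ring
    have t4 : (1 + ((2 : ℕ) : R p) * (p * q3)) * (1 + p * q3) * (1 + p * q3) =
        1 + p * (4 * q3) := by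
      rw [mul_assoc, epp]
      push_cast
      linear_combination (4 * q3 ^ 2) * hpp
    have g1 : res2 p τ * (64000 * ((1 + p * (8 * q2 + 3 * q5)) * (1 + p * (q2 + 2 * q3)))) =
        9 * ((1 + p * (4 * q3)) * (1 + p * (2 * D p r + D p (3 * r)))) := by
      rw [← t1, ← t2, ← t3, ← t4]
      linear_combination hτr
    rw [epp, epp] at g1
    linear_combination (1 - p * (9 * q2 + 3 * q5 + 2 * q3)) * g1 +
      (64000 * res2 p τ * (9 * q2 + 3 * q5 + 2 * q3) ^ 2 -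
        9 * (9 * q2 + 3 * q5 + 2 * q3) * (4 * q3 + (2 * D p r + D p (3 * r)))) * hpp

end Pool.Agent.Q278.VX
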