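import Pool.Agent.Q278.VX.O

/-!
# The value of the sum at `-9/64000` modulo `p²`
-/

set_option autoImplicit false

namespace Pool.Agent.Q278.VX

open Finset Pool.Agent.Q267.CDE Q278.PI Pool.Agent.Q278.YC Pool.Agent.Q278.SX

variable {p : ℕ} [hp : Fact p.Prime] {r : ℕ}

/-- the square of the value at `-3/125` -/
theorem V_sqC (hr : p = 6 * r + 1) (y z q2 q3 q5 : R p) (hy : 6 * y = 1) (hz : 125 * z = -3)
    (hq2 : (2 : R p) ^ (p - 1) = 1 + p * q2) (hq3 : (3 : R p) ^ (p - 1) = 1 + p * q3)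
    (hq5 : (5 : R p) ^ (p - 1) = 1 + p * q5) :
    Hs p y (3 * y) z 0 0 0 0 ^ 2 = 2 ^ (4 * r) * (1 + 4 * r * (p * q2)) * CC p r ^ 2 := by
  have h2p := hp.out.two_le
  have hr0 : 0 < r := by omega
  have hpp := p_sq p
  have hcp : (p : R p) = 6 * r + 1 := castp hr
  obtain ⟨u2, u3, u5⟩ := unit_num (p := p) hr
  have hv := V_value hr y z q2 q3 q5 hy hz hq2 hq3 hq5
  set V0 := Hs p y (3 * y) z 0 0 0 0
  have e1 : ((125 : R p) ^ r) ^ 2 = 1 + p * q5 := by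
    rw [← hq5, ← pow_mul, show (125 : R p) = 5 ^ 3 by norm_num, ← pow_mul]
    congr 1
    omega
  have e2 : ((108 : R p) ^ r) ^ 2 = 2 ^ (4 * r) * (1 + p * q3) := by
    rw [← hq3, ← pow_mul, show (108 : R p) = 2 ^ 2 * 3 ^ 3 by norm_num, mul_pow, ← pow_mul, ← pow_mul,
      show 2 * (r * 2) = 4 * r by ring, show 3 * (r * 2) = p - 1 by omega]
  have h1 := congrArg (fun t => t ^ 2) hv
  simp only [mul_pow] at h1
  rw [e1, e2] at h1
  have hU : IsUnit (1 + p * q5) := by rw [← hq5]; exact u5.pow _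
  apply hU.mul_left_cancel
  set C := CC p r
  set w := (2 : R p) ^ (4 * r)
  have hrp : 4 * (r : R p) * p = -(4 * y * p) := by
    linear_combination (-4 * y * p : R p) * hcp + 4 * y * hpp - (4 * r * p : R p) * hy
  linear_combination h1 + (4 * C ^ 2 * q2 ^ 2 * w * y ^ 2 - 6 * C ^ 2 * q3 ^ 2 * w * y +
    9 * C ^ 2 * q3 ^ 2 * w * y ^ 2 + 9 * C ^ 2 * q5 ^ 2 * w * y ^ 2 +
    9 * C ^ 2 * p * q3 ^ 3 * w * y ^ 2 - 4 * C ^ 2 * q2 * q3 * w * y +
    12 * C ^ 2 * q2 * q3 * w * y ^ 2 - 4 * C ^ 2 * q2 * q5 * r * w - 12 * C ^ 2 * q2 * q5 * w * y ^ 2 +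
    6 * C ^ 2 * q3 * q5 * w * y - 18 * C ^ 2 * q3 * q5 * w * y ^ 2 +
    12 * C ^ 2 * p * q2 * q3 ^ 2 * w * y ^ 2 + 4 * C ^ 2 * p * q2 ^ 2 * q3 * w * y ^ 2 +
    9 * C ^ 2 * p * q3 * q5 ^ 2 * w * y ^ 2 - 18 * C ^ 2 * p * q3 ^ 2 * q5 * w * y ^ 2 -
    12 * C ^ 2 * p * q2 * q3 * q5 * w * y ^ 2) * hpp + (-C ^ 2 * q2 * w) * hrp +
    (-C ^ 2 * p * q3 * w + C ^ 2 * p * q5 * w) * hy

/-- the sum at `-3/125` along the direction `(1, 1; 2)` -/
theorem V_dir (hr : p = 6 * r + 1) (y z q2 q3 q5 : R p) (hy : 6 * y = 1) (hz : 125 * z = -3)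
    (hq2 : (2 : R p) ^ (p - 1) = 1 + p * q2) (hq3 : (3 : R p) ^ (p - 1) = 1 + p * q3)
    (hq5 : (5 : R p) ^ (p - 1) = 1 + p * q5) :
    ∃ η : R p, (∀ s c d : R p, c + d = 2 * s →
      Hs p y (3 * y) z s s c d = Hs p y (3 * y) z 0 0 0 0 + p * (s * η)) ∧
      (p : R p) * (2 * η) = p * ((q3 + 8 * q2 + 6 * q5) * Hs p y (3 * y) z 0 0 0 0) := by
  have h2p := hp.out.two_le
  have hr0 : 0 < r := by omega
  have hp2 : p ≠ 2 := by omega
  have hp3 : p ≠ 3 := by omega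
  obtain ⟨u2, u3, u5⟩ := unit_num (p := p) hr
  have he := res2_invI p 8 (eight_nd' hr)
  push_cast at he
  set e := res2 p (invI p 8) with hedef
  have hpp := p_sq p
  obtain ⟨TA, TB, TC, hT, hs, hc⟩ := tdata hr y e q2 q3 hy he hq2 hq3
  obtain ⟨VA, VB, VC, hV⟩ := aff p y (3 * y) z
  obtain ⟨A1, a1, a2⟩ := T_first hr y e hy he
  obtain ⟨B1, c1, c2⟩ := V_first hr y z hy hz
  have H1 := VT_res (p := p) r B1 A1 c1 a1
  rw [a2, c2, hT, hV] at H1
  have hval := V_value hr y z q2 q3 q5 hy hz hq2 hq3 hq5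
  have hh := harm_three (p := p) hp2 hp3 (2 * r) (4 * r) (by omega) (by omega) q3 hq3
  set V0 := Hs p y (3 * y) z 0 0 0 0
  set L5 := (125 : R p) ^ r with hL5
  set K := (108 : R p) ^ r
  set C := CC p r
  set h := D p (2 * r)
  refine ⟨VA + VB + 2 * VC, fun s c d hcd => ?_, ?_⟩
  · rw [hV]
    linear_combination (p * VC) * hcd
  · have hU : IsUnit (L5) := by
      rw [hL5]
      apply IsUnit.pow
      rw [show (125 : R p) = 5 ^ 3 by norm_num]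
      exact u5.pow 3
    apply hU.mul_left_cancel
    linear_combination (12 - 8 * p * q2 - p * q3 - 6 * p * q5) * hval - 12 * H1 +
      (26 * C * K * q2 * q3 * y - 12 * C * K * q2 * q5 * y + 16 * C * K * q2 ^ 2 * y +
        15 * C * K * q3 * q5 * y + 3 * C * K * q3 ^ 2 * y - 18 * C * K * q5 ^ 2 * y) * hpp +
      (24 * K * y) * hs + (36 * K * y) * hc + (-18 * C * K * y) * hh +
      (-2 * L5 * VA * p - 2 * L5 * VB * p - 4 * L5 * VC * p + 8 * C * K * p * q2 + C * K * p * q3 +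
        6 * C * K * p * q5) * hy

set_option maxHeartbeats 1000000 in
/-- **the sum at `-9/64000` and the square of the sum at `-3/125`** -/
theorem E_value (hr : p = 6 * r + 1) (y z z' q2 q3 q5 : R p) (hy : 6 * y = 1) (hz : 125 * z = -3)
    (hz' : 64000 * z' = -9) (hq2 : (2 : R p) ^ (p - 1) = 1 + p * q2)
    (hq3 : (3 : R p) ^ (p - 1) = 1 + p * q3) (hq5 : (5 : R p) ^ (p - 1) = 1 + p * q5) :
    128 ^ r * Hs3 p y (3 * y) (5 * y) z' 0 0 0 0 0 0 =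
      125 ^ r * (Hs p y (3 * y) z 0 0 0 0 ^ 2 * (1 - p * (3 * q5 - 7 * q2) * y)) := by
  have h2p := hp.out.two_le
  have hr0 : 0 < r := by omega
  have hp2 : p ≠ 2 := by omega
  have hp3 : p ≠ 3 := by omega
  obtain ⟨u2, u3, u5⟩ := unit_num (p := p) hr
  have hpp := p_sq p
  obtain ⟨η, hV, heta⟩ := V_dir hr y z q2 q3 q5 hy hz hq2 hq3 hq5
  obtain ⟨EA, EB, EC, EE, hE⟩ := aff3 p y (3 * y) (5 * y) z'
  obtain ⟨A1, a1, a2⟩ := E_first hr y z' hy hz'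
  obtain ⟨A2, k, b1, b2, hk0⟩ := E_second hr y z' q2 q3 q5 hy hz' hq2 hq3 hq5
  obtain ⟨B1, c1, c2⟩ := V_first hr y z hy hz
  obtain ⟨B2, t, d1, d2, ht0⟩ := V_second hr y z q3 q5 hy hz hq3 hq5
  have H1 := EV_res (p := p) r A1 B1 a1 c1
  have H2 := EV_res (p := p) (r + p) A2 B2 b1 d1
  rw [a2, c2, hE, hV (-y) _ _ (by ring)] at H1
  rw [b2, d2, hE, hE (1 - 7 * y), hV (-7 * y) _ _ (by ring), hV (1 - 7 * y) _ _ (by ring)] at H2
  have h125 : (125 : R p) ^ p = 125 * (1 + p * (3 * q5)) := by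
    rw [pow_p, show (125 : R p) = 5 ^ 3 by norm_num, ← pow_mul, mul_comm 3 (p - 1), pow_mul, hq5,
      one_add_pow]
    push_cast
    ring
  have h128 : (128 : R p) ^ p = 128 * (1 + p * (7 * q2)) := by
    rw [pow_p, show (128 : R p) = 2 ^ 7 by norm_num, ← pow_mul, mul_comm 7 (p - 1), pow_mul, hq2,
      one_add_pow]
    push_cast
    ring
  rw [pow_add, pow_add, h125, h128] at H2
  have ha := harm_six (p := p) hr
  have hb := harm_two (p := p) hp2 (3 * r) (by omega) q2 hq2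
  have hh := harm_three (p := p) hp2 hp3 (2 * r) (4 * r) (by omega) (by omega) q3 hq3
  set V0 := Hs p y (3 * y) z 0 0 0 0
  set S := Hs3 p y (3 * y) (5 * y) z' 0 0 0 0 0 0
  set B := (128 : R p) ^ r
  set A := (125 : R p) ^ r
  set a := D p r
  set b := D p (3 * r)
  set h := D p (2 * r)
  obtain ⟨w, hw⟩ : ∃ w : R p, w = q3 + 8 * q2 + 6 * q5 := ⟨_, rfl⟩
  have heta' : (p : R p) * (2 * η) = p * (w * V0) := by rw [heta, hw]
  have ht : 500 * t = 6 - 3 * p * w := by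
    rw [hw]
    linear_combination 2 * ht0 + 6 * ha + 12 * hb + 3 * hh
  have hk : 64000 * k = 9 - 9 * p * (q3 + 15 * q2 + 3 * q5) := by
    linear_combination hk0 + 18 * ha + 27 * hb + 9 * hh
  obtain ⟨X, hXd⟩ : ∃ X : R p, X = (V0 - p * y * η) ^ 2 := ⟨_, rfl⟩
  obtain ⟨Y, hYd⟩ : ∃ Y : R p, Y = (V0 * (1 + t) - p * y * (7 + t) * η) ^ 2 := ⟨_, rfl⟩
  have hX : 6 * X = V0 ^ 2 * (6 - p * w) := by
    rw [hXd]
    linear_combination (6 * η ^ 2 * y ^ 2) * hpp + (-6 * V0 * y) * heta' + (-V0 ^ 2 * p * w) * hy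
  have hY : 375000 * Y = V0 ^ 2 * (384054 - 448063 * p * w) := by
    rw [hYd]
    apply u2.mul_left_cancel
    linear_combination (27 * V0 ^ 2 * w ^ 2 + 36750000 * η ^ 2 * y ^ 2 + 36054 * V0 ^ 2 * w ^ 2 * y +
      10500000 * η ^ 2 * t * y ^ 2 + 4500 * V0 ^ 2 * t * w ^ 2 * y +
      750000 * η ^ 2 * t ^ 2 * y ^ 2) * hpp +
      (-5250000 * V0 * y - 6000000 * V0 * t * y - 750000 * V0 * t ^ 2 * y) * heta' +
      (3018 * V0 ^ 2 + 1500 * V0 ^ 2 * t - 9 * V0 ^ 2 * p * w - 12018 * V0 ^ 2 * p * w * y -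
        1500 * V0 ^ 2 * p * t * w * y) * ht + (-887018 * V0 ^ 2 * p * w) * hy
  have I1 : B * (S - p * y * (EA + EB + EC + 3 * EE)) = A * X := by
    rw [hXd]
    linear_combination H1
  have I2 : B * (128 * (1 + 7 * p * q2)) *
      ((1 + k) * S - p * y * (7 + k) * (EA + EB + EC + 3 * EE)) =
      A * (125 * (1 + 3 * p * q5)) * Y := by
    rw [hYd]
    linear_combination H2 + (B * (128 * (1 + 7 * p * q2)) * k * p * (EA + EB + EC + 3 * EE) -
      A * (125 * (1 + 3 * p * q5)) * t * p * η * (2 * V0 * (1 + t) - p * y * (7 + t) * η -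
        7 * p * y * η + t * p * (1 - 7 * y) * η)) * hy
  have hU : IsUnit (3000 * 768 : R p) := by
    rw [show (3000 * 768 : R p) = 2 ^ 11 * 3 ^ 2 * 5 ^ 3 by norm_num]
    exact ((u2.pow 11).mul (u3.pow 2)).mul (u5.pow 3)
  apply hU.mul_left_cancel
  linear_combination (3000 * ((1 - 7 * p * q2) * (128 * (1 + 7 * p * q2)) * (7 + k))) * I1 -
    (3000 * (1 - 7 * p * q2)) * I2 +
    (-131712000 * A * X * q2 ^ 2 + 7875000 * A * Y * q2 * q5 + 112896000 * B * S * q2 ^ 2 -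
      3136306 * A * V0 ^ 2 * q2 * w + 9 * A * V0 ^ 2 * q3 * w + 1344216 * A * V0 ^ 2 * q5 * w -
      18816000 * A * X * k * q2 ^ 2) * hpp + (448000 * A + 64000 * A * k) * hX +
    (-A + 7 * A * p * q2 - 3 * A * p * q5) * hY + (6 * A * V0 ^ 2 - A * V0 ^ 2 * p * w) * hk +
    (54 * A * V0 ^ 2 * p) * hw +
    (-2688000 * A * V0 ^ 2 * p * q2 + 1152000 * A * V0 ^ 2 * p * q5) * hy

/-- **the value of the sum at `-9/64000`** -/
theorem S_value (hr : p = 6 * r + 1) (y z' : R p) (hy : 6 * y = 1) (hz' : 64000 * z' = -9) :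
    Hs3 p y (3 * y) (5 * y) z' 0 0 0 0 0 0 = ((legendreSym p 10 : ℤ) : R p) * CC p r ^ 2 := by
  have h2p := hp.out.two_le
  have hr0 : 0 < r := by omega
  have hpp := p_sq p
  have hcp : (p : R p) = 6 * r + 1 := castp hr
  obtain ⟨u2, u3, u5⟩ := unit_num (p := p) hr
  obtain ⟨n2, n3, n5⟩ := small_nd7 (p := p) (by omega)
  obtain ⟨q2, hq2⟩ := fermat (2 : R p) u2
  obtain ⟨q3, hq3⟩ := fermat (3 : R p) u3
  obtain ⟨q5, hq5⟩ := fermat (5 : R p) u5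
  have n125 := not_dvd_mul n5 (not_dvd_mul n5 n5)
  norm_num at n125
  have hz0 := res2_invI p 125 n125
  push_cast at hz0
  have hz : 125 * (-3 * res2 p (invI p 125)) = (-3 : R p) := by linear_combination -3 * hz0
  have hE := E_value hr y _ z' q2 q3 q5 hy hz hz' hq2 hq3 hq5
  rw [V_sqC hr y _ q2 q3 q5 hy hz hq2 hq3 hq5] at hE
  -- the Legendre symbol
  have n10 := not_dvd_mul n2 n5
  norm_num at n10
  have h10 : ((10 : ℤ) : ZMod p) ≠ 0 := by
    rw [Ne, ZMod.intCast_zmod_eq_zero_iff_dvd]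
    exact n10
  have hsq := legendreSym.sq_one p h10
  have heu := legendreSym.eq_pow p 10
  rw [show p / 2 = 3 * r by omega] at heu
  set ε := legendreSym p 10
  have hsq' : ((ε : ℤ) : R p) ^ 2 = 1 := by exact_mod_cast congrArg (Int.cast : ℤ → R p) hsq
  obtain ⟨g, hg⟩ := red_eq_of p ((10 : R p) ^ (3 * r)) ((ε : ℤ) : R p) (by
    rw [red_int, heu, map_pow]
    congr 1
    have := red_int p 10
    push_cast at this ⊢
    exact this)
  have hs10 : ((10 : R p) ^ (3 * r)) ^ 2 = (1 + p * q2) * (1 + p * q5) := by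
    rw [← hq2, ← hq5, ← mul_pow, ← pow_mul, show 3 * r * 2 = p - 1 by omega]
    norm_num
  have hg' : (p : R p) * (2 * g) = p * (((ε : ℤ) : R p) * (q2 + q5)) := by
    rw [hg] at hs10
    linear_combination (ε : R p) * hs10 + (-ε * g ^ 2 + ε * q2 * q5 : R p) * hpp +
      (-ε - 2 * g * p : R p) * hsq'
  have hrp : 4 * (r : R p) * p = -(4 * y * p) := by
    linear_combination (-4 * y * p : R p) * hcp + 4 * y * hpp - (4 * r * p : R p) * hy
  have e1 : (128 : R p) ^ r = 2 ^ (4 * r) * 2 ^ (3 * r) := by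
    rw [show (128 : R p) = 2 ^ 7 by norm_num, ← pow_mul, ← pow_add]
    congr 1
    ring
  have e2 : (125 : R p) ^ r = 5 ^ (3 * r) := by
    rw [show (125 : R p) = 5 ^ 3 by norm_num, ← pow_mul]
  have e3 : (2 : R p) ^ (3 * r) * 2 ^ (3 * r) = 1 + p * q2 := by
    rw [← hq2, ← pow_add]
    congr 1
    omega
  have e4 : (2 : R p) ^ (3 * r) * 5 ^ (3 * r) = ((ε : ℤ) : R p) + p * g := by
    rw [← hg, ← mul_pow]
    norm_num
  rw [e1, e2] at hE
  have hU : IsUnit ((2 : R p) ^ (4 * r)) := u2.pow _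
  have hU2 : IsUnit (2 * (1 + p * q2)) := by rw [← hq2]; exact u2.mul (u2.pow _)
  set S := Hs3 p y (3 * y) (5 * y) z' 0 0 0 0 0 0
  set C := CC p r
  have hE' : 2 ^ (3 * r) * S = 5 ^ (3 * r) * ((1 + 4 * r * (p * q2)) * C ^ 2 *
      (1 - p * (3 * q5 - 7 * q2) * y)) := by
    apply hU.mul_left_cancel
    linear_combination hE
  apply hU2.mul_left_cancel
  linear_combination (2 * 2 ^ (3 * r) : R p) * hE' - (2 * S) * e3 +
    (2 * C ^ 2 + 8 * C ^ 2 * p * q2 * r + 14 * C ^ 2 * p * q2 * y - 6 * C ^ 2 * p * q5 * y -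
      24 * C ^ 2 * p ^ 2 * q2 * q5 * r * y + 56 * C ^ 2 * p ^ 2 * q2 ^ 2 * r * y) * e4 +
    (8 * C ^ 2 * g * q2 * r + 14 * C ^ 2 * g * q2 * y - 6 * C ^ 2 * g * q5 * y -
      24 * C ^ 2 * ε * q2 * q5 * r * y + 56 * C ^ 2 * ε * q2 ^ 2 * r * y -
      24 * C ^ 2 * g * p * q2 * q5 * r * y + 56 * C ^ 2 * g * p * q2 ^ 2 * r * y) * hpp +
    (C ^ 2) * hg' + (2 * C ^ 2 * ε * q2) * hrp + (C ^ 2 * ε * p * q2 - C ^ 2 * ε * p * q5) * hy

end Pool.Agent.Q278.VX
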