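import Pool.Agent.Q278.VX.O

/-!
# The sum at `-9/64000` for `p = 6 m + 5`
-/

set_option autoImplicit false

namespace Pool.Agent.Q278.VX

open Finset Pool.Agent.Q267.CDE Q278.PI Pool.Agent.Q278.YC Pool.Agent.Q278.SX

variable {p : ℕ} [hp : Fact p.Prime] {m : ℕ}

theorem sq_zero_of (x : R p) (h : (p : R p) * x = 0) : x ^ 2 = 0 := by
  have h1 : red p x = red p 0 := by
    by_contra hne
    rw [map_zero] at hne
    have hu := isUnit_of_red p hne
    have h2 : (p : R p) = 0 := by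
      apply hu.mul_right_cancel
      rw [h, zero_mul]
    have h3 : ((p : ℕ) : ZMod (p ^ 2)) = 0 := h2
    rw [ZMod.natCast_eq_zero_iff] at h3
    have h4 := Nat.le_of_dvd hp.out.pos h3
    have := hp.out.two_le
    nlinarith
  obtain ⟨q, hq⟩ := red_eq_of p _ _ h1
  have hpp := p_sq p
  rw [hq]
  linear_combination q ^ 2 * hpp

theorem V_first5 (hm : p = 6 * m + 5) (y z : R p) (h5 : 5 < p) (hy : 6 * y = 1)
    (hz : 125 * z = -3) : ∃ A : O p, (A : ℚ) = VS (5 * m + 4) ∧ (p : R p) * res2 p A = 0 := by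
  have hcp : (p : R p) = 6 * m + 5 := castp5 hm
  have hc : (p : ℤ) = 6 * m + 5 := by rw [hm]; push_cast; ring
  have hV := V_zero hm y z h5 hy hz
  have hM0 : 3 * ((0 : ℕ) : ℤ) + 2 - 6 * ((5 * m + 4 : ℕ) : ℤ) = 3 + (-5) * p := by
    push_cast; linear_combination 5 * hc
  have b1 := V_block (p := p) (by omega) (5 * m + 4) 0 0 (-5) y z (-5 * y) (-5 * y) (-10 * y) 0
      (by simp) hM0 hz (by push_cast; linear_combination (5 * y) * hcp + (5 * m + 4 : R p) * hy)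
      (by push_cast; linear_combination (15 * y) * hcp + (15 * m + 11 : R p) * hy)
      (by push_cast; linear_combination 5 * hcp + (5 * p) * hy) (by push_cast; ring)
  refine ⟨SO p (fun i => nV ((5 * m + 4 : ℕ) : ℤ) ((0 + i : ℕ) : ℤ))
      (fun i => dV ((5 * m + 4 : ℕ) : ℤ) ((0 + i : ℕ) : ℤ)), ?_, ?_⟩
  · rw [VS_one' (p := p) (5 * m + 4) (by omega)]
    exact V_coe (by omega) (5 * m + 4) 0 0 (-5) (by simp) hM0
  · rw [b1, p_Hs]
    exact hV

theorem V_second5 (hm : p = 6 * m + 5) (y z : R p) (h5 : 5 < p) (hy : 6 * y = 1)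
    (hz : 125 * z = -3) :
    ∃ A : O p, (A : ℚ) = VS (5 * m + 4 + p) ∧ (p : R p) * res2 p A = 0 := by
  have hcp : (p : R p) = 6 * m + 5 := castp5 hm
  have hc : (p : ℤ) = 6 * m + 5 := by rw [hm]; push_cast; ring
  have hV := V_zero hm y z h5 hy hz
  have hp2 : p ≠ 2 := by omega
  obtain ⟨n2, n3, n5⟩ := small_nd7 (p := p) h5
  have n1 : ¬ (p : ℤ) ∣ 1 := not_dvd_small 1 (by norm_num) (by omega) (by omega)
  have n125 := not_dvd_mul n5 (not_dvd_mul n5 n5)
  norm_num at n125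
  have hpm := cast_pred (p := p)
  have hM0 : 3 * ((0 : ℕ) : ℤ) + 2 - 6 * ((5 * m + 4 + p : ℕ) : ℤ) = 3 + (-11) * p := by
    push_cast; linear_combination 5 * hc
  have hM1 : 3 * ((p : ℕ) : ℤ) + 2 - 6 * ((5 * m + 4 + p : ℕ) : ℤ) = 3 + (-8) * p := by
    push_cast; linear_combination 5 * hc
  obtain ⟨τ, hτ, -⟩ := tau2 hp2 (fun i => nV ((5 * m + 4 + p : ℕ) : ℤ) ((0 + i : ℕ) : ℤ))
    (fun i => dV ((5 * m + 4 + p : ℕ) : ℤ) ((0 + i : ℕ) : ℤ)) (-3) 125 (-1) 2
    1 (-((5 * m + 4 + p : ℕ) : ℤ)) (-1) 3 (1 - 3 * ((5 * m + 4 + p : ℕ) : ℤ)) (-4)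
    3 (2 - 6 * ((5 * m + 4 + p : ℕ) : ℤ)) (-8) 1 1 1 (5 * m + 4) (3 * m + 2) (p - 1) (p - 1)
    ⟨by omega, by push_cast; ring, n1⟩ ⟨by omega, by push_cast; linear_combination hc, n3⟩
    ⟨by omega, by rw [hpm]; push_cast; linear_combination 5 * hc, n3⟩
    ⟨by omega, by rw [hpm]; ring, n1⟩
    (fun i => by unfold nV; push_cast; ring) (fun i => by unfold dV; push_cast; ring)
    (by norm_num) (by norm_num) (by norm_num) n2 n125
  have b0 := V_block (p := p) (by omega) (5 * m + 4 + p) 0 0 (-11) y z (-11 * y) (-11 * y)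
    (-22 * y) 0 (by simp) hM0 hz
    (by push_cast; linear_combination (11 * y - 1) * hcp + (11 * m + 9 : R p) * hy)
    (by push_cast; linear_combination (33 * y - 3) * hcp + (33 * m + 26 : R p) * hy)
    (by push_cast; linear_combination 5 * hcp + (11 * p) * hy) (by push_cast; ring)
  have b1 := V_block (p := p) (by omega) (5 * m + 4 + p) p 1 (-8) y z (1 - 11 * y) (1 - 11 * y)
    (1 - 22 * y) 1 (by ring) hM1 hz
    (by push_cast; linear_combination (11 * y - 1) * hcp + (11 * m + 9 : R p) * hy)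
    (by push_cast; linear_combination (33 * y - 3) * hcp + (33 * m + 26 : R p) * hy)
    (by push_cast; linear_combination 5 * hcp + (11 * p) * hy) (by push_cast; ring)
  refine ⟨SO p (fun i => nV ((5 * m + 4 + p : ℕ) : ℤ) ((0 + i : ℕ) : ℤ))
      (fun i => dV ((5 * m + 4 + p : ℕ) : ℤ) ((0 + i : ℕ) : ℤ)) +
    τ * SO p (fun i => nV ((5 * m + 4 + p : ℕ) : ℤ) ((p + i : ℕ) : ℤ))
      (fun i => dV ((5 * m + 4 + p : ℕ) : ℤ) ((p + i : ℕ) : ℤ)), ?_, ?_⟩
  · rw [VS_two' (p := p) (5 * m + 4 + p) (by omega),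
      ← V_coe (by omega) (5 * m + 4 + p) 0 0 (-11) (by simp) hM0,
      ← V_coe (by omega) (5 * m + 4 + p) p 1 (-8) (by ring) hM1, ← hτ]
    push_cast
    ring
  · rw [map_add, map_mul, b0, b1]
    have c0 := p_Hs (p := p) y (3 * y) z (-11 * y) (-11 * y) (-22 * y) 0
    have c1 := p_Hs (p := p) y (3 * y) z (1 - 11 * y) (1 - 11 * y) (1 - 22 * y) 1
    linear_combination c0 + res2 p τ * c1 + (1 + res2 p τ) * hV

/-- **the sum at `-9/64000` vanishes modulo `p²`** -/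
theorem S_zero (hm : p = 6 * m + 5) (y z' : R p) (h5 : 5 < p) (hy : 6 * y = 1)
    (hz' : 64000 * z' = -9) : Hs3 p y (3 * y) (5 * y) z' 0 0 0 0 0 0 = 0 := by
  have hcp : (p : R p) = 6 * m + 5 := castp5 hm
  have hc : (p : ℤ) = 6 * m + 5 := by rw [hm]; push_cast; ring
  have hp2 : p ≠ 2 := by omega
  have hpp := p_sq p
  obtain ⟨n2, n3, n5⟩ := small_nd7 (p := p) h5
  have n1 : ¬ (p : ℤ) ∣ 1 := not_dvd_small 1 (by norm_num) (by omega) (by omega)
  have n6 := not_dvd_mul n2 n3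
  norm_num at n6
  have n32 := nd32000 (p := p) h5
  have n125 := not_dvd_mul n5 (not_dvd_mul n5 n5)
  norm_num at n125
  have hz0 := res2_invI p 125 n125
  push_cast at hz0
  have hz : 125 * (-3 * res2 p (invI p 125)) = (-3 : R p) := by linear_combination -3 * hz0
  have hpm := cast_pred (p := p)
  obtain ⟨B1, c1, c2⟩ := V_first5 hm y _ h5 hy hz
  obtain ⟨B2, d1, d2⟩ := V_second5 hm y _ h5 hy hz
  have hM : 6 * ((0 : ℕ) : ℤ) + 5 - 6 * ((5 * m + 4 : ℕ) : ℤ) = 6 + (-5) * p := by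
    push_cast; linear_combination 5 * hc
  have hM' : 3 * ((0 : ℕ) : ℤ) + 2 - 6 * ((5 * m + 4 : ℕ) : ℤ) = 3 + (-5) * p := by
    push_cast; linear_combination 5 * hc
  have hM0 : 6 * ((0 : ℕ) : ℤ) + 5 - 6 * ((5 * m + 4 + p : ℕ) : ℤ) = 6 + (-11) * p := by
    push_cast; linear_combination 5 * hc
  have hM0' : 3 * ((0 : ℕ) : ℤ) + 2 - 6 * ((5 * m + 4 + p : ℕ) : ℤ) = 3 + (-11) * p := by
    push_cast; linear_combination 5 * hc
  have hM1 : 6 * ((p : ℕ) : ℤ) + 5 - 6 * ((5 * m + 4 + p : ℕ) : ℤ) = 6 + (-5) * p := by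
    push_cast; linear_combination 5 * hc
  have hM1' : 3 * ((p : ℕ) : ℤ) + 2 - 6 * ((5 * m + 4 + p : ℕ) : ℤ) = 3 + (-8) * p := by
    push_cast; linear_combination 5 * hc
  obtain ⟨τ, hτ, -⟩ := tau3 hp2 (fun i => nE ((5 * m + 4 + p : ℕ) : ℤ) ((0 + i : ℕ) : ℤ))
    (fun i => dE ((5 * m + 4 + p : ℕ) : ℤ) ((0 + i : ℕ) : ℤ)) (-9) 32000 (-1) 2
    1 (-((5 * m + 4 + p : ℕ) : ℤ)) (-1) 3 (1 - 3 * ((5 * m + 4 + p : ℕ) : ℤ)) (-4)
    3 (2 - 3 * ((5 * m + 4 + p : ℕ) : ℤ)) (-5)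
    6 (5 - 6 * ((5 * m + 4 + p : ℕ) : ℤ)) (-5) 3 (2 - 6 * ((5 * m + 4 + p : ℕ) : ℤ)) (-8) 1 1 1
    (5 * m + 4) (3 * m + 2) m (p - 1) (p - 1) (p - 1)
    ⟨by omega, by push_cast; ring, n1⟩ ⟨by omega, by push_cast; linear_combination hc, n3⟩
    ⟨by omega, by push_cast; linear_combination (2 : ℤ) * hc, n3⟩
    ⟨by omega, by rw [hpm]; push_cast; linear_combination 5 * hc, n6⟩
    ⟨by omega, by rw [hpm]; push_cast; linear_combination 5 * hc, n3⟩
    ⟨by omega, by rw [hpm]; ring, n1⟩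
    (fun i => by unfold nE; push_cast; ring) (fun i => by unfold dE; push_cast; ring)
    (by norm_num) (by norm_num) (by norm_num) (by norm_num) n2 n32
  have b := E_block (p := p) (by omega) (5 * m + 4) 0 0 (-5) (-5) y z' (-5 * y) (-5 * y) (-5 * y)
    (-5 * y) (-10 * y) 0 (by simp) hM hM' hz'
    (by push_cast; linear_combination (5 * y) * hcp + (5 * m + 4 : R p) * hy)
    (by push_cast; linear_combination (15 * y) * hcp + (15 * m + 11 : R p) * hy)
    (by push_cast; linear_combination (15 * y) * hcp + (15 * m + 10 : R p) * hy)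
    (by push_cast; linear_combination 5 * hcp + (5 * p) * hy)
    (by push_cast; linear_combination 5 * hcp + (5 * p) * hy) (by push_cast; ring)
  have b0 := E_block (p := p) (by omega) (5 * m + 4 + p) 0 0 (-11) (-11) y z' (-11 * y) (-11 * y)
    (-11 * y) (-11 * y) (-22 * y) 0 (by simp) hM0 hM0' hz'
    (by push_cast; linear_combination (11 * y - 1) * hcp + (11 * m + 9 : R p) * hy)
    (by push_cast; linear_combination (33 * y - 3) * hcp + (33 * m + 26 : R p) * hy)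
    (by push_cast; linear_combination (33 * y - 3) * hcp + (33 * m + 25 : R p) * hy)
    (by push_cast; linear_combination 5 * hcp + (11 * p) * hy)
    (by push_cast; linear_combination 5 * hcp + (11 * p) * hy) (by push_cast; ring)
  have b1 := E_block (p := p) (by omega) (5 * m + 4 + p) p 1 (-5) (-8) y z' (1 - 11 * y)
    (1 - 11 * y) (1 - 11 * y) (1 - 11 * y) (1 - 22 * y) 1 (by ring) hM1 hM1' hz'
    (by push_cast; linear_combination (11 * y - 1) * hcp + (11 * m + 9 : R p) * hy)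
    (by push_cast; linear_combination (33 * y - 3) * hcp + (33 * m + 26 : R p) * hy)
    (by push_cast; linear_combination (33 * y - 3) * hcp + (33 * m + 25 : R p) * hy)
    (by push_cast; linear_combination 5 * hcp + (11 * p) * hy)
    (by push_cast; linear_combination 5 * hcp + (11 * p) * hy) (by push_cast; ring)
  have H1 := EV_res (p := p) (5 * m + 4) _ B1
    ((E_coe (p := p) (by omega) (5 * m + 4) 0 0 (-5) (-5) (by simp) hM hM').trans
      (ES_one' (p := p) (5 * m + 4) (by omega)).symm) c1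
  have H2 := EV_res (p := p) (5 * m + 4 + p)
    (SO p (fun i => nE ((5 * m + 4 + p : ℕ) : ℤ) ((0 + i : ℕ) : ℤ))
      (fun i => dE ((5 * m + 4 + p : ℕ) : ℤ) ((0 + i : ℕ) : ℤ)) +
    τ * SO p (fun i => nE ((5 * m + 4 + p : ℕ) : ℤ) ((p + i : ℕ) : ℤ))
      (fun i => dE ((5 * m + 4 + p : ℕ) : ℤ) ((p + i : ℕ) : ℤ))) B2 (by
    rw [ES_two' (p := p) (5 * m + 4 + p) (by omega),
      ← E_coe (by omega) (5 * m + 4 + p) 0 0 (-11) (-11) (by simp) hM0 hM0',
      ← E_coe (by omega) (5 * m + 4 + p) p 1 (-5) (-8) (by ring) hM1 hM1', ← hτ]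
    push_cast
    ring) d1
  rw [sq_zero_of _ c2, mul_zero, b] at H1
  rw [sq_zero_of _ d2, mul_zero, map_add, map_mul, b0, b1] at H2
  have u2 : IsUnit (2 : R p) := by exact_mod_cast isUnit_int p 2 n2
  have u3 : IsUnit (3 : R p) := by exact_mod_cast isUnit_int p 3 n3
  have u128 : ∀ n : ℕ, IsUnit ((128 : R p) ^ n) := by
    intro n
    apply IsUnit.pow
    rw [show (128 : R p) = 2 ^ 7 by norm_num]
    exact u2.pow 7
  have K1 := (u128 (5 * m + 4)).mul_left_cancel (H1.trans (mul_zero _).symm)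
  have K2 := (u128 (5 * m + 4 + p)).mul_left_cancel (H2.trans (mul_zero _).symm)
  obtain ⟨EA, EB, EC, EE, hE⟩ := aff3 p y (3 * y) (5 * y) z'
  rw [hE] at K1
  rw [hE, hE (1 - 11 * y)] at K2
  set S := Hs3 p y (3 * y) (5 * y) z' 0 0 0 0 0 0
  apply (u2.mul u3).mul_left_cancel
  linear_combination (11 + 5 * res2 p τ) * K1 - 5 * K2 -
    (5 * res2 p τ * p * (EA + EB + EC + 3 * EE)) * hy

end Pool.Agent.Q278.VX
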